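import Pool.Agent.Work.MP_bde882_al_tc.TAll
import Pool.Agent.Work.MP_bde882_al_h64.ChkAll
import Pool.Agent.Work.MP_bde882_al_h64.DimHH
import Pool.Agent.Work.MP_bde882_al_h40.Inst
import Pool.Agent.Work.MP_bde882_al_red.LetAll

/-!
The tables, the long lists and the big check for the concrete model.
-/

set_option autoImplicit false

namespace Pool.Agent.Work.MP_bde882_al.TC

open Pool.Agent.Work.MP_bde882_al H87 Fin8

/-- the tables of the letters are correct -/
theorem letters : Letters := letters_of Fin8.letters_HH

/-- all tables of the Lie basis are correct -/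
theorem tabOk : Pk.TabOk HH wcut ob H69.lbWord := tabOk_ob letters

/-- **The long lists for the concrete model.** -/
theorem long_HH : LongOne HH ∧ LongTwo HH ∧ TopValue HH :=
  Pk.long_of_tab HH wcut Chk64.tb wd (fun _ hn => if_pos hn) hd0_HH hD_HH (tabOk_tb letters)
    (shO_tb letters) Chk64.all_E Chk64.all_F Chk64.e33

/-- **The big check for the concrete model, from the leaf tests.** -/
theorem bigCheckC_of (hleaf : DP.Leaves HH wcut ob) : BigCheckC HH :=
  Pk.bigCheckC_of_tab HH wcut ob hD_HH tabOk (shO_ob letters) hleaf

end Pool.Agent.Work.MP_bde882_al.TC
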