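import Pool.Agent.Work.MP_bde882_al_tc.TG7
import Pool.Agent.Work.MP_bde882_al_tab.TabAll
import Pool.Agent.Work.MP_bde882_al_h64.ChkDefs

/-!
All tables of the Lie basis are correct.
-/

set_option autoImplicit false
set_option maxRecDepth 100000
set_option linter.defProp false

namespace Pool.Agent.Work.MP_bde882_al.TC

open Pool.Agent.Work.MP_bde882_al TS64 H87 Tab Pg62

/-- a correct operator for the word with the given degree and code -/
def GoodO (p : ℕ × ℕ) (o : Op) : Prop :=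
  Good (H69.dec p.1 p.2) (trO o) ∧ shO o = Fin8.tgtW (H69.dec p.1 p.2)

/-- codes -/
def K0 : List (ℕ × ℕ) :=
  [(1, 0), (2, 9), (3, 38), (3, 37), (3, 34), (3, 36), (3, 33), (3, 17), (3, 32), (3, 16), (4, 154), (4, 153), (4, 149), (4, 138), (4, 152), (4, 137), (4, 146), (4, 148), (4, 145), (4, 133), (4, 69)]

/-- operators -/
noncomputable def O0 : List Op :=
  [T1_0, T2_9, T3_38, T3_37, T3_34, T3_36, T3_33, T3_17, T3_32, T3_16, T4_154, T4_153, T4_149, T4_138, T4_152, T4_137, T4_146, T4_148, T4_145, T4_133, T4_69]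

theorem A0 (L : Letters) : List.Forall₂ GoodO K0 O0 := by
  unfold K0 O0
  refine List.Forall₂.cons ⟨L.d0, by decide +kernel⟩ ?_
  refine List.Forall₂.cons ⟨g2_9 L, by decide +kernel⟩ ?_
  refine List.Forall₂.cons ⟨g3_38 L, by decide +kernel⟩ ?_
  refine List.Forall₂.cons ⟨g3_37 L, by decide +kernel⟩ ?_
  refine List.Forall₂.cons ⟨g3_34 L, by decide +kernel⟩ ?_
  refine List.Forall₂.cons ⟨g3_36 L, by decide +kernel⟩ ?_
  refine List.Forall₂.cons ⟨g3_33 L, by decide +kernel⟩ ?_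
  refine List.Forall₂.cons ⟨g3_17 L, by decide +kernel⟩ ?_
  refine List.Forall₂.cons ⟨g3_32 L, by decide +kernel⟩ ?_
  refine List.Forall₂.cons ⟨g3_16 L, by decide +kernel⟩ ?_
  refine List.Forall₂.cons ⟨g4_154 L, by decide +kernel⟩ ?_
  refine List.Forall₂.cons ⟨g4_153 L, by decide +kernel⟩ ?_
  refine List.Forall₂.cons ⟨g4_149 L, by decide +kernel⟩ ?_
  refine List.Forall₂.cons ⟨g4_138 L, by decide +kernel⟩ ?_
  refine List.Forall₂.cons ⟨g4_152 L, by decide +kernel⟩ ?_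
  refine List.Forall₂.cons ⟨g4_137 L, by decide +kernel⟩ ?_
  refine List.Forall₂.cons ⟨g4_146 L, by decide +kernel⟩ ?_
  refine List.Forall₂.cons ⟨g4_148 L, by decide +kernel⟩ ?_
  refine List.Forall₂.cons ⟨g4_145 L, by decide +kernel⟩ ?_
  refine List.Forall₂.cons ⟨g4_133 L, by decide +kernel⟩ ?_
  refine List.Forall₂.cons ⟨g4_69 L, by decide +kernel⟩ ?_
  exact List.Forall₂.nil

/-- codes -/
def K1 : List (ℕ × ℕ) :=
  [(4, 136), (4, 144), (4, 132), (4, 129), (4, 68), (4, 128), (4, 64), (5, 618), (5, 617), (5, 614), (5, 613), (5, 598), (5, 597), (5, 554), (5, 616), (5, 553), (5, 610), (5, 550), (5, 612), (5, 609), (5, 549)]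

/-- operators -/
noncomputable def O1 : List Op :=
  [T4_136, T4_144, T4_132, T4_129, T4_68, T4_128, T4_64, T5_618, T5_617, T5_614, T5_613, T5_598, T5_597, T5_554, T5_616, T5_553, T5_610, T5_550, T5_612, T5_609, T5_549]

theorem A1 (L : Letters) : List.Forall₂ GoodO K1 O1 := by
  unfold K1 O1
  refine List.Forall₂.cons ⟨g4_136 L, by decide +kernel⟩ ?_
  refine List.Forall₂.cons ⟨g4_144 L, by decide +kernel⟩ ?_
  refine List.Forall₂.cons ⟨g4_132 L, by decide +kernel⟩ ?_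
  refine List.Forall₂.cons ⟨g4_129 L, by decide +kernel⟩ ?_
  refine List.Forall₂.cons ⟨g4_68 L, by decide +kernel⟩ ?_
  refine List.Forall₂.cons ⟨g4_128 L, by decide +kernel⟩ ?_
  refine List.Forall₂.cons ⟨g4_64 L, by decide +kernel⟩ ?_
  refine List.Forall₂.cons ⟨g5_618 L, by decide +kernel⟩ ?_
  refine List.Forall₂.cons ⟨g5_617 L, by decide +kernel⟩ ?_
  refine List.Forall₂.cons ⟨g5_614 L, by decide +kernel⟩ ?_
  refine List.Forall₂.cons ⟨g5_613 L, by decide +kernel⟩ ?_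
  refine List.Forall₂.cons ⟨g5_598 L, by decide +kernel⟩ ?_
  refine List.Forall₂.cons ⟨g5_597 L, by decide +kernel⟩ ?_
  refine List.Forall₂.cons ⟨g5_554 L, by decide +kernel⟩ ?_
  refine List.Forall₂.cons ⟨g5_616 L, by decide +kernel⟩ ?_
  refine List.Forall₂.cons ⟨g5_553 L, by decide +kernel⟩ ?_
  refine List.Forall₂.cons ⟨g5_610 L, by decide +kernel⟩ ?_
  refine List.Forall₂.cons ⟨g5_550 L, by decide +kernel⟩ ?_
  refine List.Forall₂.cons ⟨g5_612 L, by decide +kernel⟩ ?_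
  refine List.Forall₂.cons ⟨g5_609 L, by decide +kernel⟩ ?_
  refine List.Forall₂.cons ⟨g5_549 L, by decide +kernel⟩ ?_
  exact List.Forall₂.nil

/-- codes -/
def K2 : List (ℕ × ℕ) :=
  [(5, 585), (5, 594), (5, 582), (5, 596), (5, 593), (5, 581), (5, 533), (5, 277), (5, 552), (5, 546), (5, 608), (5, 548), (5, 584), (5, 545), (5, 578), (5, 530), (5, 592), (5, 580), (5, 532), (5, 577), (5, 529)]

/-- operators -/
noncomputable def O2 : List Op :=
  [T5_585, T5_594, T5_582, T5_596, T5_593, T5_581, T5_533, T5_277, T5_552, T5_546, T5_608, T5_548, T5_584, T5_545, T5_578, T5_530, T5_592, T5_580, T5_532, T5_577, T5_529]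

theorem A2 (L : Letters) : List.Forall₂ GoodO K2 O2 := by
  unfold K2 O2
  refine List.Forall₂.cons ⟨g5_585 L, by decide +kernel⟩ ?_
  refine List.Forall₂.cons ⟨g5_594 L, by decide +kernel⟩ ?_
  refine List.Forall₂.cons ⟨g5_582 L, by decide +kernel⟩ ?_
  refine List.Forall₂.cons ⟨g5_596 L, by decide +kernel⟩ ?_
  refine List.Forall₂.cons ⟨g5_593 L, by decide +kernel⟩ ?_
  refine List.Forall₂.cons ⟨g5_581 L, by decide +kernel⟩ ?_
  refine List.Forall₂.cons ⟨g5_533 L, by decide +kernel⟩ ?_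
  refine List.Forall₂.cons ⟨g5_277 L, by decide +kernel⟩ ?_
  refine List.Forall₂.cons ⟨g5_552 L, by decide +kernel⟩ ?_
  refine List.Forall₂.cons ⟨g5_546 L, by decide +kernel⟩ ?_
  refine List.Forall₂.cons ⟨g5_608 L, by decide +kernel⟩ ?_
  refine List.Forall₂.cons ⟨g5_548 L, by decide +kernel⟩ ?_
  refine List.Forall₂.cons ⟨g5_584 L, by decide +kernel⟩ ?_
  refine List.Forall₂.cons ⟨g5_545 L, by decide +kernel⟩ ?_
  refine List.Forall₂.cons ⟨g5_578 L, by decide +kernel⟩ ?_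
  refine List.Forall₂.cons ⟨g5_530 L, by decide +kernel⟩ ?_
  refine List.Forall₂.cons ⟨g5_592 L, by decide +kernel⟩ ?_
  refine List.Forall₂.cons ⟨g5_580 L, by decide +kernel⟩ ?_
  refine List.Forall₂.cons ⟨g5_532 L, by decide +kernel⟩ ?_
  refine List.Forall₂.cons ⟨g5_577 L, by decide +kernel⟩ ?_
  refine List.Forall₂.cons ⟨g5_529 L, by decide +kernel⟩ ?_
  exact List.Forall₂.nil

/-- codes -/
def K3 : List (ℕ × ℕ) :=
  [(5, 517), (5, 276), (5, 273), (5, 544), (5, 514), (5, 576), (5, 528), (5, 516), (5, 513), (5, 272), (5, 257), (5, 512), (5, 256), (6, 2474), (6, 2473), (6, 2470), (6, 2469), (6, 2457), (6, 2454), (6, 2453), (6, 2393)]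

/-- operators -/
noncomputable def O3 : List Op :=
  [T5_517, T5_276, T5_273, T5_544, T5_514, T5_576, T5_528, T5_516, T5_513, T5_272, T5_257, T5_512, T5_256, T6_2474, T6_2473, T6_2470, T6_2469, T6_2457, T6_2454, T6_2453, T6_2393]

theorem A3 (L : Letters) : List.Forall₂ GoodO K3 O3 := by
  unfold K3 O3
  refine List.Forall₂.cons ⟨g5_517 L, by decide +kernel⟩ ?_
  refine List.Forall₂.cons ⟨g5_276 L, by decide +kernel⟩ ?_
  refine List.Forall₂.cons ⟨g5_273 L, by decide +kernel⟩ ?_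
  refine List.Forall₂.cons ⟨g5_544 L, by decide +kernel⟩ ?_
  refine List.Forall₂.cons ⟨g5_514 L, by decide +kernel⟩ ?_
  refine List.Forall₂.cons ⟨g5_576 L, by decide +kernel⟩ ?_
  refine List.Forall₂.cons ⟨g5_528 L, by decide +kernel⟩ ?_
  refine List.Forall₂.cons ⟨g5_516 L, by decide +kernel⟩ ?_
  refine List.Forall₂.cons ⟨g5_513 L, by decide +kernel⟩ ?_
  refine List.Forall₂.cons ⟨g5_272 L, by decide +kernel⟩ ?_
  refine List.Forall₂.cons ⟨g5_257 L, by decide +kernel⟩ ?_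
  refine List.Forall₂.cons ⟨g5_512 L, by decide +kernel⟩ ?_
  refine List.Forall₂.cons ⟨g5_256 L, by decide +kernel⟩ ?_
  refine List.Forall₂.cons ⟨g6_2474 L, by decide +kernel⟩ ?_
  refine List.Forall₂.cons ⟨g6_2473 L, by decide +kernel⟩ ?_
  refine List.Forall₂.cons ⟨g6_2470 L, by decide +kernel⟩ ?_
  refine List.Forall₂.cons ⟨g6_2469 L, by decide +kernel⟩ ?_
  refine List.Forall₂.cons ⟨g6_2457 L, by decide +kernel⟩ ?_
  refine List.Forall₂.cons ⟨g6_2454 L, by decide +kernel⟩ ?_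
  refine List.Forall₂.cons ⟨g6_2453 L, by decide +kernel⟩ ?_
  refine List.Forall₂.cons ⟨g6_2393 L, by decide +kernel⟩ ?_
  exact List.Forall₂.nil

/-- codes -/
def K4 : List (ℕ × ℕ) :=
  [(6, 2389), (6, 2218), (6, 2472), (6, 2217), (6, 2466), (6, 2214), (6, 2442), (6, 2468), (6, 2456), (6, 2465), (6, 2213), (6, 2441), (6, 2201), (6, 2450), (6, 2438), (6, 2198), (6, 2342), (6, 2452), (6, 2392), (6, 2449), (6, 2437)]

/-- operators -/
noncomputable def O4 : List Op :=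
  [T6_2389, T6_2218, T6_2472, T6_2217, T6_2466, T6_2214, T6_2442, T6_2468, T6_2456, T6_2465, T6_2213, T6_2441, T6_2201, T6_2450, T6_2438, T6_2198, T6_2342, T6_2452, T6_2392, T6_2449, T6_2437]

theorem A4 (L : Letters) : List.Forall₂ GoodO K4 O4 := by
  unfold K4 O4
  refine List.Forall₂.cons ⟨g6_2389 L, by decide +kernel⟩ ?_
  refine List.Forall₂.cons ⟨g6_2218 L, by decide +kernel⟩ ?_
  refine List.Forall₂.cons ⟨g6_2472 L, by decide +kernel⟩ ?_
  refine List.Forall₂.cons ⟨g6_2217 L, by decide +kernel⟩ ?_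
  refine List.Forall₂.cons ⟨g6_2466 L, by decide +kernel⟩ ?_
  refine List.Forall₂.cons ⟨g6_2214 L, by decide +kernel⟩ ?_
  refine List.Forall₂.cons ⟨g6_2442 L, by decide +kernel⟩ ?_
  refine List.Forall₂.cons ⟨g6_2468 L, by decide +kernel⟩ ?_
  refine List.Forall₂.cons ⟨g6_2456 L, by decide +kernel⟩ ?_
  refine List.Forall₂.cons ⟨g6_2465 L, by decide +kernel⟩ ?_
  refine List.Forall₂.cons ⟨g6_2213 L, by decide +kernel⟩ ?_
  refine List.Forall₂.cons ⟨g6_2441 L, by decide +kernel⟩ ?_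
  refine List.Forall₂.cons ⟨g6_2201 L, by decide +kernel⟩ ?_
  refine List.Forall₂.cons ⟨g6_2450 L, by decide +kernel⟩ ?_
  refine List.Forall₂.cons ⟨g6_2438 L, by decide +kernel⟩ ?_
  refine List.Forall₂.cons ⟨g6_2198 L, by decide +kernel⟩ ?_
  refine List.Forall₂.cons ⟨g6_2342 L, by decide +kernel⟩ ?_
  refine List.Forall₂.cons ⟨g6_2452 L, by decide +kernel⟩ ?_
  refine List.Forall₂.cons ⟨g6_2392 L, by decide +kernel⟩ ?_
  refine List.Forall₂.cons ⟨g6_2449 L, by decide +kernel⟩ ?_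
  refine List.Forall₂.cons ⟨g6_2437 L, by decide +kernel⟩ ?_
  exact List.Forall₂.nil

/-- codes -/
def K5 : List (ℕ × ℕ) :=
  [(6, 2197), (6, 2341), (6, 2377), (6, 2329), (6, 2386), (6, 2374), (6, 2388), (6, 2385), (6, 2373), (6, 2325), (6, 2133), (6, 1109), (6, 2216), (6, 2210), (6, 2464), (6, 2212), (6, 2440), (6, 2200), (6, 2209), (6, 2185), (6, 2434)]

/-- operators -/
noncomputable def O5 : List Op :=
  [T6_2197, T6_2341, T6_2377, T6_2329, T6_2386, T6_2374, T6_2388, T6_2385, T6_2373, T6_2325, T6_2133, T6_1109, T6_2216, T6_2210, T6_2464, T6_2212, T6_2440, T6_2200, T6_2209, T6_2185, T6_2434]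

theorem A5 (L : Letters) : List.Forall₂ GoodO K5 O5 := by
  unfold K5 O5
  refine List.Forall₂.cons ⟨g6_2197 L, by decide +kernel⟩ ?_
  refine List.Forall₂.cons ⟨g6_2341 L, by decide +kernel⟩ ?_
  refine List.Forall₂.cons ⟨g6_2377 L, by decide +kernel⟩ ?_
  refine List.Forall₂.cons ⟨g6_2329 L, by decide +kernel⟩ ?_
  refine List.Forall₂.cons ⟨g6_2386 L, by decide +kernel⟩ ?_
  refine List.Forall₂.cons ⟨g6_2374 L, by decide +kernel⟩ ?_
  refine List.Forall₂.cons ⟨g6_2388 L, by decide +kernel⟩ ?_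
  refine List.Forall₂.cons ⟨g6_2385 L, by decide +kernel⟩ ?_
  refine List.Forall₂.cons ⟨g6_2373 L, by decide +kernel⟩ ?_
  refine List.Forall₂.cons ⟨g6_2325 L, by decide +kernel⟩ ?_
  refine List.Forall₂.cons ⟨g6_2133 L, by decide +kernel⟩ ?_
  refine List.Forall₂.cons ⟨g6_1109 L, by decide +kernel⟩ ?_
  refine List.Forall₂.cons ⟨g6_2216 L, by decide +kernel⟩ ?_
  refine List.Forall₂.cons ⟨g6_2210 L, by decide +kernel⟩ ?_
  refine List.Forall₂.cons ⟨g6_2464 L, by decide +kernel⟩ ?_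
  refine List.Forall₂.cons ⟨g6_2212 L, by decide +kernel⟩ ?_
  refine List.Forall₂.cons ⟨g6_2440 L, by decide +kernel⟩ ?_
  refine List.Forall₂.cons ⟨g6_2200 L, by decide +kernel⟩ ?_
  refine List.Forall₂.cons ⟨g6_2209 L, by decide +kernel⟩ ?_
  refine List.Forall₂.cons ⟨g6_2185 L, by decide +kernel⟩ ?_
  refine List.Forall₂.cons ⟨g6_2434 L, by decide +kernel⟩ ?_
  exact List.Forall₂.nil

/-- codes -/
def K6 : List (ℕ × ℕ) :=
  [(6, 2194), (6, 2338), (6, 2182), (6, 2448), (6, 2436), (6, 2196), (6, 2340), (6, 2376), (6, 2328), (6, 2433), (6, 2193), (6, 2337), (6, 2181), (6, 2313), (6, 2121), (6, 2370), (6, 2322), (6, 2384), (6, 2372), (6, 2324), (6, 2132)]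

/-- operators -/
noncomputable def O6 : List Op :=
  [T6_2194, T6_2338, T6_2182, T6_2448, T6_2436, T6_2196, T6_2340, T6_2376, T6_2328, T6_2433, T6_2193, T6_2337, T6_2181, T6_2313, T6_2121, T6_2370, T6_2322, T6_2384, T6_2372, T6_2324, T6_2132]

theorem A6 (L : Letters) : List.Forall₂ GoodO K6 O6 := by
  unfold K6 O6
  refine List.Forall₂.cons ⟨g6_2194 L, by decide +kernel⟩ ?_
  refine List.Forall₂.cons ⟨g6_2338 L, by decide +kernel⟩ ?_
  refine List.Forall₂.cons ⟨g6_2182 L, by decide +kernel⟩ ?_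
  refine List.Forall₂.cons ⟨g6_2448 L, by decide +kernel⟩ ?_
  refine List.Forall₂.cons ⟨g6_2436 L, by decide +kernel⟩ ?_
  refine List.Forall₂.cons ⟨g6_2196 L, by decide +kernel⟩ ?_
  refine List.Forall₂.cons ⟨g6_2340 L, by decide +kernel⟩ ?_
  refine List.Forall₂.cons ⟨g6_2376 L, by decide +kernel⟩ ?_
  refine List.Forall₂.cons ⟨g6_2328 L, by decide +kernel⟩ ?_
  refine List.Forall₂.cons ⟨g6_2433 L, by decide +kernel⟩ ?_
  refine List.Forall₂.cons ⟨g6_2193 L, by decide +kernel⟩ ?_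
  refine List.Forall₂.cons ⟨g6_2337 L, by decide +kernel⟩ ?_
  refine List.Forall₂.cons ⟨g6_2181 L, by decide +kernel⟩ ?_
  refine List.Forall₂.cons ⟨g6_2313 L, by decide +kernel⟩ ?_
  refine List.Forall₂.cons ⟨g6_2121 L, by decide +kernel⟩ ?_
  refine List.Forall₂.cons ⟨g6_2370 L, by decide +kernel⟩ ?_
  refine List.Forall₂.cons ⟨g6_2322 L, by decide +kernel⟩ ?_
  refine List.Forall₂.cons ⟨g6_2384 L, by decide +kernel⟩ ?_
  refine List.Forall₂.cons ⟨g6_2372 L, by decide +kernel⟩ ?_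
  refine List.Forall₂.cons ⟨g6_2324 L, by decide +kernel⟩ ?_
  refine List.Forall₂.cons ⟨g6_2132 L, by decide +kernel⟩ ?_
  exact List.Forall₂.nil

/-- codes -/
def K7 : List (ℕ × ℕ) :=
  [(6, 2369), (6, 2321), (6, 2129), (6, 2309), (6, 2117), (6, 2069), (6, 1108), (6, 1105), (6, 2208), (6, 2184), (6, 2178), (6, 2432), (6, 2192), (6, 2336), (6, 2180), (6, 2312), (6, 2120), (6, 2177), (6, 2057), (6, 2306), (6, 2114)]

/-- operators -/
noncomputable def O7 : List Op :=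
  [T6_2369, T6_2321, T6_2129, T6_2309, T6_2117, T6_2069, T6_1108, T6_1105, T6_2208, T6_2184, T6_2178, T6_2432, T6_2192, T6_2336, T6_2180, T6_2312, T6_2120, T6_2177, T6_2057, T6_2306, T6_2114]

theorem A7 (L : Letters) : List.Forall₂ GoodO K7 O7 := by
  unfold K7 O7
  refine List.Forall₂.cons ⟨g6_2369 L, by decide +kernel⟩ ?_
  refine List.Forall₂.cons ⟨g6_2321 L, by decide +kernel⟩ ?_
  refine List.Forall₂.cons ⟨g6_2129 L, by decide +kernel⟩ ?_
  refine List.Forall₂.cons ⟨g6_2309 L, by decide +kernel⟩ ?_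
  refine List.Forall₂.cons ⟨g6_2117 L, by decide +kernel⟩ ?_
  refine List.Forall₂.cons ⟨g6_2069 L, by decide +kernel⟩ ?_
  refine List.Forall₂.cons ⟨g6_1108 L, by decide +kernel⟩ ?_
  refine List.Forall₂.cons ⟨g6_1105 L, by decide +kernel⟩ ?_
  refine List.Forall₂.cons ⟨g6_2208 L, by decide +kernel⟩ ?_
  refine List.Forall₂.cons ⟨g6_2184 L, by decide +kernel⟩ ?_
  refine List.Forall₂.cons ⟨g6_2178 L, by decide +kernel⟩ ?_
  refine List.Forall₂.cons ⟨g6_2432 L, by decide +kernel⟩ ?_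
  refine List.Forall₂.cons ⟨g6_2192 L, by decide +kernel⟩ ?_
  refine List.Forall₂.cons ⟨g6_2336 L, by decide +kernel⟩ ?_
  refine List.Forall₂.cons ⟨g6_2180 L, by decide +kernel⟩ ?_
  refine List.Forall₂.cons ⟨g6_2312 L, by decide +kernel⟩ ?_
  refine List.Forall₂.cons ⟨g6_2120 L, by decide +kernel⟩ ?_
  refine List.Forall₂.cons ⟨g6_2177 L, by decide +kernel⟩ ?_
  refine List.Forall₂.cons ⟨g6_2057 L, by decide +kernel⟩ ?_
  refine List.Forall₂.cons ⟨g6_2306 L, by decide +kernel⟩ ?_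
  refine List.Forall₂.cons ⟨g6_2114 L, by decide +kernel⟩ ?_
  exact List.Forall₂.nil

/-- codes -/
def K8 : List (ℕ × ℕ) :=
  [(6, 2368), (6, 2320), (6, 2128), (6, 2308), (6, 2116), (6, 2068), (6, 2305), (6, 2113), (6, 2065), (6, 2053), (6, 1104), (6, 1092), (6, 1089), (6, 2176), (6, 2056), (6, 2304), (6, 2112), (6, 2064), (6, 2052), (6, 2049), (6, 1088)]

/-- operators -/
noncomputable def O8 : List Op :=
  [T6_2368, T6_2320, T6_2128, T6_2308, T6_2116, T6_2068, T6_2305, T6_2113, T6_2065, T6_2053, T6_1104, T6_1092, T6_1089, T6_2176, T6_2056, T6_2304, T6_2112, T6_2064, T6_2052, T6_2049, T6_1088]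

theorem A8 (L : Letters) : List.Forall₂ GoodO K8 O8 := by
  unfold K8 O8
  refine List.Forall₂.cons ⟨g6_2368 L, by decide +kernel⟩ ?_
  refine List.Forall₂.cons ⟨g6_2320 L, by decide +kernel⟩ ?_
  refine List.Forall₂.cons ⟨g6_2128 L, by decide +kernel⟩ ?_
  refine List.Forall₂.cons ⟨g6_2308 L, by decide +kernel⟩ ?_
  refine List.Forall₂.cons ⟨g6_2116 L, by decide +kernel⟩ ?_
  refine List.Forall₂.cons ⟨g6_2068 L, by decide +kernel⟩ ?_
  refine List.Forall₂.cons ⟨g6_2305 L, by decide +kernel⟩ ?_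
  refine List.Forall₂.cons ⟨g6_2113 L, by decide +kernel⟩ ?_
  refine List.Forall₂.cons ⟨g6_2065 L, by decide +kernel⟩ ?_
  refine List.Forall₂.cons ⟨g6_2053 L, by decide +kernel⟩ ?_
  refine List.Forall₂.cons ⟨g6_1104 L, by decide +kernel⟩ ?_
  refine List.Forall₂.cons ⟨g6_1092 L, by decide +kernel⟩ ?_
  refine List.Forall₂.cons ⟨g6_1089 L, by decide +kernel⟩ ?_
  refine List.Forall₂.cons ⟨g6_2176 L, by decide +kernel⟩ ?_
  refine List.Forall₂.cons ⟨g6_2056 L, by decide +kernel⟩ ?_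
  refine List.Forall₂.cons ⟨g6_2304 L, by decide +kernel⟩ ?_
  refine List.Forall₂.cons ⟨g6_2112 L, by decide +kernel⟩ ?_
  refine List.Forall₂.cons ⟨g6_2064 L, by decide +kernel⟩ ?_
  refine List.Forall₂.cons ⟨g6_2052 L, by decide +kernel⟩ ?_
  refine List.Forall₂.cons ⟨g6_2049 L, by decide +kernel⟩ ?_
  refine List.Forall₂.cons ⟨g6_1088 L, by decide +kernel⟩ ?_
  exact List.Forall₂.nil

/-- codes -/
def K9 : List (ℕ × ℕ) :=
  [(6, 1028), (6, 2048), (6, 1024), (7, 9898), (7, 9897), (7, 9894), (7, 9882), (7, 9893), (7, 9881), (7, 9878), (7, 9830), (7, 9818), (7, 9877), (7, 9829), (7, 9817), (7, 9814), (7, 9574), (7, 9813), (7, 9573), (7, 9558), (7, 9557)]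

/-- operators -/
noncomputable def O9 : List Op :=
  [T6_1028, T6_2048, T6_1024, T7_9898, T7_9897, T7_9894, T7_9882, T7_9893, T7_9881, T7_9878, T7_9830, T7_9818, T7_9877, T7_9829, T7_9817, T7_9814, T7_9574, T7_9813, T7_9573, T7_9558, T7_9557]

theorem A9 (L : Letters) : List.Forall₂ GoodO K9 O9 := by
  unfold K9 O9
  refine List.Forall₂.cons ⟨g6_1028 L, by decide +kernel⟩ ?_
  refine List.Forall₂.cons ⟨g6_2048 L, by decide +kernel⟩ ?_
  refine List.Forall₂.cons ⟨g6_1024 L, by decide +kernel⟩ ?_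
  refine List.Forall₂.cons ⟨g7_9898 L, by decide +kernel⟩ ?_
  refine List.Forall₂.cons ⟨g7_9897 L, by decide +kernel⟩ ?_
  refine List.Forall₂.cons ⟨g7_9894 L, by decide +kernel⟩ ?_
  refine List.Forall₂.cons ⟨g7_9882 L, by decide +kernel⟩ ?_
  refine List.Forall₂.cons ⟨g7_9893 L, by decide +kernel⟩ ?_
  refine List.Forall₂.cons ⟨g7_9881 L, by decide +kernel⟩ ?_
  refine List.Forall₂.cons ⟨g7_9878 L, by decide +kernel⟩ ?_
  refine List.Forall₂.cons ⟨g7_9830 L, by decide +kernel⟩ ?_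
  refine List.Forall₂.cons ⟨g7_9818 L, by decide +kernel⟩ ?_
  refine List.Forall₂.cons ⟨g7_9877 L, by decide +kernel⟩ ?_
  refine List.Forall₂.cons ⟨g7_9829 L, by decide +kernel⟩ ?_
  refine List.Forall₂.cons ⟨g7_9817 L, by decide +kernel⟩ ?_
  refine List.Forall₂.cons ⟨g7_9814 L, by decide +kernel⟩ ?_
  refine List.Forall₂.cons ⟨g7_9574 L, by decide +kernel⟩ ?_
  refine List.Forall₂.cons ⟨g7_9813 L, by decide +kernel⟩ ?_
  refine List.Forall₂.cons ⟨g7_9573 L, by decide +kernel⟩ ?_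
  refine List.Forall₂.cons ⟨g7_9558 L, by decide +kernel⟩ ?_
  refine List.Forall₂.cons ⟨g7_9557 L, by decide +kernel⟩ ?_
  exact List.Forall₂.nil

/-- codes -/
def K10 : List (ℕ × ℕ) :=
  [(7, 8874), (7, 9896), (7, 8873), (7, 9890), (7, 8870), (7, 9866), (7, 8858), (7, 9892), (7, 9880), (7, 9889), (7, 8869), (7, 9865), (7, 8857), (7, 9769), (7, 9874), (7, 9826), (7, 9862), (7, 8854), (7, 9766), (7, 8806), (7, 9802)]

/-- operators -/
noncomputable def O10 : List Op :=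
  [T7_8874, T7_9896, T7_8873, T7_9890, T7_8870, T7_9866, T7_8858, T7_9892, T7_9880, T7_9889, T7_8869, T7_9865, T7_8857, T7_9769, T7_9874, T7_9826, T7_9862, T7_8854, T7_9766, T7_8806, T7_9802]

theorem A10 (L : Letters) : List.Forall₂ GoodO K10 O10 := by
  unfold K10 O10
  refine List.Forall₂.cons ⟨g7_8874 L, by decide +kernel⟩ ?_
  refine List.Forall₂.cons ⟨g7_9896 L, by decide +kernel⟩ ?_
  refine List.Forall₂.cons ⟨g7_8873 L, by decide +kernel⟩ ?_
  refine List.Forall₂.cons ⟨g7_9890 L, by decide +kernel⟩ ?_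
  refine List.Forall₂.cons ⟨g7_8870 L, by decide +kernel⟩ ?_
  refine List.Forall₂.cons ⟨g7_9866 L, by decide +kernel⟩ ?_
  refine List.Forall₂.cons ⟨g7_8858 L, by decide +kernel⟩ ?_
  refine List.Forall₂.cons ⟨g7_9892 L, by decide +kernel⟩ ?_
  refine List.Forall₂.cons ⟨g7_9880 L, by decide +kernel⟩ ?_
  refine List.Forall₂.cons ⟨g7_9889 L, by decide +kernel⟩ ?_
  refine List.Forall₂.cons ⟨g7_8869 L, by decide +kernel⟩ ?_
  refine List.Forall₂.cons ⟨g7_9865 L, by decide +kernel⟩ ?_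
  refine List.Forall₂.cons ⟨g7_8857 L, by decide +kernel⟩ ?_
  refine List.Forall₂.cons ⟨g7_9769 L, by decide +kernel⟩ ?_
  refine List.Forall₂.cons ⟨g7_9874 L, by decide +kernel⟩ ?_
  refine List.Forall₂.cons ⟨g7_9826 L, by decide +kernel⟩ ?_
  refine List.Forall₂.cons ⟨g7_9862 L, by decide +kernel⟩ ?_
  refine List.Forall₂.cons ⟨g7_8854 L, by decide +kernel⟩ ?_
  refine List.Forall₂.cons ⟨g7_9766 L, by decide +kernel⟩ ?_
  refine List.Forall₂.cons ⟨g7_8806 L, by decide +kernel⟩ ?_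
  refine List.Forall₂.cons ⟨g7_9802 L, by decide +kernel⟩ ?_
  exact List.Forall₂.nil

/-- codes -/
def K11 : List (ℕ × ℕ) :=
  [(7, 9754), (7, 9876), (7, 9828), (7, 9816), (7, 9873), (7, 9825), (7, 9861), (7, 8853), (7, 9765), (7, 8805), (7, 9801), (7, 9753), (7, 8793), (7, 9369), (7, 9810), (7, 9570), (7, 9798), (7, 9750), (7, 8790), (7, 9366), (7, 9318)]

/-- operators -/
noncomputable def O11 : List Op :=
  [T7_9754, T7_9876, T7_9828, T7_9816, T7_9873, T7_9825, T7_9861, T7_8853, T7_9765, T7_8805, T7_9801, T7_9753, T7_8793, T7_9369, T7_9810, T7_9570, T7_9798, T7_9750, T7_8790, T7_9366, T7_9318]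

theorem A11 (L : Letters) : List.Forall₂ GoodO K11 O11 := by
  unfold K11 O11
  refine List.Forall₂.cons ⟨g7_9754 L, by decide +kernel⟩ ?_
  refine List.Forall₂.cons ⟨g7_9876 L, by decide +kernel⟩ ?_
  refine List.Forall₂.cons ⟨g7_9828 L, by decide +kernel⟩ ?_
  refine List.Forall₂.cons ⟨g7_9816 L, by decide +kernel⟩ ?_
  refine List.Forall₂.cons ⟨g7_9873 L, by decide +kernel⟩ ?_
  refine List.Forall₂.cons ⟨g7_9825 L, by decide +kernel⟩ ?_
  refine List.Forall₂.cons ⟨g7_9861 L, by decide +kernel⟩ ?_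
  refine List.Forall₂.cons ⟨g7_8853 L, by decide +kernel⟩ ?_
  refine List.Forall₂.cons ⟨g7_9765 L, by decide +kernel⟩ ?_
  refine List.Forall₂.cons ⟨g7_8805 L, by decide +kernel⟩ ?_
  refine List.Forall₂.cons ⟨g7_9801 L, by decide +kernel⟩ ?_
  refine List.Forall₂.cons ⟨g7_9753 L, by decide +kernel⟩ ?_
  refine List.Forall₂.cons ⟨g7_8793 L, by decide +kernel⟩ ?_
  refine List.Forall₂.cons ⟨g7_9369 L, by decide +kernel⟩ ?_
  refine List.Forall₂.cons ⟨g7_9810 L, by decide +kernel⟩ ?_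
  refine List.Forall₂.cons ⟨g7_9570 L, by decide +kernel⟩ ?_
  refine List.Forall₂.cons ⟨g7_9798 L, by decide +kernel⟩ ?_
  refine List.Forall₂.cons ⟨g7_9750 L, by decide +kernel⟩ ?_
  refine List.Forall₂.cons ⟨g7_8790 L, by decide +kernel⟩ ?_
  refine List.Forall₂.cons ⟨g7_9366 L, by decide +kernel⟩ ?_
  refine List.Forall₂.cons ⟨g7_9318 L, by decide +kernel⟩ ?_
  exact List.Forall₂.nil

/-- codes -/
def K12 : List (ℕ × ℕ) :=
  [(7, 9812), (7, 9572), (7, 9809), (7, 9569), (7, 9797), (7, 9749), (7, 8789), (7, 9365), (7, 9509), (7, 9317), (7, 9545), (7, 9497), (7, 9554), (7, 9542), (7, 9494), (7, 9556), (7, 9553), (7, 9541), (7, 9493), (7, 9301), (7, 8533)]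

/-- operators -/
noncomputable def O12 : List Op :=
  [T7_9812, T7_9572, T7_9809, T7_9569, T7_9797, T7_9749, T7_8789, T7_9365, T7_9509, T7_9317, T7_9545, T7_9497, T7_9554, T7_9542, T7_9494, T7_9556, T7_9553, T7_9541, T7_9493, T7_9301, T7_8533]

theorem A12 (L : Letters) : List.Forall₂ GoodO K12 O12 := by
  unfold K12 O12
  refine List.Forall₂.cons ⟨g7_9812 L, by decide +kernel⟩ ?_
  refine List.Forall₂.cons ⟨g7_9572 L, by decide +kernel⟩ ?_
  refine List.Forall₂.cons ⟨g7_9809 L, by decide +kernel⟩ ?_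
  refine List.Forall₂.cons ⟨g7_9569 L, by decide +kernel⟩ ?_
  refine List.Forall₂.cons ⟨g7_9797 L, by decide +kernel⟩ ?_
  refine List.Forall₂.cons ⟨g7_9749 L, by decide +kernel⟩ ?_
  refine List.Forall₂.cons ⟨g7_8789 L, by decide +kernel⟩ ?_
  refine List.Forall₂.cons ⟨g7_9365 L, by decide +kernel⟩ ?_
  refine List.Forall₂.cons ⟨g7_9509 L, by decide +kernel⟩ ?_
  refine List.Forall₂.cons ⟨g7_9317 L, by decide +kernel⟩ ?_
  refine List.Forall₂.cons ⟨g7_9545 L, by decide +kernel⟩ ?_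
  refine List.Forall₂.cons ⟨g7_9497 L, by decide +kernel⟩ ?_
  refine List.Forall₂.cons ⟨g7_9554 L, by decide +kernel⟩ ?_
  refine List.Forall₂.cons ⟨g7_9542 L, by decide +kernel⟩ ?_
  refine List.Forall₂.cons ⟨g7_9494 L, by decide +kernel⟩ ?_
  refine List.Forall₂.cons ⟨g7_9556 L, by decide +kernel⟩ ?_
  refine List.Forall₂.cons ⟨g7_9553 L, by decide +kernel⟩ ?_
  refine List.Forall₂.cons ⟨g7_9541 L, by decide +kernel⟩ ?_
  refine List.Forall₂.cons ⟨g7_9493 L, by decide +kernel⟩ ?_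
  refine List.Forall₂.cons ⟨g7_9301 L, by decide +kernel⟩ ?_
  refine List.Forall₂.cons ⟨g7_8533 L, by decide +kernel⟩ ?_
  exact List.Forall₂.nil

/-- codes -/
def K13 : List (ℕ × ℕ) :=
  [(7, 4437), (7, 8872), (7, 8866), (7, 8842), (7, 9888), (7, 8868), (7, 9864), (7, 8856), (7, 9768), (7, 8865), (7, 8841), (7, 9858), (7, 8850), (7, 9762), (7, 8802), (7, 8838), (7, 8742), (7, 9738), (7, 8778), (7, 9872), (7, 9824)]

/-- operators -/
noncomputable def O13 : List Op :=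
  [T7_4437, T7_8872, T7_8866, T7_8842, T7_9888, T7_8868, T7_9864, T7_8856, T7_9768, T7_8865, T7_8841, T7_9858, T7_8850, T7_9762, T7_8802, T7_8838, T7_8742, T7_9738, T7_8778, T7_9872, T7_9824]

theorem A13 (L : Letters) : List.Forall₂ GoodO K13 O13 := by
  unfold K13 O13
  refine List.Forall₂.cons ⟨g7_4437 L, by decide +kernel⟩ ?_
  refine List.Forall₂.cons ⟨g7_8872 L, by decide +kernel⟩ ?_
  refine List.Forall₂.cons ⟨g7_8866 L, by decide +kernel⟩ ?_
  refine List.Forall₂.cons ⟨g7_8842 L, by decide +kernel⟩ ?_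
  refine List.Forall₂.cons ⟨g7_9888 L, by decide +kernel⟩ ?_
  refine List.Forall₂.cons ⟨g7_8868 L, by decide +kernel⟩ ?_
  refine List.Forall₂.cons ⟨g7_9864 L, by decide +kernel⟩ ?_
  refine List.Forall₂.cons ⟨g7_8856 L, by decide +kernel⟩ ?_
  refine List.Forall₂.cons ⟨g7_9768 L, by decide +kernel⟩ ?_
  refine List.Forall₂.cons ⟨g7_8865 L, by decide +kernel⟩ ?_
  refine List.Forall₂.cons ⟨g7_8841 L, by decide +kernel⟩ ?_
  refine List.Forall₂.cons ⟨g7_9858 L, by decide +kernel⟩ ?_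
  refine List.Forall₂.cons ⟨g7_8850 L, by decide +kernel⟩ ?_
  refine List.Forall₂.cons ⟨g7_9762 L, by decide +kernel⟩ ?_
  refine List.Forall₂.cons ⟨g7_8802 L, by decide +kernel⟩ ?_
  refine List.Forall₂.cons ⟨g7_8838 L, by decide +kernel⟩ ?_
  refine List.Forall₂.cons ⟨g7_8742 L, by decide +kernel⟩ ?_
  refine List.Forall₂.cons ⟨g7_9738 L, by decide +kernel⟩ ?_
  refine List.Forall₂.cons ⟨g7_8778 L, by decide +kernel⟩ ?_
  refine List.Forall₂.cons ⟨g7_9872 L, by decide +kernel⟩ ?_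
  refine List.Forall₂.cons ⟨g7_9824 L, by decide +kernel⟩ ?_
  exact List.Forall₂.nil

/-- codes -/
def K14 : List (ℕ × ℕ) :=
  [(7, 9860), (7, 8852), (7, 9764), (7, 8804), (7, 9800), (7, 9752), (7, 8792), (7, 9368), (7, 9857), (7, 8849), (7, 9761), (7, 8801), (7, 8837), (7, 8741), (7, 9737), (7, 8777), (7, 9353), (7, 8729), (7, 9794), (7, 9746), (7, 8786)]

/-- operators -/
noncomputable def O14 : List Op :=
  [T7_9860, T7_8852, T7_9764, T7_8804, T7_9800, T7_9752, T7_8792, T7_9368, T7_9857, T7_8849, T7_9761, T7_8801, T7_8837, T7_8741, T7_9737, T7_8777, T7_9353, T7_8729, T7_9794, T7_9746, T7_8786]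

theorem A14 (L : Letters) : List.Forall₂ GoodO K14 O14 := by
  unfold K14 O14
  refine List.Forall₂.cons ⟨g7_9860 L, by decide +kernel⟩ ?_
  refine List.Forall₂.cons ⟨g7_8852 L, by decide +kernel⟩ ?_
  refine List.Forall₂.cons ⟨g7_9764 L, by decide +kernel⟩ ?_
  refine List.Forall₂.cons ⟨g7_8804 L, by decide +kernel⟩ ?_
  refine List.Forall₂.cons ⟨g7_9800 L, by decide +kernel⟩ ?_
  refine List.Forall₂.cons ⟨g7_9752 L, by decide +kernel⟩ ?_
  refine List.Forall₂.cons ⟨g7_8792 L, by decide +kernel⟩ ?_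
  refine List.Forall₂.cons ⟨g7_9368 L, by decide +kernel⟩ ?_
  refine List.Forall₂.cons ⟨g7_9857 L, by decide +kernel⟩ ?_
  refine List.Forall₂.cons ⟨g7_8849 L, by decide +kernel⟩ ?_
  refine List.Forall₂.cons ⟨g7_9761 L, by decide +kernel⟩ ?_
  refine List.Forall₂.cons ⟨g7_8801 L, by decide +kernel⟩ ?_
  refine List.Forall₂.cons ⟨g7_8837 L, by decide +kernel⟩ ?_
  refine List.Forall₂.cons ⟨g7_8741 L, by decide +kernel⟩ ?_
  refine List.Forall₂.cons ⟨g7_9737 L, by decide +kernel⟩ ?_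
  refine List.Forall₂.cons ⟨g7_8777 L, by decide +kernel⟩ ?_
  refine List.Forall₂.cons ⟨g7_9353 L, by decide +kernel⟩ ?_
  refine List.Forall₂.cons ⟨g7_8729 L, by decide +kernel⟩ ?_
  refine List.Forall₂.cons ⟨g7_9794 L, by decide +kernel⟩ ?_
  refine List.Forall₂.cons ⟨g7_9746 L, by decide +kernel⟩ ?_
  refine List.Forall₂.cons ⟨g7_8786 L, by decide +kernel⟩ ?_
  exact List.Forall₂.nil

/-- codes -/
def K15 : List (ℕ × ℕ) :=
  [(7, 9362), (7, 9506), (7, 9314), (7, 9734), (7, 8774), (7, 9350), (7, 8726), (7, 9808), (7, 9568), (7, 9796), (7, 9748), (7, 8788), (7, 9364), (7, 9508), (7, 9316), (7, 9544), (7, 9496), (7, 9793), (7, 9745), (7, 8785), (7, 9361)]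

/-- operators -/
noncomputable def O15 : List Op :=
  [T7_9362, T7_9506, T7_9314, T7_9734, T7_8774, T7_9350, T7_8726, T7_9808, T7_9568, T7_9796, T7_9748, T7_8788, T7_9364, T7_9508, T7_9316, T7_9544, T7_9496, T7_9793, T7_9745, T7_8785, T7_9361]

theorem A15 (L : Letters) : List.Forall₂ GoodO K15 O15 := by
  unfold K15 O15
  refine List.Forall₂.cons ⟨g7_9362 L, by decide +kernel⟩ ?_
  refine List.Forall₂.cons ⟨g7_9506 L, by decide +kernel⟩ ?_
  refine List.Forall₂.cons ⟨g7_9314 L, by decide +kernel⟩ ?_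
  refine List.Forall₂.cons ⟨g7_9734 L, by decide +kernel⟩ ?_
  refine List.Forall₂.cons ⟨g7_8774 L, by decide +kernel⟩ ?_
  refine List.Forall₂.cons ⟨g7_9350 L, by decide +kernel⟩ ?_
  refine List.Forall₂.cons ⟨g7_8726 L, by decide +kernel⟩ ?_
  refine List.Forall₂.cons ⟨g7_9808 L, by decide +kernel⟩ ?_
  refine List.Forall₂.cons ⟨g7_9568 L, by decide +kernel⟩ ?_
  refine List.Forall₂.cons ⟨g7_9796 L, by decide +kernel⟩ ?_
  refine List.Forall₂.cons ⟨g7_9748 L, by decide +kernel⟩ ?_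
  refine List.Forall₂.cons ⟨g7_8788 L, by decide +kernel⟩ ?_
  refine List.Forall₂.cons ⟨g7_9364 L, by decide +kernel⟩ ?_
  refine List.Forall₂.cons ⟨g7_9508 L, by decide +kernel⟩ ?_
  refine List.Forall₂.cons ⟨g7_9316 L, by decide +kernel⟩ ?_
  refine List.Forall₂.cons ⟨g7_9544 L, by decide +kernel⟩ ?_
  refine List.Forall₂.cons ⟨g7_9496 L, by decide +kernel⟩ ?_
  refine List.Forall₂.cons ⟨g7_9793 L, by decide +kernel⟩ ?_
  refine List.Forall₂.cons ⟨g7_9745 L, by decide +kernel⟩ ?_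
  refine List.Forall₂.cons ⟨g7_8785 L, by decide +kernel⟩ ?_
  refine List.Forall₂.cons ⟨g7_9361 L, by decide +kernel⟩ ?_
  exact List.Forall₂.nil

/-- codes -/
def K16 : List (ℕ × ℕ) :=
  [(7, 9505), (7, 9313), (7, 9733), (7, 8773), (7, 9349), (7, 8725), (7, 9253), (7, 8485), (7, 9481), (7, 9289), (7, 9538), (7, 9490), (7, 9298), (7, 8530), (7, 9478), (7, 9286), (7, 9552), (7, 9540), (7, 9492), (7, 9300), (7, 8532)]

/-- operators -/
noncomputable def O16 : List Op :=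
  [T7_9505, T7_9313, T7_9733, T7_8773, T7_9349, T7_8725, T7_9253, T7_8485, T7_9481, T7_9289, T7_9538, T7_9490, T7_9298, T7_8530, T7_9478, T7_9286, T7_9552, T7_9540, T7_9492, T7_9300, T7_8532]

theorem A16 (L : Letters) : List.Forall₂ GoodO K16 O16 := by
  unfold K16 O16
  refine List.Forall₂.cons ⟨g7_9505 L, by decide +kernel⟩ ?_
  refine List.Forall₂.cons ⟨g7_9313 L, by decide +kernel⟩ ?_
  refine List.Forall₂.cons ⟨g7_9733 L, by decide +kernel⟩ ?_
  refine List.Forall₂.cons ⟨g7_8773 L, by decide +kernel⟩ ?_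
  refine List.Forall₂.cons ⟨g7_9349 L, by decide +kernel⟩ ?_
  refine List.Forall₂.cons ⟨g7_8725 L, by decide +kernel⟩ ?_
  refine List.Forall₂.cons ⟨g7_9253 L, by decide +kernel⟩ ?_
  refine List.Forall₂.cons ⟨g7_8485 L, by decide +kernel⟩ ?_
  refine List.Forall₂.cons ⟨g7_9481 L, by decide +kernel⟩ ?_
  refine List.Forall₂.cons ⟨g7_9289 L, by decide +kernel⟩ ?_
  refine List.Forall₂.cons ⟨g7_9538 L, by decide +kernel⟩ ?_
  refine List.Forall₂.cons ⟨g7_9490 L, by decide +kernel⟩ ?_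
  refine List.Forall₂.cons ⟨g7_9298 L, by decide +kernel⟩ ?_
  refine List.Forall₂.cons ⟨g7_8530 L, by decide +kernel⟩ ?_
  refine List.Forall₂.cons ⟨g7_9478 L, by decide +kernel⟩ ?_
  refine List.Forall₂.cons ⟨g7_9286 L, by decide +kernel⟩ ?_
  refine List.Forall₂.cons ⟨g7_9552 L, by decide +kernel⟩ ?_
  refine List.Forall₂.cons ⟨g7_9540 L, by decide +kernel⟩ ?_
  refine List.Forall₂.cons ⟨g7_9492 L, by decide +kernel⟩ ?_
  refine List.Forall₂.cons ⟨g7_9300 L, by decide +kernel⟩ ?_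
  refine List.Forall₂.cons ⟨g7_8532 L, by decide +kernel⟩ ?_
  exact List.Forall₂.nil

/-- codes -/
def K17 : List (ℕ × ℕ) :=
  [(7, 9537), (7, 9489), (7, 9297), (7, 8529), (7, 9477), (7, 9285), (7, 8517), (7, 9237), (7, 8469), (7, 8277), (7, 4436), (7, 4433), (7, 4421), (7, 8864), (7, 8840), (7, 8834), (7, 8738), (7, 8714), (7, 9856), (7, 8848), (7, 9760)]

/-- operators -/
noncomputable def O17 : List Op :=
  [T7_9537, T7_9489, T7_9297, T7_8529, T7_9477, T7_9285, T7_8517, T7_9237, T7_8469, T7_8277, T7_4436, T7_4433, T7_4421, T7_8864, T7_8840, T7_8834, T7_8738, T7_8714, T7_9856, T7_8848, T7_9760]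

theorem A17 (L : Letters) : List.Forall₂ GoodO K17 O17 := by
  unfold K17 O17
  refine List.Forall₂.cons ⟨g7_9537 L, by decide +kernel⟩ ?_
  refine List.Forall₂.cons ⟨g7_9489 L, by decide +kernel⟩ ?_
  refine List.Forall₂.cons ⟨g7_9297 L, by decide +kernel⟩ ?_
  refine List.Forall₂.cons ⟨g7_8529 L, by decide +kernel⟩ ?_
  refine List.Forall₂.cons ⟨g7_9477 L, by decide +kernel⟩ ?_
  refine List.Forall₂.cons ⟨g7_9285 L, by decide +kernel⟩ ?_
  refine List.Forall₂.cons ⟨g7_8517 L, by decide +kernel⟩ ?_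
  refine List.Forall₂.cons ⟨g7_9237 L, by decide +kernel⟩ ?_
  refine List.Forall₂.cons ⟨g7_8469 L, by decide +kernel⟩ ?_
  refine List.Forall₂.cons ⟨g7_8277 L, by decide +kernel⟩ ?_
  refine List.Forall₂.cons ⟨g7_4436 L, by decide +kernel⟩ ?_
  refine List.Forall₂.cons ⟨g7_4433 L, by decide +kernel⟩ ?_
  refine List.Forall₂.cons ⟨g7_4421 L, by decide +kernel⟩ ?_
  refine List.Forall₂.cons ⟨g7_8864 L, by decide +kernel⟩ ?_
  refine List.Forall₂.cons ⟨g7_8840 L, by decide +kernel⟩ ?_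
  refine List.Forall₂.cons ⟨g7_8834 L, by decide +kernel⟩ ?_
  refine List.Forall₂.cons ⟨g7_8738 L, by decide +kernel⟩ ?_
  refine List.Forall₂.cons ⟨g7_8714 L, by decide +kernel⟩ ?_
  refine List.Forall₂.cons ⟨g7_9856 L, by decide +kernel⟩ ?_
  refine List.Forall₂.cons ⟨g7_8848 L, by decide +kernel⟩ ?_
  refine List.Forall₂.cons ⟨g7_9760 L, by decide +kernel⟩ ?_
  exact List.Forall₂.nil

/-- codes -/
def K18 : List (ℕ × ℕ) :=
  [(7, 8800), (7, 8836), (7, 8740), (7, 9736), (7, 8776), (7, 9352), (7, 8728), (7, 8833), (7, 8737), (7, 8713), (7, 9730), (7, 8770), (7, 9346), (7, 8722), (7, 9250), (7, 8482), (7, 8710), (7, 9792), (7, 9744), (7, 8784), (7, 9360)]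

/-- operators -/
noncomputable def O18 : List Op :=
  [T7_8800, T7_8836, T7_8740, T7_9736, T7_8776, T7_9352, T7_8728, T7_8833, T7_8737, T7_8713, T7_9730, T7_8770, T7_9346, T7_8722, T7_9250, T7_8482, T7_8710, T7_9792, T7_9744, T7_8784, T7_9360]

theorem A18 (L : Letters) : List.Forall₂ GoodO K18 O18 := by
  unfold K18 O18
  refine List.Forall₂.cons ⟨g7_8800 L, by decide +kernel⟩ ?_
  refine List.Forall₂.cons ⟨g7_8836 L, by decide +kernel⟩ ?_
  refine List.Forall₂.cons ⟨g7_8740 L, by decide +kernel⟩ ?_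
  refine List.Forall₂.cons ⟨g7_9736 L, by decide +kernel⟩ ?_
  refine List.Forall₂.cons ⟨g7_8776 L, by decide +kernel⟩ ?_
  refine List.Forall₂.cons ⟨g7_9352 L, by decide +kernel⟩ ?_
  refine List.Forall₂.cons ⟨g7_8728 L, by decide +kernel⟩ ?_
  refine List.Forall₂.cons ⟨g7_8833 L, by decide +kernel⟩ ?_
  refine List.Forall₂.cons ⟨g7_8737 L, by decide +kernel⟩ ?_
  refine List.Forall₂.cons ⟨g7_8713 L, by decide +kernel⟩ ?_
  refine List.Forall₂.cons ⟨g7_9730 L, by decide +kernel⟩ ?_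
  refine List.Forall₂.cons ⟨g7_8770 L, by decide +kernel⟩ ?_
  refine List.Forall₂.cons ⟨g7_9346 L, by decide +kernel⟩ ?_
  refine List.Forall₂.cons ⟨g7_8722 L, by decide +kernel⟩ ?_
  refine List.Forall₂.cons ⟨g7_9250 L, by decide +kernel⟩ ?_
  refine List.Forall₂.cons ⟨g7_8482 L, by decide +kernel⟩ ?_
  refine List.Forall₂.cons ⟨g7_8710 L, by decide +kernel⟩ ?_
  refine List.Forall₂.cons ⟨g7_9792 L, by decide +kernel⟩ ?_
  refine List.Forall₂.cons ⟨g7_9744 L, by decide +kernel⟩ ?_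
  refine List.Forall₂.cons ⟨g7_8784 L, by decide +kernel⟩ ?_
  refine List.Forall₂.cons ⟨g7_9360 L, by decide +kernel⟩ ?_
  exact List.Forall₂.nil

/-- codes -/
def K19 : List (ℕ × ℕ) :=
  [(7, 9504), (7, 9312), (7, 9732), (7, 8772), (7, 9348), (7, 8724), (7, 9252), (7, 8484), (7, 9480), (7, 9288), (7, 9729), (7, 8769), (7, 9345), (7, 8721), (7, 9249), (7, 8481), (7, 8709), (7, 8229), (7, 9225), (7, 8457), (7, 9474)]

/-- operators -/
noncomputable def O19 : List Op :=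
  [T7_9504, T7_9312, T7_9732, T7_8772, T7_9348, T7_8724, T7_9252, T7_8484, T7_9480, T7_9288, T7_9729, T7_8769, T7_9345, T7_8721, T7_9249, T7_8481, T7_8709, T7_8229, T7_9225, T7_8457, T7_9474]

theorem A19 (L : Letters) : List.Forall₂ GoodO K19 O19 := by
  unfold K19 O19
  refine List.Forall₂.cons ⟨g7_9504 L, by decide +kernel⟩ ?_
  refine List.Forall₂.cons ⟨g7_9312 L, by decide +kernel⟩ ?_
  refine List.Forall₂.cons ⟨g7_9732 L, by decide +kernel⟩ ?_
  refine List.Forall₂.cons ⟨g7_8772 L, by decide +kernel⟩ ?_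
  refine List.Forall₂.cons ⟨g7_9348 L, by decide +kernel⟩ ?_
  refine List.Forall₂.cons ⟨g7_8724 L, by decide +kernel⟩ ?_
  refine List.Forall₂.cons ⟨g7_9252 L, by decide +kernel⟩ ?_
  refine List.Forall₂.cons ⟨g7_8484 L, by decide +kernel⟩ ?_
  refine List.Forall₂.cons ⟨g7_9480 L, by decide +kernel⟩ ?_
  refine List.Forall₂.cons ⟨g7_9288 L, by decide +kernel⟩ ?_
  refine List.Forall₂.cons ⟨g7_9729 L, by decide +kernel⟩ ?_
  refine List.Forall₂.cons ⟨g7_8769 L, by decide +kernel⟩ ?_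
  refine List.Forall₂.cons ⟨g7_9345 L, by decide +kernel⟩ ?_
  refine List.Forall₂.cons ⟨g7_8721 L, by decide +kernel⟩ ?_
  refine List.Forall₂.cons ⟨g7_9249 L, by decide +kernel⟩ ?_
  refine List.Forall₂.cons ⟨g7_8481 L, by decide +kernel⟩ ?_
  refine List.Forall₂.cons ⟨g7_8709 L, by decide +kernel⟩ ?_
  refine List.Forall₂.cons ⟨g7_8229 L, by decide +kernel⟩ ?_
  refine List.Forall₂.cons ⟨g7_9225 L, by decide +kernel⟩ ?_
  refine List.Forall₂.cons ⟨g7_8457 L, by decide +kernel⟩ ?_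
  refine List.Forall₂.cons ⟨g7_9474 L, by decide +kernel⟩ ?_
  exact List.Forall₂.nil

/-- codes -/
def K20 : List (ℕ × ℕ) :=
  [(7, 9282), (7, 8514), (7, 9234), (7, 8466), (7, 9222), (7, 9536), (7, 9488), (7, 9296), (7, 8528), (7, 9476), (7, 9284), (7, 8516), (7, 9236), (7, 8468), (7, 8276), (7, 9473), (7, 9281), (7, 8513), (7, 9233), (7, 8465), (7, 8273)]

/-- operators -/
noncomputable def O20 : List Op :=
  [T7_9282, T7_8514, T7_9234, T7_8466, T7_9222, T7_9536, T7_9488, T7_9296, T7_8528, T7_9476, T7_9284, T7_8516, T7_9236, T7_8468, T7_8276, T7_9473, T7_9281, T7_8513, T7_9233, T7_8465, T7_8273]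

theorem A20 (L : Letters) : List.Forall₂ GoodO K20 O20 := by
  unfold K20 O20
  refine List.Forall₂.cons ⟨g7_9282 L, by decide +kernel⟩ ?_
  refine List.Forall₂.cons ⟨g7_8514 L, by decide +kernel⟩ ?_
  refine List.Forall₂.cons ⟨g7_9234 L, by decide +kernel⟩ ?_
  refine List.Forall₂.cons ⟨g7_8466 L, by decide +kernel⟩ ?_
  refine List.Forall₂.cons ⟨g7_9222 L, by decide +kernel⟩ ?_
  refine List.Forall₂.cons ⟨g7_9536 L, by decide +kernel⟩ ?_
  refine List.Forall₂.cons ⟨g7_9488 L, by decide +kernel⟩ ?_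
  refine List.Forall₂.cons ⟨g7_9296 L, by decide +kernel⟩ ?_
  refine List.Forall₂.cons ⟨g7_8528 L, by decide +kernel⟩ ?_
  refine List.Forall₂.cons ⟨g7_9476 L, by decide +kernel⟩ ?_
  refine List.Forall₂.cons ⟨g7_9284 L, by decide +kernel⟩ ?_
  refine List.Forall₂.cons ⟨g7_8516 L, by decide +kernel⟩ ?_
  refine List.Forall₂.cons ⟨g7_9236 L, by decide +kernel⟩ ?_
  refine List.Forall₂.cons ⟨g7_8468 L, by decide +kernel⟩ ?_
  refine List.Forall₂.cons ⟨g7_8276 L, by decide +kernel⟩ ?_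
  refine List.Forall₂.cons ⟨g7_9473 L, by decide +kernel⟩ ?_
  refine List.Forall₂.cons ⟨g7_9281 L, by decide +kernel⟩ ?_
  refine List.Forall₂.cons ⟨g7_8513 L, by decide +kernel⟩ ?_
  refine List.Forall₂.cons ⟨g7_9233 L, by decide +kernel⟩ ?_
  refine List.Forall₂.cons ⟨g7_8465 L, by decide +kernel⟩ ?_
  refine List.Forall₂.cons ⟨g7_8273 L, by decide +kernel⟩ ?_
  exact List.Forall₂.nil

/-- codes -/
def K21 : List (ℕ × ℕ) :=
  [(7, 9221), (7, 8453), (7, 8261), (7, 8213), (7, 4432), (7, 4420), (7, 4417), (7, 4369), (7, 4357), (7, 8832), (7, 8736), (7, 8712), (7, 8706), (7, 8226), (7, 9728), (7, 8768), (7, 9344), (7, 8720), (7, 9248), (7, 8480), (7, 8708)]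

/-- operators -/
noncomputable def O21 : List Op :=
  [T7_9221, T7_8453, T7_8261, T7_8213, T7_4432, T7_4420, T7_4417, T7_4369, T7_4357, T7_8832, T7_8736, T7_8712, T7_8706, T7_8226, T7_9728, T7_8768, T7_9344, T7_8720, T7_9248, T7_8480, T7_8708]

theorem A21 (L : Letters) : List.Forall₂ GoodO K21 O21 := by
  unfold K21 O21
  refine List.Forall₂.cons ⟨g7_9221 L, by decide +kernel⟩ ?_
  refine List.Forall₂.cons ⟨g7_8453 L, by decide +kernel⟩ ?_
  refine List.Forall₂.cons ⟨g7_8261 L, by decide +kernel⟩ ?_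
  refine List.Forall₂.cons ⟨g7_8213 L, by decide +kernel⟩ ?_
  refine List.Forall₂.cons ⟨g7_4432 L, by decide +kernel⟩ ?_
  refine List.Forall₂.cons ⟨g7_4420 L, by decide +kernel⟩ ?_
  refine List.Forall₂.cons ⟨g7_4417 L, by decide +kernel⟩ ?_
  refine List.Forall₂.cons ⟨g7_4369 L, by decide +kernel⟩ ?_
  refine List.Forall₂.cons ⟨g7_4357 L, by decide +kernel⟩ ?_
  refine List.Forall₂.cons ⟨g7_8832 L, by decide +kernel⟩ ?_
  refine List.Forall₂.cons ⟨g7_8736 L, by decide +kernel⟩ ?_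
  refine List.Forall₂.cons ⟨g7_8712 L, by decide +kernel⟩ ?_
  refine List.Forall₂.cons ⟨g7_8706 L, by decide +kernel⟩ ?_
  refine List.Forall₂.cons ⟨g7_8226 L, by decide +kernel⟩ ?_
  refine List.Forall₂.cons ⟨g7_9728 L, by decide +kernel⟩ ?_
  refine List.Forall₂.cons ⟨g7_8768 L, by decide +kernel⟩ ?_
  refine List.Forall₂.cons ⟨g7_9344 L, by decide +kernel⟩ ?_
  refine List.Forall₂.cons ⟨g7_8720 L, by decide +kernel⟩ ?_
  refine List.Forall₂.cons ⟨g7_9248 L, by decide +kernel⟩ ?_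
  refine List.Forall₂.cons ⟨g7_8480 L, by decide +kernel⟩ ?_
  refine List.Forall₂.cons ⟨g7_8708 L, by decide +kernel⟩ ?_
  exact List.Forall₂.nil

/-- codes -/
def K22 : List (ℕ × ℕ) :=
  [(7, 8228), (7, 9224), (7, 8456), (7, 8705), (7, 8225), (7, 9218), (7, 8450), (7, 8258), (7, 9472), (7, 9280), (7, 8512), (7, 9232), (7, 8464), (7, 8272), (7, 9220), (7, 8452), (7, 8260), (7, 8212), (7, 9217), (7, 8449), (7, 8257)]

/-- operators -/
noncomputable def O22 : List Op :=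
  [T7_8228, T7_9224, T7_8456, T7_8705, T7_8225, T7_9218, T7_8450, T7_8258, T7_9472, T7_9280, T7_8512, T7_9232, T7_8464, T7_8272, T7_9220, T7_8452, T7_8260, T7_8212, T7_9217, T7_8449, T7_8257]

theorem A22 (L : Letters) : List.Forall₂ GoodO K22 O22 := by
  unfold K22 O22
  refine List.Forall₂.cons ⟨g7_8228 L, by decide +kernel⟩ ?_
  refine List.Forall₂.cons ⟨g7_9224 L, by decide +kernel⟩ ?_
  refine List.Forall₂.cons ⟨g7_8456 L, by decide +kernel⟩ ?_
  refine List.Forall₂.cons ⟨g7_8705 L, by decide +kernel⟩ ?_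
  refine List.Forall₂.cons ⟨g7_8225 L, by decide +kernel⟩ ?_
  refine List.Forall₂.cons ⟨g7_9218 L, by decide +kernel⟩ ?_
  refine List.Forall₂.cons ⟨g7_8450 L, by decide +kernel⟩ ?_
  refine List.Forall₂.cons ⟨g7_8258 L, by decide +kernel⟩ ?_
  refine List.Forall₂.cons ⟨g7_9472 L, by decide +kernel⟩ ?_
  refine List.Forall₂.cons ⟨g7_9280 L, by decide +kernel⟩ ?_
  refine List.Forall₂.cons ⟨g7_8512 L, by decide +kernel⟩ ?_
  refine List.Forall₂.cons ⟨g7_9232 L, by decide +kernel⟩ ?_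
  refine List.Forall₂.cons ⟨g7_8464 L, by decide +kernel⟩ ?_
  refine List.Forall₂.cons ⟨g7_8272 L, by decide +kernel⟩ ?_
  refine List.Forall₂.cons ⟨g7_9220 L, by decide +kernel⟩ ?_
  refine List.Forall₂.cons ⟨g7_8452 L, by decide +kernel⟩ ?_
  refine List.Forall₂.cons ⟨g7_8260 L, by decide +kernel⟩ ?_
  refine List.Forall₂.cons ⟨g7_8212 L, by decide +kernel⟩ ?_
  refine List.Forall₂.cons ⟨g7_9217 L, by decide +kernel⟩ ?_
  refine List.Forall₂.cons ⟨g7_8449 L, by decide +kernel⟩ ?_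
  refine List.Forall₂.cons ⟨g7_8257 L, by decide +kernel⟩ ?_
  exact List.Forall₂.nil

/-- codes -/
def K23 : List (ℕ × ℕ) :=
  [(7, 8209), (7, 8197), (7, 4416), (7, 4368), (7, 4356), (7, 4353), (7, 4113), (7, 8704), (7, 8224), (7, 8194), (7, 9216), (7, 8448), (7, 8256), (7, 8208), (7, 8196), (7, 8193), (7, 4352), (7, 4112), (7, 4097), (7, 8192), (7, 4096)]

/-- operators -/
noncomputable def O23 : List Op :=
  [T7_8209, T7_8197, T7_4416, T7_4368, T7_4356, T7_4353, T7_4113, T7_8704, T7_8224, T7_8194, T7_9216, T7_8448, T7_8256, T7_8208, T7_8196, T7_8193, T7_4352, T7_4112, T7_4097, T7_8192, T7_4096]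

theorem A23 (L : Letters) : List.Forall₂ GoodO K23 O23 := by
  unfold K23 O23
  refine List.Forall₂.cons ⟨g7_8209 L, by decide +kernel⟩ ?_
  refine List.Forall₂.cons ⟨g7_8197 L, by decide +kernel⟩ ?_
  refine List.Forall₂.cons ⟨g7_4416 L, by decide +kernel⟩ ?_
  refine List.Forall₂.cons ⟨g7_4368 L, by decide +kernel⟩ ?_
  refine List.Forall₂.cons ⟨g7_4356 L, by decide +kernel⟩ ?_
  refine List.Forall₂.cons ⟨g7_4353 L, by decide +kernel⟩ ?_
  refine List.Forall₂.cons ⟨g7_4113 L, by decide +kernel⟩ ?_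
  refine List.Forall₂.cons ⟨g7_8704 L, by decide +kernel⟩ ?_
  refine List.Forall₂.cons ⟨g7_8224 L, by decide +kernel⟩ ?_
  refine List.Forall₂.cons ⟨g7_8194 L, by decide +kernel⟩ ?_
  refine List.Forall₂.cons ⟨g7_9216 L, by decide +kernel⟩ ?_
  refine List.Forall₂.cons ⟨g7_8448 L, by decide +kernel⟩ ?_
  refine List.Forall₂.cons ⟨g7_8256 L, by decide +kernel⟩ ?_
  refine List.Forall₂.cons ⟨g7_8208 L, by decide +kernel⟩ ?_
  refine List.Forall₂.cons ⟨g7_8196 L, by decide +kernel⟩ ?_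
  refine List.Forall₂.cons ⟨g7_8193 L, by decide +kernel⟩ ?_
  refine List.Forall₂.cons ⟨g7_4352 L, by decide +kernel⟩ ?_
  refine List.Forall₂.cons ⟨g7_4112 L, by decide +kernel⟩ ?_
  refine List.Forall₂.cons ⟨g7_4097 L, by decide +kernel⟩ ?_
  refine List.Forall₂.cons ⟨g7_8192 L, by decide +kernel⟩ ?_
  refine List.Forall₂.cons ⟨g7_4096 L, by decide +kernel⟩ ?_
  exact List.Forall₂.nil

/-- codes of the Lie basis -/
def KK : List (ℕ × ℕ) :=
  K0 ++ (K1 ++ (K2 ++ (K3 ++ (K4 ++ (K5 ++ (K6 ++ (K7 ++ (K8 ++ (K9 ++ (K10 ++ (K11 ++ (K12 ++ (K13 ++ (K14 ++ (K15 ++ (K16 ++ (K17 ++ (K18 ++ (K19 ++ (K20 ++ (K21 ++ (K22 ++ (K23)))))))))))))))))))))))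

/-- operators of the Lie basis -/
noncomputable def OO : List Op :=
  O0 ++ (O1 ++ (O2 ++ (O3 ++ (O4 ++ (O5 ++ (O6 ++ (O7 ++ (O8 ++ (O9 ++ (O10 ++ (O11 ++ (O12 ++ (O13 ++ (O14 ++ (O15 ++ (O16 ++ (O17 ++ (O18 ++ (O19 ++ (O20 ++ (O21 ++ (O22 ++ (O23)))))))))))))))))))))))

theorem KK_eq : H69.LB = KK := by
  decide +kernel

theorem OO_length : OO.length = 504 := by
  decide +kernel

theorem AA (L : Letters) : List.Forall₂ GoodO KK OO :=
  List.rel_append (A0 L) (List.rel_append (A1 L) (List.rel_append (A2 L) (List.rel_append (A3 L) (List.rel_append (A4 L) (List.rel_append (A5 L) (List.rel_append (A6 L) (List.rel_append (A7 L) (List.rel_append (A8 L) (List.rel_append (A9 L) (List.rel_append (A10 L) (List.rel_append (A11 L) (List.rel_append (A12 L) (List.rel_append (A13 L) (List.rel_append (A14 L) (List.rel_append (A15 L) (List.rel_append (A16 L) (List.rel_append (A17 L) (List.rel_append (A18 L) (List.rel_append (A19 L) (List.rel_append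 (A20 L) (List.rel_append (A21 L) (List.rel_append (A22 L) (A23 L)))))))))))))))))))))))

/-- the operator of the `i`-th basis element -/
noncomputable def ob (i : Fin 504) : Op := OO[i.val]'(by rw [OO_length]; exact i.isLt)

theorem good_ob (L : Letters) (i : Fin 504) : GoodO (H69.LB.getD i.val (0, 0)) (ob i) := by
  have h := AA L
  rw [← KK_eq] at h
  have h1 : i.val < H69.LB.length := by
    rw [H69.LB_length]
    exact i.isLt
  have h2 : i.val < OO.length := by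
    rw [OO_length]
    exact i.isLt
  have h3 := h.get h1 h2
  rw [List.getD_eq_getElem _ _ h1]
  exact h3

theorem good_lb (L : Letters) (i : Fin 504) : Good (H69.lbWord i) (trO (ob i)) :=
  (good_ob L i).1

theorem shO_ob (L : Letters) (i : Fin 504) : shO (ob i) = Fin8.tgtW (H69.lbWord i) :=
  (good_ob L i).2

/-- **The tables of the Lie basis.** -/
theorem tabOk_ob (L : Letters) : Pk.TabOk HH wcut ob H69.lbWord := tabOk_of ob H69.lbWord (good_lb L)

/-- the words of the scalar checks -/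
def wd (n : ℕ) : List (Fin 3) := if n ≤ 8 then DP.nmW n else []

theorem good_tb (L : Letters) (n : ℕ) (hn : n ≤ 8) :
    Good (DP.nmW n) (trO (Chk64.tb n)) ∧ shO (Chk64.tb n) = Fin8.tgtW (DP.nmW n) := by
  interval_cases n
  · exact ⟨L.g0, by decide +kernel⟩
  · exact ⟨L.g1, by decide +kernel⟩
  · exact ⟨L.g2, by decide +kernel⟩
  · exact ⟨g2_6 L, by decide +kernel⟩
  · exact ⟨g3_26 L, by decide +kernel⟩
  · exact ⟨g4_106 L, by decide +kernel⟩
  · exact ⟨g5_426 L, by decide +kernel⟩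
  · exact ⟨g6_1706 L, by decide +kernel⟩
  · exact ⟨g7_6826 L, by decide +kernel⟩

theorem tb_ge (n : ℕ) (hn : 9 ≤ n) : Chk64.tb n = Op.mk 0 Tr.lf := by
  unfold Chk64.tb
  exact List.getD_eq_default _ _ hn

theorem shO_tb (L : Letters) (n : ℕ) : shO (Chk64.tb n) = Fin8.tgtW (wd n) := by
  unfold wd
  by_cases h : n ≤ 8
  · rw [if_pos h]
    exact (good_tb L n h).2
  · rw [if_neg h, tb_ge n (by omega)]
    rfl

/-- **The tables of the scalar checks.** -/
theorem tabOk_tb (L : Letters) : Pk.TabOk HH wcut Chk64.tb wd := by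
  intro n κ hκ
  unfold wd at hκ ⊢
  by_cases h : n ≤ 8
  · simp only [if_pos h] at hκ ⊢
    obtain ⟨h1, h2⟩ := dg_cod κ (fun i => by have := hκ i; omega)
    exact (good_tb L n h).1.blkOk h1 (fun i => by rw [h2 i]; exact hκ i)
  · simp only [if_neg h] at hκ ⊢
    rw [tb_ge n (by omega)]
    intro t _ r _
    rfl

end Pool.Agent.Work.MP_bde882_al.TC
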