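import Pool.Agent.Work.MP_bde882_al_h64.TabStep4
import Pool.Agent.Work.MP_bde882_al_tab.Tab1a
import Pool.Agent.Work.MP_bde882_al_tab.Tab1b
import Pool.Agent.Work.MP_bde882_al_tab.Tab1c
import Pool.Agent.Work.MP_bde882_al_tab.Tab2a

/-!
Kernel checks of the operator tables.
-/

set_option autoImplicit false
set_option maxRecDepth 100000
set_option linter.defProp false

namespace Pool.Agent.Work.MP_bde882_al.TC

open Pool.Agent.Work.MP_bde882_al TS64 H87 Tab

def c2_9 : chk24 dm 7 1 (Pg62.trO T2_9) (Pg62.trO T1_1) (Pg62.trO T1_2) = true := by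
  decide +kernel

def v2_9 : cov dm 0 1 1 8 (Pg62.trO T2_9) = true := by
  decide +kernel

def c2_4 : chk24 dm 49 7 (Pg62.trO T2_4) (Pg62.trO T1_0) (Pg62.trO T1_1) = true := by
  decide +kernel

def v2_4 : cov dm 1 1 0 56 (Pg62.trO T2_4) = true := by
  decide +kernel

end Pool.Agent.Work.MP_bde882_al.TC
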