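import Pool.Agent.Work.MP_bde882_al_h64.TabStep4
import Pool.Agent.Work.MP_bde882_al_tab.Tab1b
import Pool.Agent.Work.MP_bde882_al_tab.Tab1c
import Pool.Agent.Work.MP_bde882_al_tab.Tab2a
import Pool.Agent.Work.MP_bde882_al_tab.Tab2b
import Pool.Agent.Work.MP_bde882_al_tab.Tab3a

/-!
Kernel checks of the operator tables.
-/

set_option autoImplicit false
set_option maxRecDepth 100000
set_option linter.defProp false

namespace Pool.Agent.Work.MP_bde882_al.TC

open Pool.Agent.Work.MP_bde882_al TS64 H87 Tab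

def c3_38 : chk24 dm 1 8 (Pg62.trO T3_38) (Pg62.trO T1_2) (Pg62.trO T2_9) = true := by
  decide +kernel

def v3_38 : cov dm 0 1 2 9 (Pg62.trO T3_38) = true := by
  decide +kernel

def c3_37 : chk24 dm 7 8 (Pg62.trO T3_37) (Pg62.trO T1_1) (Pg62.trO T2_9) = true := by
  decide +kernel

def v3_37 : cov dm 0 2 1 15 (Pg62.trO T3_37) = true := by
  decide +kernel

def c3_34 : chk24 dm 1 50 (Pg62.trO T3_34) (Pg62.trO T1_2) (Pg62.trO T2_8) = true := by
  decide +kernel

def v3_34 : cov dm 1 0 2 51 (Pg62.trO T3_34) = true := by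
  decide +kernel

end Pool.Agent.Work.MP_bde882_al.TC
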