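import Pool.Agent.Work.MP_bde882_al_h64.TabStep4
import Pool.Agent.Work.MP_bde882_al_tab.Tab1a
import Pool.Agent.Work.MP_bde882_al_tab.Tab1b
import Pool.Agent.Work.MP_bde882_al_tab.Tab2a
import Pool.Agent.Work.MP_bde882_al_tab.Tab2b
import Pool.Agent.Work.MP_bde882_al_tab.Tab3a
import Pool.Agent.Work.MP_bde882_al_tab.Tab3b

/-!
Kernel checks of the operator tables.
-/

set_option autoImplicit false
set_option maxRecDepth 100000
set_option linter.defProp false

namespace Pool.Agent.Work.MP_bde882_al.TC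

open Pool.Agent.Work.MP_bde882_al TS64 H87 Tab

def c3_36 : chk24 dm 49 8 (Pg62.trO T3_36) (Pg62.trO T1_0) (Pg62.trO T2_9) = true := by
  decide +kernel

def v3_36 : cov dm 1 1 1 57 (Pg62.trO T3_36) = true := by
  decide +kernel

def c3_33 : chk24 dm 7 50 (Pg62.trO T3_33) (Pg62.trO T1_1) (Pg62.trO T2_8) = true := by
  decide +kernel

def v3_33 : cov dm 1 1 1 57 (Pg62.trO T3_33) = true := by
  decide +kernel

def c3_17 : chk24 dm 7 56 (Pg62.trO T3_17) (Pg62.trO T1_1) (Pg62.trO T2_4) = true := by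
  decide +kernel

def v3_17 : cov dm 1 2 0 63 (Pg62.trO T3_17) = true := by
  decide +kernel

end Pool.Agent.Work.MP_bde882_al.TC
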