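import Pool.Agent.Work.MP_bde882_al_h64.TabStep4
import Pool.Agent.Work.MP_bde882_al_tab.Tab1a
import Pool.Agent.Work.MP_bde882_al_tab.Tab1c
import Pool.Agent.Work.MP_bde882_al_tab.Tab2a
import Pool.Agent.Work.MP_bde882_al_tab.Tab2b
import Pool.Agent.Work.MP_bde882_al_tab.Tab3b
import Pool.Agent.Work.MP_bde882_al_tab.Tab3c

/-!
Kernel checks of the operator tables.
-/

set_option autoImplicit false
set_option maxRecDepth 100000
set_option linter.defProp false

namespace Pool.Agent.Work.MP_bde882_al.TC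

open Pool.Agent.Work.MP_bde882_al TS64 H87 Tab

def c3_32 : chk24 dm 49 50 (Pg62.trO T3_32) (Pg62.trO T1_0) (Pg62.trO T2_8) = true := by
  decide +kernel

def v3_32 : cov dm 2 0 1 99 (Pg62.trO T3_32) = true := by
  decide +kernel

def c3_16 : chk24 dm 49 56 (Pg62.trO T3_16) (Pg62.trO T1_0) (Pg62.trO T2_4) = true := by
  decide +kernel

def v3_16 : cov dm 2 1 0 105 (Pg62.trO T3_16) = true := by
  decide +kernel

def c3_26 : chk24 dm 1 8 (Pg62.trO T3_26) (Pg62.trO T1_2) (Pg62.trO T2_6) = true := by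
  decide +kernel

def v3_26 : cov dm 0 1 2 9 (Pg62.trO T3_26) = true := by
  decide +kernel

end Pool.Agent.Work.MP_bde882_al.TC
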