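import Pool.Agent.Work.MP_bde882_al_h64.TabStep4
import Pool.Agent.Work.MP_bde882_al_tab.Tab1a
import Pool.Agent.Work.MP_bde882_al_tab.Tab1b
import Pool.Agent.Work.MP_bde882_al_tab.Tab1c
import Pool.Agent.Work.MP_bde882_al_tab.Tab3a
import Pool.Agent.Work.MP_bde882_al_tab.Tab4a

/-!
Kernel checks of the operator tables.
-/

set_option autoImplicit false
set_option maxRecDepth 100000
set_option linter.defProp false

namespace Pool.Agent.Work.MP_bde882_al.TC

open Pool.Agent.Work.MP_bde882_al TS64 H87 Tab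

def c4_154 : chk24 dm 1 9 (Pg62.trO T4_154) (Pg62.trO T1_2) (Pg62.trO T3_38) = true := by
  decide +kernel

def v4_154 : cov dm 0 1 3 10 (Pg62.trO T4_154) = true := by
  decide +kernel

def c4_153 : chk24 dm 7 9 (Pg62.trO T4_153) (Pg62.trO T1_1) (Pg62.trO T3_38) = true := by
  decide +kernel

def v4_153 : cov dm 0 2 2 16 (Pg62.trO T4_153) = true := by
  decide +kernel

def c4_149 : chk24 dm 7 15 (Pg62.trO T4_149) (Pg62.trO T1_1) (Pg62.trO T3_37) = true := by
  decide +kernel

def v4_149 : cov dm 0 3 1 22 (Pg62.trO T4_149) = true := by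
  decide +kernel

def c4_138 : chk24 dm 1 51 (Pg62.trO T4_138) (Pg62.trO T1_2) (Pg62.trO T3_34) = true := by
  decide +kernel

def v4_138 : cov dm 1 0 3 52 (Pg62.trO T4_138) = true := by
  decide +kernel

def c4_152 : chk24 dm 49 9 (Pg62.trO T4_152) (Pg62.trO T1_0) (Pg62.trO T3_38) = true := by
  decide +kernel

def v4_152 : cov dm 1 1 2 58 (Pg62.trO T4_152) = true := by
  decide +kernel

def c4_137 : chk24 dm 7 51 (Pg62.trO T4_137) (Pg62.trO T1_1) (Pg62.trO T3_34) = true := by
  decide +kernel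

def v4_137 : cov dm 1 1 2 58 (Pg62.trO T4_137) = true := by
  decide +kernel

end Pool.Agent.Work.MP_bde882_al.TC
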