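import Pool.Agent.Work.MP_bde882_al_h64.TabStep4
import Pool.Agent.Work.MP_bde882_al_tab.Tab1a
import Pool.Agent.Work.MP_bde882_al_tab.Tab1b
import Pool.Agent.Work.MP_bde882_al_tab.Tab1c
import Pool.Agent.Work.MP_bde882_al_tab.Tab3a
import Pool.Agent.Work.MP_bde882_al_tab.Tab3b
import Pool.Agent.Work.MP_bde882_al_tab.Tab4a
import Pool.Agent.Work.MP_bde882_al_tab.Tab4b

/-!
Kernel checks of the operator tables.
-/

set_option autoImplicit false
set_option maxRecDepth 100000
set_option linter.defProp false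

namespace Pool.Agent.Work.MP_bde882_al.TC

open Pool.Agent.Work.MP_bde882_al TS64 H87 Tab

def c4_146 : chk24 dm 1 57 (Pg62.trO T4_146) (Pg62.trO T1_2) (Pg62.trO T3_36) = true := by
  decide +kernel

def v4_146 : cov dm 1 1 2 58 (Pg62.trO T4_146) = true := by
  decide +kernel

def c4_148 : chk24 dm 49 15 (Pg62.trO T4_148) (Pg62.trO T1_0) (Pg62.trO T3_37) = true := by
  decide +kernel

def v4_148 : cov dm 1 2 1 64 (Pg62.trO T4_148) = true := by
  decide +kernel

def c4_145 : chk24 dm 7 57 (Pg62.trO T4_145) (Pg62.trO T1_1) (Pg62.trO T3_36) = true := by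
  decide +kernel

def v4_145 : cov dm 1 2 1 64 (Pg62.trO T4_145) = true := by
  decide +kernel

def c4_133 : chk24 dm 7 57 (Pg62.trO T4_133) (Pg62.trO T1_1) (Pg62.trO T3_33) = true := by
  decide +kernel

def v4_133 : cov dm 1 2 1 64 (Pg62.trO T4_133) = true := by
  decide +kernel

def c4_69 : chk24 dm 7 63 (Pg62.trO T4_69) (Pg62.trO T1_1) (Pg62.trO T3_17) = true := by
  decide +kernel

def v4_69 : cov dm 1 3 0 70 (Pg62.trO T4_69) = true := by
  decide +kernel

end Pool.Agent.Work.MP_bde882_al.TC
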