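import Pool.Agent.Work.MP_bde882_al_h64.TabStep4
import Pool.Agent.Work.MP_bde882_al_tab.Tab1a
import Pool.Agent.Work.MP_bde882_al_tab.Tab1b
import Pool.Agent.Work.MP_bde882_al_tab.Tab3a
import Pool.Agent.Work.MP_bde882_al_tab.Tab3b
import Pool.Agent.Work.MP_bde882_al_tab.Tab4b

/-!
Kernel checks of the operator tables.
-/

set_option autoImplicit false
set_option maxRecDepth 100000
set_option linter.defProp false

namespace Pool.Agent.Work.MP_bde882_al.TC

open Pool.Agent.Work.MP_bde882_al TS64 H87 Tab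

def c4_136 : chk24 dm 49 51 (Pg62.trO T4_136) (Pg62.trO T1_0) (Pg62.trO T3_34) = true := by
  decide +kernel

def v4_136 : cov dm 2 0 2 100 (Pg62.trO T4_136) = true := by
  decide +kernel

def c4_144 : chk24 dm 49 57 (Pg62.trO T4_144) (Pg62.trO T1_0) (Pg62.trO T3_36) = true := by
  decide +kernel

def v4_144 : cov dm 2 1 1 106 (Pg62.trO T4_144) = true := by
  decide +kernel

def c4_132 : chk24 dm 49 57 (Pg62.trO T4_132) (Pg62.trO T1_0) (Pg62.trO T3_33) = true := by
  decide +kernel

def v4_132 : cov dm 2 1 1 106 (Pg62.trO T4_132) = true := by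
  decide +kernel

def c4_129 : chk24 dm 7 99 (Pg62.trO T4_129) (Pg62.trO T1_1) (Pg62.trO T3_32) = true := by
  decide +kernel

def v4_129 : cov dm 2 1 1 106 (Pg62.trO T4_129) = true := by
  decide +kernel

def c4_68 : chk24 dm 49 63 (Pg62.trO T4_68) (Pg62.trO T1_0) (Pg62.trO T3_17) = true := by
  decide +kernel

def v4_68 : cov dm 2 2 0 112 (Pg62.trO T4_68) = true := by
  decide +kernel

def c4_128 : chk24 dm 49 99 (Pg62.trO T4_128) (Pg62.trO T1_0) (Pg62.trO T3_32) = true := by
  decide +kernel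

def v4_128 : cov dm 3 0 1 148 (Pg62.trO T4_128) = true := by
  decide +kernel

end Pool.Agent.Work.MP_bde882_al.TC
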