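import Pool.Agent.Work.MP_bde882_al_h64.TabStep4
import Pool.Agent.Work.MP_bde882_al_tab.Tab1a
import Pool.Agent.Work.MP_bde882_al_tab.Tab1c
import Pool.Agent.Work.MP_bde882_al_tab.Tab3b
import Pool.Agent.Work.MP_bde882_al_tab.Tab3c
import Pool.Agent.Work.MP_bde882_al_tab.Tab4b

/-!
Kernel checks of the operator tables.
-/

set_option autoImplicit false
set_option maxRecDepth 100000
set_option linter.defProp false

namespace Pool.Agent.Work.MP_bde882_al.TC

open Pool.Agent.Work.MP_bde882_al TS64 H87 Tab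

def c4_64 : chk24 dm 49 105 (Pg62.trO T4_64) (Pg62.trO T1_0) (Pg62.trO T3_16) = true := by
  decide +kernel

def v4_64 : cov dm 3 1 0 154 (Pg62.trO T4_64) = true := by
  decide +kernel

def c4_106 : chk24 dm 1 9 (Pg62.trO T4_106) (Pg62.trO T1_2) (Pg62.trO T3_26) = true := by
  decide +kernel

def v4_106 : cov dm 0 1 3 10 (Pg62.trO T4_106) = true := by
  decide +kernel

end Pool.Agent.Work.MP_bde882_al.TC
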