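import Pool.Agent.Work.MP_bde882_al_h64.TabStep4
import Pool.Agent.Work.MP_bde882_al_tab.Tab1a
import Pool.Agent.Work.MP_bde882_al_tab.Tab1b
import Pool.Agent.Work.MP_bde882_al_tab.Tab1c
import Pool.Agent.Work.MP_bde882_al_tab.Tab4a
import Pool.Agent.Work.MP_bde882_al_tab.Tab5a

/-!
Kernel checks of the operator tables.
-/

set_option autoImplicit false
set_option maxRecDepth 100000
set_option linter.defProp false

namespace Pool.Agent.Work.MP_bde882_al.TC

open Pool.Agent.Work.MP_bde882_al TS64 H87 Tab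

def c5_618 : chk24 dm 1 10 (Pg62.trO T5_618) (Pg62.trO T1_2) (Pg62.trO T4_154) = true := by
  decide +kernel

def v5_618 : cov dm 0 1 4 11 (Pg62.trO T5_618) = true := by
  decide +kernel

def c5_617 : chk24 dm 7 10 (Pg62.trO T5_617) (Pg62.trO T1_1) (Pg62.trO T4_154) = true := by
  decide +kernel

def v5_617 : cov dm 0 2 3 17 (Pg62.trO T5_617) = true := by
  decide +kernel

def c5_614 : chk24 dm 1 16 (Pg62.trO T5_614) (Pg62.trO T1_2) (Pg62.trO T4_153) = true := by
  decide +kernel

def v5_614 : cov dm 0 2 3 17 (Pg62.trO T5_614) = true := by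
  decide +kernel

def c5_613 : chk24 dm 7 16 (Pg62.trO T5_613) (Pg62.trO T1_1) (Pg62.trO T4_153) = true := by
  decide +kernel

def v5_613 : cov dm 0 3 2 23 (Pg62.trO T5_613) = true := by
  decide +kernel

def c5_598 : chk24 dm 1 22 (Pg62.trO T5_598) (Pg62.trO T1_2) (Pg62.trO T4_149) = true := by
  decide +kernel

def v5_598 : cov dm 0 3 2 23 (Pg62.trO T5_598) = true := by
  decide +kernel

def c5_597 : chk24 dm 7 22 (Pg62.trO T5_597) (Pg62.trO T1_1) (Pg62.trO T4_149) = true := by
  decide +kernel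

def v5_597 : cov dm 0 4 1 29 (Pg62.trO T5_597) = true := by
  decide +kernel

def c5_554 : chk24 dm 1 52 (Pg62.trO T5_554) (Pg62.trO T1_2) (Pg62.trO T4_138) = true := by
  decide +kernel

def v5_554 : cov dm 1 0 4 53 (Pg62.trO T5_554) = true := by
  decide +kernel

def c5_616 : chk24 dm 49 10 (Pg62.trO T5_616) (Pg62.trO T1_0) (Pg62.trO T4_154) = true := by
  decide +kernel

def v5_616 : cov dm 1 1 3 59 (Pg62.trO T5_616) = true := by
  decide +kernel

def c5_553 : chk24 dm 7 52 (Pg62.trO T5_553) (Pg62.trO T1_1) (Pg62.trO T4_138) = true := by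
  decide +kernel

def v5_553 : cov dm 1 1 3 59 (Pg62.trO T5_553) = true := by
  decide +kernel

def c5_610 : chk24 dm 1 58 (Pg62.trO T5_610) (Pg62.trO T1_2) (Pg62.trO T4_152) = true := by
  decide +kernel

def v5_610 : cov dm 1 1 3 59 (Pg62.trO T5_610) = true := by
  decide +kernel

end Pool.Agent.Work.MP_bde882_al.TC
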