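import Pool.Agent.Work.MP_bde882_al_h64.TabStep4
import Pool.Agent.Work.MP_bde882_al_tab.Tab1a
import Pool.Agent.Work.MP_bde882_al_tab.Tab1b
import Pool.Agent.Work.MP_bde882_al_tab.Tab1c
import Pool.Agent.Work.MP_bde882_al_tab.Tab4a
import Pool.Agent.Work.MP_bde882_al_tab.Tab5a

/-!
Kernel checks of the operator tables.
-/

set_option autoImplicit false
set_option maxRecDepth 100000
set_option linter.defProp false

namespace Pool.Agent.Work.MP_bde882_al.TC

open Pool.Agent.Work.MP_bde882_al TS64 H87 Tab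

def c5_550 : chk24 dm 1 58 (Pg62.trO T5_550) (Pg62.trO T1_2) (Pg62.trO T4_137) = true := by
  decide +kernel

def v5_550 : cov dm 1 1 3 59 (Pg62.trO T5_550) = true := by
  decide +kernel

def c5_612 : chk24 dm 49 16 (Pg62.trO T5_612) (Pg62.trO T1_0) (Pg62.trO T4_153) = true := by
  decide +kernel

def v5_612 : cov dm 1 2 2 65 (Pg62.trO T5_612) = true := by
  decide +kernel

def c5_609 : chk24 dm 7 58 (Pg62.trO T5_609) (Pg62.trO T1_1) (Pg62.trO T4_152) = true := by
  decide +kernel

def v5_609 : cov dm 1 2 2 65 (Pg62.trO T5_609) = true := by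
  decide +kernel

def c5_549 : chk24 dm 7 58 (Pg62.trO T5_549) (Pg62.trO T1_1) (Pg62.trO T4_137) = true := by
  decide +kernel

def v5_549 : cov dm 1 2 2 65 (Pg62.trO T5_549) = true := by
  decide +kernel

def c5_585 : chk24 dm 7 58 (Pg62.trO T5_585) (Pg62.trO T1_1) (Pg62.trO T4_146) = true := by
  decide +kernel

def v5_585 : cov dm 1 2 2 65 (Pg62.trO T5_585) = true := by
  decide +kernel

def c5_594 : chk24 dm 1 64 (Pg62.trO T5_594) (Pg62.trO T1_2) (Pg62.trO T4_148) = true := by
  decide +kernel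

def v5_594 : cov dm 1 2 2 65 (Pg62.trO T5_594) = true := by
  decide +kernel

end Pool.Agent.Work.MP_bde882_al.TC
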