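import Pool.Agent.Work.MP_bde882_al_h64.TabStep4
import Pool.Agent.Work.MP_bde882_al_tab.Tab1a
import Pool.Agent.Work.MP_bde882_al_tab.Tab1b
import Pool.Agent.Work.MP_bde882_al_tab.Tab1c
import Pool.Agent.Work.MP_bde882_al_tab.Tab4a
import Pool.Agent.Work.MP_bde882_al_tab.Tab4b
import Pool.Agent.Work.MP_bde882_al_tab.Tab5a
import Pool.Agent.Work.MP_bde882_al_tab.Tab5b

/-!
Kernel checks of the operator tables.
-/

set_option autoImplicit false
set_option maxRecDepth 100000
set_option linter.defProp false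

namespace Pool.Agent.Work.MP_bde882_al.TC

open Pool.Agent.Work.MP_bde882_al TS64 H87 Tab

def c5_582 : chk24 dm 1 64 (Pg62.trO T5_582) (Pg62.trO T1_2) (Pg62.trO T4_145) = true := by
  decide +kernel

def v5_582 : cov dm 1 2 2 65 (Pg62.trO T5_582) = true := by
  decide +kernel

def c5_596 : chk24 dm 49 22 (Pg62.trO T5_596) (Pg62.trO T1_0) (Pg62.trO T4_149) = true := by
  decide +kernel

def v5_596 : cov dm 1 3 1 71 (Pg62.trO T5_596) = true := by
  decide +kernel

def c5_593 : chk24 dm 7 64 (Pg62.trO T5_593) (Pg62.trO T1_1) (Pg62.trO T4_148) = true := by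
  decide +kernel

def v5_593 : cov dm 1 3 1 71 (Pg62.trO T5_593) = true := by
  decide +kernel

def c5_581 : chk24 dm 7 64 (Pg62.trO T5_581) (Pg62.trO T1_1) (Pg62.trO T4_145) = true := by
  decide +kernel

def v5_581 : cov dm 1 3 1 71 (Pg62.trO T5_581) = true := by
  decide +kernel

def c5_533 : chk24 dm 7 64 (Pg62.trO T5_533) (Pg62.trO T1_1) (Pg62.trO T4_133) = true := by
  decide +kernel

def v5_533 : cov dm 1 3 1 71 (Pg62.trO T5_533) = true := by
  decide +kernel

def c5_277 : chk24 dm 7 70 (Pg62.trO T5_277) (Pg62.trO T1_1) (Pg62.trO T4_69) = true := by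
  decide +kernel

def v5_277 : cov dm 1 4 0 77 (Pg62.trO T5_277) = true := by
  decide +kernel

def c5_552 : chk24 dm 49 52 (Pg62.trO T5_552) (Pg62.trO T1_0) (Pg62.trO T4_138) = true := by
  decide +kernel

def v5_552 : cov dm 2 0 3 101 (Pg62.trO T5_552) = true := by
  decide +kernel

def c5_546 : chk24 dm 1 100 (Pg62.trO T5_546) (Pg62.trO T1_2) (Pg62.trO T4_136) = true := by
  decide +kernel

def v5_546 : cov dm 2 0 3 101 (Pg62.trO T5_546) = true := by
  decide +kernel

end Pool.Agent.Work.MP_bde882_al.TC
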