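import Pool.Agent.Work.MP_bde882_al_h64.TabStep4
import Pool.Agent.Work.MP_bde882_al_tab.Tab1a
import Pool.Agent.Work.MP_bde882_al_tab.Tab1b
import Pool.Agent.Work.MP_bde882_al_tab.Tab1c
import Pool.Agent.Work.MP_bde882_al_tab.Tab4a
import Pool.Agent.Work.MP_bde882_al_tab.Tab4b
import Pool.Agent.Work.MP_bde882_al_tab.Tab5b

/-!
Kernel checks of the operator tables.
-/

set_option autoImplicit false
set_option maxRecDepth 100000
set_option linter.defProp false

namespace Pool.Agent.Work.MP_bde882_al.TC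

open Pool.Agent.Work.MP_bde882_al TS64 H87 Tab

def c5_608 : chk24 dm 49 58 (Pg62.trO T5_608) (Pg62.trO T1_0) (Pg62.trO T4_152) = true := by
  decide +kernel

def v5_608 : cov dm 2 1 2 107 (Pg62.trO T5_608) = true := by
  decide +kernel

def c5_548 : chk24 dm 49 58 (Pg62.trO T5_548) (Pg62.trO T1_0) (Pg62.trO T4_137) = true := by
  decide +kernel

def v5_548 : cov dm 2 1 2 107 (Pg62.trO T5_548) = true := by
  decide +kernel

def c5_584 : chk24 dm 49 58 (Pg62.trO T5_584) (Pg62.trO T1_0) (Pg62.trO T4_146) = true := by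
  decide +kernel

def v5_584 : cov dm 2 1 2 107 (Pg62.trO T5_584) = true := by
  decide +kernel

def c5_545 : chk24 dm 7 100 (Pg62.trO T5_545) (Pg62.trO T1_1) (Pg62.trO T4_136) = true := by
  decide +kernel

def v5_545 : cov dm 2 1 2 107 (Pg62.trO T5_545) = true := by
  decide +kernel

def c5_578 : chk24 dm 1 106 (Pg62.trO T5_578) (Pg62.trO T1_2) (Pg62.trO T4_144) = true := by
  decide +kernel

def v5_578 : cov dm 2 1 2 107 (Pg62.trO T5_578) = true := by
  decide +kernel

def c5_530 : chk24 dm 1 106 (Pg62.trO T5_530) (Pg62.trO T1_2) (Pg62.trO T4_132) = true := by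
  decide +kernel

def v5_530 : cov dm 2 1 2 107 (Pg62.trO T5_530) = true := by
  decide +kernel

end Pool.Agent.Work.MP_bde882_al.TC
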