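import Pool.Agent.Work.MP_bde882_al_h64.TabStep4
import Pool.Agent.Work.MP_bde882_al_tab.Tab1a
import Pool.Agent.Work.MP_bde882_al_tab.Tab1b
import Pool.Agent.Work.MP_bde882_al_tab.Tab4a
import Pool.Agent.Work.MP_bde882_al_tab.Tab4b
import Pool.Agent.Work.MP_bde882_al_tab.Tab5b

/-!
Kernel checks of the operator tables.
-/

set_option autoImplicit false
set_option maxRecDepth 100000
set_option linter.defProp false

namespace Pool.Agent.Work.MP_bde882_al.TC

open Pool.Agent.Work.MP_bde882_al TS64 H87 Tab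

def c5_592 : chk24 dm 49 64 (Pg62.trO T5_592) (Pg62.trO T1_0) (Pg62.trO T4_148) = true := by
  decide +kernel

def v5_592 : cov dm 2 2 1 113 (Pg62.trO T5_592) = true := by
  decide +kernel

def c5_580 : chk24 dm 49 64 (Pg62.trO T5_580) (Pg62.trO T1_0) (Pg62.trO T4_145) = true := by
  decide +kernel

def v5_580 : cov dm 2 2 1 113 (Pg62.trO T5_580) = true := by
  decide +kernel

def c5_532 : chk24 dm 49 64 (Pg62.trO T5_532) (Pg62.trO T1_0) (Pg62.trO T4_133) = true := by
  decide +kernel

def v5_532 : cov dm 2 2 1 113 (Pg62.trO T5_532) = true := by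
  decide +kernel

def c5_577 : chk24 dm 7 106 (Pg62.trO T5_577) (Pg62.trO T1_1) (Pg62.trO T4_144) = true := by
  decide +kernel

def v5_577 : cov dm 2 2 1 113 (Pg62.trO T5_577) = true := by
  decide +kernel

def c5_529 : chk24 dm 7 106 (Pg62.trO T5_529) (Pg62.trO T1_1) (Pg62.trO T4_132) = true := by
  decide +kernel

def v5_529 : cov dm 2 2 1 113 (Pg62.trO T5_529) = true := by
  decide +kernel

def c5_517 : chk24 dm 7 106 (Pg62.trO T5_517) (Pg62.trO T1_1) (Pg62.trO T4_129) = true := by
  decide +kernel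

def v5_517 : cov dm 2 2 1 113 (Pg62.trO T5_517) = true := by
  decide +kernel

def c5_276 : chk24 dm 49 70 (Pg62.trO T5_276) (Pg62.trO T1_0) (Pg62.trO T4_69) = true := by
  decide +kernel

def v5_276 : cov dm 2 3 0 119 (Pg62.trO T5_276) = true := by
  decide +kernel

end Pool.Agent.Work.MP_bde882_al.TC
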