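import Pool.Agent.Work.MP_bde882_al_h64.TabStep4
import Pool.Agent.Work.MP_bde882_al_tab.Tab1a
import Pool.Agent.Work.MP_bde882_al_tab.Tab1b
import Pool.Agent.Work.MP_bde882_al_tab.Tab1c
import Pool.Agent.Work.MP_bde882_al_tab.Tab4b
import Pool.Agent.Work.MP_bde882_al_tab.Tab5b
import Pool.Agent.Work.MP_bde882_al_tab.Tab5c

/-!
Kernel checks of the operator tables.
-/

set_option autoImplicit false
set_option maxRecDepth 100000
set_option linter.defProp false

namespace Pool.Agent.Work.MP_bde882_al.TC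

open Pool.Agent.Work.MP_bde882_al TS64 H87 Tab

def c5_273 : chk24 dm 7 112 (Pg62.trO T5_273) (Pg62.trO T1_1) (Pg62.trO T4_68) = true := by
  decide +kernel

def v5_273 : cov dm 2 3 0 119 (Pg62.trO T5_273) = true := by
  decide +kernel

def c5_544 : chk24 dm 49 100 (Pg62.trO T5_544) (Pg62.trO T1_0) (Pg62.trO T4_136) = true := by
  decide +kernel

def v5_544 : cov dm 3 0 2 149 (Pg62.trO T5_544) = true := by
  decide +kernel

def c5_514 : chk24 dm 1 148 (Pg62.trO T5_514) (Pg62.trO T1_2) (Pg62.trO T4_128) = true := by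
  decide +kernel

def v5_514 : cov dm 3 0 2 149 (Pg62.trO T5_514) = true := by
  decide +kernel

def c5_576 : chk24 dm 49 106 (Pg62.trO T5_576) (Pg62.trO T1_0) (Pg62.trO T4_144) = true := by
  decide +kernel

def v5_576 : cov dm 3 1 1 155 (Pg62.trO T5_576) = true := by
  decide +kernel

def c5_528 : chk24 dm 49 106 (Pg62.trO T5_528) (Pg62.trO T1_0) (Pg62.trO T4_132) = true := by
  decide +kernel

def v5_528 : cov dm 3 1 1 155 (Pg62.trO T5_528) = true := by
  decide +kernel

def c5_516 : chk24 dm 49 106 (Pg62.trO T5_516) (Pg62.trO T1_0) (Pg62.trO T4_129) = true := by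
  decide +kernel

def v5_516 : cov dm 3 1 1 155 (Pg62.trO T5_516) = true := by
  decide +kernel

def c5_513 : chk24 dm 7 148 (Pg62.trO T5_513) (Pg62.trO T1_1) (Pg62.trO T4_128) = true := by
  decide +kernel

def v5_513 : cov dm 3 1 1 155 (Pg62.trO T5_513) = true := by
  decide +kernel

def c5_272 : chk24 dm 49 112 (Pg62.trO T5_272) (Pg62.trO T1_0) (Pg62.trO T4_68) = true := by
  decide +kernel

def v5_272 : cov dm 3 2 0 161 (Pg62.trO T5_272) = true := by
  decide +kernel

end Pool.Agent.Work.MP_bde882_al.TC
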