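import Pool.Agent.Work.MP_bde882_al_h64.TabStep4
import Pool.Agent.Work.MP_bde882_al_tab.Tab1a
import Pool.Agent.Work.MP_bde882_al_tab.Tab1b
import Pool.Agent.Work.MP_bde882_al_tab.Tab1c
import Pool.Agent.Work.MP_bde882_al_tab.Tab4b
import Pool.Agent.Work.MP_bde882_al_tab.Tab5c

/-!
Kernel checks of the operator tables.
-/

set_option autoImplicit false
set_option maxRecDepth 100000
set_option linter.defProp false

namespace Pool.Agent.Work.MP_bde882_al.TC

open Pool.Agent.Work.MP_bde882_al TS64 H87 Tab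

def c5_257 : chk24 dm 7 154 (Pg62.trO T5_257) (Pg62.trO T1_1) (Pg62.trO T4_64) = true := by
  decide +kernel

def v5_257 : cov dm 3 2 0 161 (Pg62.trO T5_257) = true := by
  decide +kernel

def c5_512 : chk24 dm 49 148 (Pg62.trO T5_512) (Pg62.trO T1_0) (Pg62.trO T4_128) = true := by
  decide +kernel

def v5_512 : cov dm 4 0 1 197 (Pg62.trO T5_512) = true := by
  decide +kernel

def c5_256 : chk24 dm 49 154 (Pg62.trO T5_256) (Pg62.trO T1_0) (Pg62.trO T4_64) = true := by
  decide +kernel

def v5_256 : cov dm 4 1 0 203 (Pg62.trO T5_256) = true := by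
  decide +kernel

def c5_426 : chk24 dm 1 10 (Pg62.trO T5_426) (Pg62.trO T1_2) (Pg62.trO T4_106) = true := by
  decide +kernel

def v5_426 : cov dm 0 1 4 11 (Pg62.trO T5_426) = true := by
  decide +kernel

end Pool.Agent.Work.MP_bde882_al.TC
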