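import Pool.Agent.Work.MP_bde882_al_h64.TabStep4
import Pool.Agent.Work.MP_bde882_al_tab.Tab1a
import Pool.Agent.Work.MP_bde882_al_tab.Tab1b
import Pool.Agent.Work.MP_bde882_al_tab.Tab1c
import Pool.Agent.Work.MP_bde882_al_tab.Tab5a
import Pool.Agent.Work.MP_bde882_al_tab.Tab6a

/-!
Kernel checks of the operator tables.
-/

set_option autoImplicit false
set_option maxRecDepth 100000
set_option linter.defProp false

namespace Pool.Agent.Work.MP_bde882_al.TC

open Pool.Agent.Work.MP_bde882_al TS64 H87 Tab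

def c6_2474 : chk24 dm 1 11 (Pg62.trO T6_2474) (Pg62.trO T1_2) (Pg62.trO T5_618) = true := by
  decide +kernel

def v6_2474 : cov dm 0 1 5 12 (Pg62.trO T6_2474) = true := by
  decide +kernel

def c6_2473 : chk24 dm 7 11 (Pg62.trO T6_2473) (Pg62.trO T1_1) (Pg62.trO T5_618) = true := by
  decide +kernel

def v6_2473 : cov dm 0 2 4 18 (Pg62.trO T6_2473) = true := by
  decide +kernel

def c6_2470 : chk24 dm 1 17 (Pg62.trO T6_2470) (Pg62.trO T1_2) (Pg62.trO T5_617) = true := by
  decide +kernel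

def v6_2470 : cov dm 0 2 4 18 (Pg62.trO T6_2470) = true := by
  decide +kernel

def c6_2469 : chk24 dm 7 17 (Pg62.trO T6_2469) (Pg62.trO T1_1) (Pg62.trO T5_617) = true := by
  decide +kernel

def v6_2469 : cov dm 0 3 3 24 (Pg62.trO T6_2469) = true := by
  decide +kernel

def c6_2457 : chk24 dm 7 17 (Pg62.trO T6_2457) (Pg62.trO T1_1) (Pg62.trO T5_614) = true := by
  decide +kernel

def v6_2457 : cov dm 0 3 3 24 (Pg62.trO T6_2457) = true := by
  decide +kernel

def c6_2454 : chk24 dm 1 23 (Pg62.trO T6_2454) (Pg62.trO T1_2) (Pg62.trO T5_613) = true := by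
  decide +kernel

def v6_2454 : cov dm 0 3 3 24 (Pg62.trO T6_2454) = true := by
  decide +kernel

def c6_2453 : chk24 dm 7 23 (Pg62.trO T6_2453) (Pg62.trO T1_1) (Pg62.trO T5_613) = true := by
  decide +kernel

def v6_2453 : cov dm 0 4 2 30 (Pg62.trO T6_2453) = true := by
  decide +kernel

def c6_2393 : chk24 dm 7 23 (Pg62.trO T6_2393) (Pg62.trO T1_1) (Pg62.trO T5_598) = true := by
  decide +kernel

def v6_2393 : cov dm 0 4 2 30 (Pg62.trO T6_2393) = true := by
  decide +kernel

def c6_2389 : chk24 dm 7 29 (Pg62.trO T6_2389) (Pg62.trO T1_1) (Pg62.trO T5_597) = true := by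
  decide +kernel

def v6_2389 : cov dm 0 5 1 36 (Pg62.trO T6_2389) = true := by
  decide +kernel

def c6_2218 : chk24 dm 1 53 (Pg62.trO T6_2218) (Pg62.trO T1_2) (Pg62.trO T5_554) = true := by
  decide +kernel

def v6_2218 : cov dm 1 0 5 54 (Pg62.trO T6_2218) = true := by
  decide +kernel

def c6_2472 : chk24 dm 49 11 (Pg62.trO T6_2472) (Pg62.trO T1_0) (Pg62.trO T5_618) = true := by
  decide +kernel

def v6_2472 : cov dm 1 1 4 60 (Pg62.trO T6_2472) = true := by
  decide +kernel

def c6_2217 : chk24 dm 7 53 (Pg62.trO T6_2217) (Pg62.trO T1_1) (Pg62.trO T5_554) = true := by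
  decide +kernel

def v6_2217 : cov dm 1 1 4 60 (Pg62.trO T6_2217) = true := by
  decide +kernel

def c6_2466 : chk24 dm 1 59 (Pg62.trO T6_2466) (Pg62.trO T1_2) (Pg62.trO T5_616) = true := by
  decide +kernel

def v6_2466 : cov dm 1 1 4 60 (Pg62.trO T6_2466) = true := by
  decide +kernel

def c6_2214 : chk24 dm 1 59 (Pg62.trO T6_2214) (Pg62.trO T1_2) (Pg62.trO T5_553) = true := by
  decide +kernel

def v6_2214 : cov dm 1 1 4 60 (Pg62.trO T6_2214) = true := by
  decide +kernel

def c6_2442 : chk24 dm 1 59 (Pg62.trO T6_2442) (Pg62.trO T1_2) (Pg62.trO T5_610) = true := by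
  decide +kernel

def v6_2442 : cov dm 1 1 4 60 (Pg62.trO T6_2442) = true := by
  decide +kernel

def c6_2468 : chk24 dm 49 17 (Pg62.trO T6_2468) (Pg62.trO T1_0) (Pg62.trO T5_617) = true := by
  decide +kernel

def v6_2468 : cov dm 1 2 3 66 (Pg62.trO T6_2468) = true := by
  decide +kernel

def c6_2456 : chk24 dm 49 17 (Pg62.trO T6_2456) (Pg62.trO T1_0) (Pg62.trO T5_614) = true := by
  decide +kernel

def v6_2456 : cov dm 1 2 3 66 (Pg62.trO T6_2456) = true := by
  decide +kernel

def c6_2465 : chk24 dm 7 59 (Pg62.trO T6_2465) (Pg62.trO T1_1) (Pg62.trO T5_616) = true := by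
  decide +kernel

def v6_2465 : cov dm 1 2 3 66 (Pg62.trO T6_2465) = true := by
  decide +kernel

def c6_2213 : chk24 dm 7 59 (Pg62.trO T6_2213) (Pg62.trO T1_1) (Pg62.trO T5_553) = true := by
  decide +kernel

def v6_2213 : cov dm 1 2 3 66 (Pg62.trO T6_2213) = true := by
  decide +kernel

end Pool.Agent.Work.MP_bde882_al.TC
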