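import Pool.Agent.Work.MP_bde882_al_h64.TabStep4
import Pool.Agent.Work.MP_bde882_al_tab.Tab1a
import Pool.Agent.Work.MP_bde882_al_tab.Tab1b
import Pool.Agent.Work.MP_bde882_al_tab.Tab1c
import Pool.Agent.Work.MP_bde882_al_tab.Tab5a
import Pool.Agent.Work.MP_bde882_al_tab.Tab6a

/-!
Kernel checks of the operator tables.
-/

set_option autoImplicit false
set_option maxRecDepth 100000
set_option linter.defProp false

namespace Pool.Agent.Work.MP_bde882_al.TC

open Pool.Agent.Work.MP_bde882_al TS64 H87 Tab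

def c6_2441 : chk24 dm 7 59 (Pg62.trO T6_2441) (Pg62.trO T1_1) (Pg62.trO T5_610) = true := by
  decide +kernel

def v6_2441 : cov dm 1 2 3 66 (Pg62.trO T6_2441) = true := by
  decide +kernel

def c6_2201 : chk24 dm 7 59 (Pg62.trO T6_2201) (Pg62.trO T1_1) (Pg62.trO T5_550) = true := by
  decide +kernel

def v6_2201 : cov dm 1 2 3 66 (Pg62.trO T6_2201) = true := by
  decide +kernel

def c6_2450 : chk24 dm 1 65 (Pg62.trO T6_2450) (Pg62.trO T1_2) (Pg62.trO T5_612) = true := by
  decide +kernel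

def v6_2450 : cov dm 1 2 3 66 (Pg62.trO T6_2450) = true := by
  decide +kernel

def c6_2438 : chk24 dm 1 65 (Pg62.trO T6_2438) (Pg62.trO T1_2) (Pg62.trO T5_609) = true := by
  decide +kernel

def v6_2438 : cov dm 1 2 3 66 (Pg62.trO T6_2438) = true := by
  decide +kernel

def c6_2198 : chk24 dm 1 65 (Pg62.trO T6_2198) (Pg62.trO T1_2) (Pg62.trO T5_549) = true := by
  decide +kernel

def v6_2198 : cov dm 1 2 3 66 (Pg62.trO T6_2198) = true := by
  decide +kernel

def c6_2342 : chk24 dm 1 65 (Pg62.trO T6_2342) (Pg62.trO T1_2) (Pg62.trO T5_585) = true := by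
  decide +kernel

def v6_2342 : cov dm 1 2 3 66 (Pg62.trO T6_2342) = true := by
  decide +kernel

def c6_2452 : chk24 dm 49 23 (Pg62.trO T6_2452) (Pg62.trO T1_0) (Pg62.trO T5_613) = true := by
  decide +kernel

def v6_2452 : cov dm 1 3 2 72 (Pg62.trO T6_2452) = true := by
  decide +kernel

def c6_2392 : chk24 dm 49 23 (Pg62.trO T6_2392) (Pg62.trO T1_0) (Pg62.trO T5_598) = true := by
  decide +kernel

def v6_2392 : cov dm 1 3 2 72 (Pg62.trO T6_2392) = true := by
  decide +kernel

def c6_2449 : chk24 dm 7 65 (Pg62.trO T6_2449) (Pg62.trO T1_1) (Pg62.trO T5_612) = true := by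
  decide +kernel

def v6_2449 : cov dm 1 3 2 72 (Pg62.trO T6_2449) = true := by
  decide +kernel

end Pool.Agent.Work.MP_bde882_al.TC
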