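import Pool.Agent.Work.MP_bde882_al_h64.TabStep4
import Pool.Agent.Work.MP_bde882_al_tab.Tab1a
import Pool.Agent.Work.MP_bde882_al_tab.Tab1b
import Pool.Agent.Work.MP_bde882_al_tab.Tab1c
import Pool.Agent.Work.MP_bde882_al_tab.Tab5a
import Pool.Agent.Work.MP_bde882_al_tab.Tab6a

/-!
Kernel checks of the operator tables.
-/

set_option autoImplicit false
set_option maxRecDepth 100000
set_option linter.defProp false

namespace Pool.Agent.Work.MP_bde882_al.TC

open Pool.Agent.Work.MP_bde882_al TS64 H87 Tab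

def c6_2437 : chk24 dm 7 65 (Pg62.trO T6_2437) (Pg62.trO T1_1) (Pg62.trO T5_609) = true := by
  decide +kernel

def v6_2437 : cov dm 1 3 2 72 (Pg62.trO T6_2437) = true := by
  decide +kernel

def c6_2197 : chk24 dm 7 65 (Pg62.trO T6_2197) (Pg62.trO T1_1) (Pg62.trO T5_549) = true := by
  decide +kernel

def v6_2197 : cov dm 1 3 2 72 (Pg62.trO T6_2197) = true := by
  decide +kernel

def c6_2341 : chk24 dm 7 65 (Pg62.trO T6_2341) (Pg62.trO T1_1) (Pg62.trO T5_585) = true := by
  decide +kernel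

def v6_2341 : cov dm 1 3 2 72 (Pg62.trO T6_2341) = true := by
  decide +kernel

def c6_2377 : chk24 dm 7 65 (Pg62.trO T6_2377) (Pg62.trO T1_1) (Pg62.trO T5_594) = true := by
  decide +kernel

def v6_2377 : cov dm 1 3 2 72 (Pg62.trO T6_2377) = true := by
  decide +kernel

def c6_2329 : chk24 dm 7 65 (Pg62.trO T6_2329) (Pg62.trO T1_1) (Pg62.trO T5_582) = true := by
  decide +kernel

def v6_2329 : cov dm 1 3 2 72 (Pg62.trO T6_2329) = true := by
  decide +kernel

def c6_2386 : chk24 dm 1 71 (Pg62.trO T6_2386) (Pg62.trO T1_2) (Pg62.trO T5_596) = true := by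
  decide +kernel

def v6_2386 : cov dm 1 3 2 72 (Pg62.trO T6_2386) = true := by
  decide +kernel

def c6_2374 : chk24 dm 1 71 (Pg62.trO T6_2374) (Pg62.trO T1_2) (Pg62.trO T5_593) = true := by
  decide +kernel

def v6_2374 : cov dm 1 3 2 72 (Pg62.trO T6_2374) = true := by
  decide +kernel

def c6_2388 : chk24 dm 49 29 (Pg62.trO T6_2388) (Pg62.trO T1_0) (Pg62.trO T5_597) = true := by
  decide +kernel

def v6_2388 : cov dm 1 4 1 78 (Pg62.trO T6_2388) = true := by
  decide +kernel

def c6_2385 : chk24 dm 7 71 (Pg62.trO T6_2385) (Pg62.trO T1_1) (Pg62.trO T5_596) = true := by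
  decide +kernel

def v6_2385 : cov dm 1 4 1 78 (Pg62.trO T6_2385) = true := by
  decide +kernel

def c6_2373 : chk24 dm 7 71 (Pg62.trO T6_2373) (Pg62.trO T1_1) (Pg62.trO T5_593) = true := by
  decide +kernel

def v6_2373 : cov dm 1 4 1 78 (Pg62.trO T6_2373) = true := by
  decide +kernel

def c6_2325 : chk24 dm 7 71 (Pg62.trO T6_2325) (Pg62.trO T1_1) (Pg62.trO T5_581) = true := by
  decide +kernel

def v6_2325 : cov dm 1 4 1 78 (Pg62.trO T6_2325) = true := by
  decide +kernel

end Pool.Agent.Work.MP_bde882_al.TC
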