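import Pool.Agent.Work.MP_bde882_al_h64.TabStep4
import Pool.Agent.Work.MP_bde882_al_tab.Tab1a
import Pool.Agent.Work.MP_bde882_al_tab.Tab1b
import Pool.Agent.Work.MP_bde882_al_tab.Tab1c
import Pool.Agent.Work.MP_bde882_al_tab.Tab5a
import Pool.Agent.Work.MP_bde882_al_tab.Tab5b
import Pool.Agent.Work.MP_bde882_al_tab.Tab6a
import Pool.Agent.Work.MP_bde882_al_tab.Tab6b

/-!
Kernel checks of the operator tables.
-/

set_option autoImplicit false
set_option maxRecDepth 100000
set_option linter.defProp false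

namespace Pool.Agent.Work.MP_bde882_al.TC

open Pool.Agent.Work.MP_bde882_al TS64 H87 Tab

def c6_2133 : chk24 dm 7 71 (Pg62.trO T6_2133) (Pg62.trO T1_1) (Pg62.trO T5_533) = true := by
  decide +kernel

def v6_2133 : cov dm 1 4 1 78 (Pg62.trO T6_2133) = true := by
  decide +kernel

def c6_1109 : chk24 dm 7 77 (Pg62.trO T6_1109) (Pg62.trO T1_1) (Pg62.trO T5_277) = true := by
  decide +kernel

def v6_1109 : cov dm 1 5 0 84 (Pg62.trO T6_1109) = true := by
  decide +kernel

def c6_2216 : chk24 dm 49 53 (Pg62.trO T6_2216) (Pg62.trO T1_0) (Pg62.trO T5_554) = true := by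
  decide +kernel

def v6_2216 : cov dm 2 0 4 102 (Pg62.trO T6_2216) = true := by
  decide +kernel

def c6_2210 : chk24 dm 1 101 (Pg62.trO T6_2210) (Pg62.trO T1_2) (Pg62.trO T5_552) = true := by
  decide +kernel

def v6_2210 : cov dm 2 0 4 102 (Pg62.trO T6_2210) = true := by
  decide +kernel

def c6_2464 : chk24 dm 49 59 (Pg62.trO T6_2464) (Pg62.trO T1_0) (Pg62.trO T5_616) = true := by
  decide +kernel

def v6_2464 : cov dm 2 1 3 108 (Pg62.trO T6_2464) = true := by
  decide +kernel

def c6_2212 : chk24 dm 49 59 (Pg62.trO T6_2212) (Pg62.trO T1_0) (Pg62.trO T5_553) = true := by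
  decide +kernel

def v6_2212 : cov dm 2 1 3 108 (Pg62.trO T6_2212) = true := by
  decide +kernel

def c6_2440 : chk24 dm 49 59 (Pg62.trO T6_2440) (Pg62.trO T1_0) (Pg62.trO T5_610) = true := by
  decide +kernel

def v6_2440 : cov dm 2 1 3 108 (Pg62.trO T6_2440) = true := by
  decide +kernel

def c6_2200 : chk24 dm 49 59 (Pg62.trO T6_2200) (Pg62.trO T1_0) (Pg62.trO T5_550) = true := by
  decide +kernel

def v6_2200 : cov dm 2 1 3 108 (Pg62.trO T6_2200) = true := by
  decide +kernel

def c6_2209 : chk24 dm 7 101 (Pg62.trO T6_2209) (Pg62.trO T1_1) (Pg62.trO T5_552) = true := by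
  decide +kernel

def v6_2209 : cov dm 2 1 3 108 (Pg62.trO T6_2209) = true := by
  decide +kernel

def c6_2185 : chk24 dm 7 101 (Pg62.trO T6_2185) (Pg62.trO T1_1) (Pg62.trO T5_546) = true := by
  decide +kernel

def v6_2185 : cov dm 2 1 3 108 (Pg62.trO T6_2185) = true := by
  decide +kernel

def c6_2434 : chk24 dm 1 107 (Pg62.trO T6_2434) (Pg62.trO T1_2) (Pg62.trO T5_608) = true := by
  decide +kernel

def v6_2434 : cov dm 2 1 3 108 (Pg62.trO T6_2434) = true := by
  decide +kernel

def c6_2194 : chk24 dm 1 107 (Pg62.trO T6_2194) (Pg62.trO T1_2) (Pg62.trO T5_548) = true := by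
  decide +kernel

def v6_2194 : cov dm 2 1 3 108 (Pg62.trO T6_2194) = true := by
  decide +kernel

end Pool.Agent.Work.MP_bde882_al.TC
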