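import Pool.Agent.Work.MP_bde882_al_h64.TabStep4
import Pool.Agent.Work.MP_bde882_al_tab.Tab1a
import Pool.Agent.Work.MP_bde882_al_tab.Tab1c
import Pool.Agent.Work.MP_bde882_al_tab.Tab5a
import Pool.Agent.Work.MP_bde882_al_tab.Tab5b
import Pool.Agent.Work.MP_bde882_al_tab.Tab6b

/-!
Kernel checks of the operator tables.
-/

set_option autoImplicit false
set_option maxRecDepth 100000
set_option linter.defProp false

namespace Pool.Agent.Work.MP_bde882_al.TC

open Pool.Agent.Work.MP_bde882_al TS64 H87 Tab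

def c6_2338 : chk24 dm 1 107 (Pg62.trO T6_2338) (Pg62.trO T1_2) (Pg62.trO T5_584) = true := by
  decide +kernel

def v6_2338 : cov dm 2 1 3 108 (Pg62.trO T6_2338) = true := by
  decide +kernel

def c6_2182 : chk24 dm 1 107 (Pg62.trO T6_2182) (Pg62.trO T1_2) (Pg62.trO T5_545) = true := by
  decide +kernel

def v6_2182 : cov dm 2 1 3 108 (Pg62.trO T6_2182) = true := by
  decide +kernel

def c6_2448 : chk24 dm 49 65 (Pg62.trO T6_2448) (Pg62.trO T1_0) (Pg62.trO T5_612) = true := by
  decide +kernel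

def v6_2448 : cov dm 2 2 2 114 (Pg62.trO T6_2448) = true := by
  decide +kernel

def c6_2436 : chk24 dm 49 65 (Pg62.trO T6_2436) (Pg62.trO T1_0) (Pg62.trO T5_609) = true := by
  decide +kernel

def v6_2436 : cov dm 2 2 2 114 (Pg62.trO T6_2436) = true := by
  decide +kernel

def c6_2196 : chk24 dm 49 65 (Pg62.trO T6_2196) (Pg62.trO T1_0) (Pg62.trO T5_549) = true := by
  decide +kernel

def v6_2196 : cov dm 2 2 2 114 (Pg62.trO T6_2196) = true := by
  decide +kernel

def c6_2340 : chk24 dm 49 65 (Pg62.trO T6_2340) (Pg62.trO T1_0) (Pg62.trO T5_585) = true := by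
  decide +kernel

def v6_2340 : cov dm 2 2 2 114 (Pg62.trO T6_2340) = true := by
  decide +kernel

def c6_2376 : chk24 dm 49 65 (Pg62.trO T6_2376) (Pg62.trO T1_0) (Pg62.trO T5_594) = true := by
  decide +kernel

def v6_2376 : cov dm 2 2 2 114 (Pg62.trO T6_2376) = true := by
  decide +kernel

end Pool.Agent.Work.MP_bde882_al.TC
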