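import Pool.Agent.Work.MP_bde882_al_h64.TabStep4
import Pool.Agent.Work.MP_bde882_al_tab.Tab1a
import Pool.Agent.Work.MP_bde882_al_tab.Tab1b
import Pool.Agent.Work.MP_bde882_al_tab.Tab5a
import Pool.Agent.Work.MP_bde882_al_tab.Tab5b
import Pool.Agent.Work.MP_bde882_al_tab.Tab6b

/-!
Kernel checks of the operator tables.
-/

set_option autoImplicit false
set_option maxRecDepth 100000
set_option linter.defProp false

namespace Pool.Agent.Work.MP_bde882_al.TC

open Pool.Agent.Work.MP_bde882_al TS64 H87 Tab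

def c6_2328 : chk24 dm 49 65 (Pg62.trO T6_2328) (Pg62.trO T1_0) (Pg62.trO T5_582) = true := by
  decide +kernel

def v6_2328 : cov dm 2 2 2 114 (Pg62.trO T6_2328) = true := by
  decide +kernel

def c6_2433 : chk24 dm 7 107 (Pg62.trO T6_2433) (Pg62.trO T1_1) (Pg62.trO T5_608) = true := by
  decide +kernel

def v6_2433 : cov dm 2 2 2 114 (Pg62.trO T6_2433) = true := by
  decide +kernel

def c6_2193 : chk24 dm 7 107 (Pg62.trO T6_2193) (Pg62.trO T1_1) (Pg62.trO T5_548) = true := by
  decide +kernel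

def v6_2193 : cov dm 2 2 2 114 (Pg62.trO T6_2193) = true := by
  decide +kernel

def c6_2337 : chk24 dm 7 107 (Pg62.trO T6_2337) (Pg62.trO T1_1) (Pg62.trO T5_584) = true := by
  decide +kernel

def v6_2337 : cov dm 2 2 2 114 (Pg62.trO T6_2337) = true := by
  decide +kernel

def c6_2181 : chk24 dm 7 107 (Pg62.trO T6_2181) (Pg62.trO T1_1) (Pg62.trO T5_545) = true := by
  decide +kernel

def v6_2181 : cov dm 2 2 2 114 (Pg62.trO T6_2181) = true := by
  decide +kernel

def c6_2313 : chk24 dm 7 107 (Pg62.trO T6_2313) (Pg62.trO T1_1) (Pg62.trO T5_578) = true := by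
  decide +kernel

def v6_2313 : cov dm 2 2 2 114 (Pg62.trO T6_2313) = true := by
  decide +kernel

def c6_2121 : chk24 dm 7 107 (Pg62.trO T6_2121) (Pg62.trO T1_1) (Pg62.trO T5_530) = true := by
  decide +kernel

def v6_2121 : cov dm 2 2 2 114 (Pg62.trO T6_2121) = true := by
  decide +kernel

end Pool.Agent.Work.MP_bde882_al.TC
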