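import Pool.Agent.Work.MP_bde882_al_h64.TabStep4
import Pool.Agent.Work.MP_bde882_al_tab.Tab1a
import Pool.Agent.Work.MP_bde882_al_tab.Tab1b
import Pool.Agent.Work.MP_bde882_al_tab.Tab1c
import Pool.Agent.Work.MP_bde882_al_tab.Tab5a
import Pool.Agent.Work.MP_bde882_al_tab.Tab5b
import Pool.Agent.Work.MP_bde882_al_tab.Tab6b

/-!
Kernel checks of the operator tables.
-/

set_option autoImplicit false
set_option maxRecDepth 100000
set_option linter.defProp false

namespace Pool.Agent.Work.MP_bde882_al.TC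

open Pool.Agent.Work.MP_bde882_al TS64 H87 Tab

def c6_2370 : chk24 dm 1 113 (Pg62.trO T6_2370) (Pg62.trO T1_2) (Pg62.trO T5_592) = true := by
  decide +kernel

def v6_2370 : cov dm 2 2 2 114 (Pg62.trO T6_2370) = true := by
  decide +kernel

def c6_2322 : chk24 dm 1 113 (Pg62.trO T6_2322) (Pg62.trO T1_2) (Pg62.trO T5_580) = true := by
  decide +kernel

def v6_2322 : cov dm 2 2 2 114 (Pg62.trO T6_2322) = true := by
  decide +kernel

def c6_2384 : chk24 dm 49 71 (Pg62.trO T6_2384) (Pg62.trO T1_0) (Pg62.trO T5_596) = true := by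
  decide +kernel

def v6_2384 : cov dm 2 3 1 120 (Pg62.trO T6_2384) = true := by
  decide +kernel

def c6_2372 : chk24 dm 49 71 (Pg62.trO T6_2372) (Pg62.trO T1_0) (Pg62.trO T5_593) = true := by
  decide +kernel

def v6_2372 : cov dm 2 3 1 120 (Pg62.trO T6_2372) = true := by
  decide +kernel

def c6_2324 : chk24 dm 49 71 (Pg62.trO T6_2324) (Pg62.trO T1_0) (Pg62.trO T5_581) = true := by
  decide +kernel

def v6_2324 : cov dm 2 3 1 120 (Pg62.trO T6_2324) = true := by
  decide +kernel

def c6_2132 : chk24 dm 49 71 (Pg62.trO T6_2132) (Pg62.trO T1_0) (Pg62.trO T5_533) = true := by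
  decide +kernel

def v6_2132 : cov dm 2 3 1 120 (Pg62.trO T6_2132) = true := by
  decide +kernel

def c6_2369 : chk24 dm 7 113 (Pg62.trO T6_2369) (Pg62.trO T1_1) (Pg62.trO T5_592) = true := by
  decide +kernel

def v6_2369 : cov dm 2 3 1 120 (Pg62.trO T6_2369) = true := by
  decide +kernel

def c6_2321 : chk24 dm 7 113 (Pg62.trO T6_2321) (Pg62.trO T1_1) (Pg62.trO T5_580) = true := by
  decide +kernel

def v6_2321 : cov dm 2 3 1 120 (Pg62.trO T6_2321) = true := by
  decide +kernel

def c6_2129 : chk24 dm 7 113 (Pg62.trO T6_2129) (Pg62.trO T1_1) (Pg62.trO T5_532) = true := by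
  decide +kernel

def v6_2129 : cov dm 2 3 1 120 (Pg62.trO T6_2129) = true := by
  decide +kernel

end Pool.Agent.Work.MP_bde882_al.TC
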