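import Pool.Agent.Work.MP_bde882_al_h64.TabStep4
import Pool.Agent.Work.MP_bde882_al_tab.Tab1a
import Pool.Agent.Work.MP_bde882_al_tab.Tab1b
import Pool.Agent.Work.MP_bde882_al_tab.Tab1c
import Pool.Agent.Work.MP_bde882_al_tab.Tab5b
import Pool.Agent.Work.MP_bde882_al_tab.Tab6b
import Pool.Agent.Work.MP_bde882_al_tab.Tab6c

/-!
Kernel checks of the operator tables.
-/

set_option autoImplicit false
set_option maxRecDepth 100000
set_option linter.defProp false

namespace Pool.Agent.Work.MP_bde882_al.TC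

open Pool.Agent.Work.MP_bde882_al TS64 H87 Tab

def c6_2309 : chk24 dm 7 113 (Pg62.trO T6_2309) (Pg62.trO T1_1) (Pg62.trO T5_577) = true := by
  decide +kernel

def v6_2309 : cov dm 2 3 1 120 (Pg62.trO T6_2309) = true := by
  decide +kernel

def c6_2117 : chk24 dm 7 113 (Pg62.trO T6_2117) (Pg62.trO T1_1) (Pg62.trO T5_529) = true := by
  decide +kernel

def v6_2117 : cov dm 2 3 1 120 (Pg62.trO T6_2117) = true := by
  decide +kernel

def c6_2069 : chk24 dm 7 113 (Pg62.trO T6_2069) (Pg62.trO T1_1) (Pg62.trO T5_517) = true := by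
  decide +kernel

def v6_2069 : cov dm 2 3 1 120 (Pg62.trO T6_2069) = true := by
  decide +kernel

def c6_1108 : chk24 dm 49 77 (Pg62.trO T6_1108) (Pg62.trO T1_0) (Pg62.trO T5_277) = true := by
  decide +kernel

def v6_1108 : cov dm 2 4 0 126 (Pg62.trO T6_1108) = true := by
  decide +kernel

def c6_1105 : chk24 dm 7 119 (Pg62.trO T6_1105) (Pg62.trO T1_1) (Pg62.trO T5_276) = true := by
  decide +kernel

def v6_1105 : cov dm 2 4 0 126 (Pg62.trO T6_1105) = true := by
  decide +kernel

def c6_2208 : chk24 dm 49 101 (Pg62.trO T6_2208) (Pg62.trO T1_0) (Pg62.trO T5_552) = true := by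
  decide +kernel

def v6_2208 : cov dm 3 0 3 150 (Pg62.trO T6_2208) = true := by
  decide +kernel

def c6_2184 : chk24 dm 49 101 (Pg62.trO T6_2184) (Pg62.trO T1_0) (Pg62.trO T5_546) = true := by
  decide +kernel

def v6_2184 : cov dm 3 0 3 150 (Pg62.trO T6_2184) = true := by
  decide +kernel

def c6_2178 : chk24 dm 1 149 (Pg62.trO T6_2178) (Pg62.trO T1_2) (Pg62.trO T5_544) = true := by
  decide +kernel

def v6_2178 : cov dm 3 0 3 150 (Pg62.trO T6_2178) = true := by
  decide +kernel

def c6_2432 : chk24 dm 49 107 (Pg62.trO T6_2432) (Pg62.trO T1_0) (Pg62.trO T5_608) = true := by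
  decide +kernel

def v6_2432 : cov dm 3 1 2 156 (Pg62.trO T6_2432) = true := by
  decide +kernel

def c6_2192 : chk24 dm 49 107 (Pg62.trO T6_2192) (Pg62.trO T1_0) (Pg62.trO T5_548) = true := by
  decide +kernel

def v6_2192 : cov dm 3 1 2 156 (Pg62.trO T6_2192) = true := by
  decide +kernel

def c6_2336 : chk24 dm 49 107 (Pg62.trO T6_2336) (Pg62.trO T1_0) (Pg62.trO T5_584) = true := by
  decide +kernel

def v6_2336 : cov dm 3 1 2 156 (Pg62.trO T6_2336) = true := by
  decide +kernel

end Pool.Agent.Work.MP_bde882_al.TC
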