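import Pool.Agent.Work.MP_bde882_al_h64.TabStep4
import Pool.Agent.Work.MP_bde882_al_tab.Tab1a
import Pool.Agent.Work.MP_bde882_al_tab.Tab1b
import Pool.Agent.Work.MP_bde882_al_tab.Tab1c
import Pool.Agent.Work.MP_bde882_al_tab.Tab5b
import Pool.Agent.Work.MP_bde882_al_tab.Tab5c
import Pool.Agent.Work.MP_bde882_al_tab.Tab6c

/-!
Kernel checks of the operator tables.
-/

set_option autoImplicit false
set_option maxRecDepth 100000
set_option linter.defProp false

namespace Pool.Agent.Work.MP_bde882_al.TC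

open Pool.Agent.Work.MP_bde882_al TS64 H87 Tab

def c6_2180 : chk24 dm 49 107 (Pg62.trO T6_2180) (Pg62.trO T1_0) (Pg62.trO T5_545) = true := by
  decide +kernel

def v6_2180 : cov dm 3 1 2 156 (Pg62.trO T6_2180) = true := by
  decide +kernel

def c6_2312 : chk24 dm 49 107 (Pg62.trO T6_2312) (Pg62.trO T1_0) (Pg62.trO T5_578) = true := by
  decide +kernel

def v6_2312 : cov dm 3 1 2 156 (Pg62.trO T6_2312) = true := by
  decide +kernel

def c6_2120 : chk24 dm 49 107 (Pg62.trO T6_2120) (Pg62.trO T1_0) (Pg62.trO T5_530) = true := by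
  decide +kernel

def v6_2120 : cov dm 3 1 2 156 (Pg62.trO T6_2120) = true := by
  decide +kernel

def c6_2177 : chk24 dm 7 149 (Pg62.trO T6_2177) (Pg62.trO T1_1) (Pg62.trO T5_544) = true := by
  decide +kernel

def v6_2177 : cov dm 3 1 2 156 (Pg62.trO T6_2177) = true := by
  decide +kernel

def c6_2057 : chk24 dm 7 149 (Pg62.trO T6_2057) (Pg62.trO T1_1) (Pg62.trO T5_514) = true := by
  decide +kernel

def v6_2057 : cov dm 3 1 2 156 (Pg62.trO T6_2057) = true := by
  decide +kernel

def c6_2306 : chk24 dm 1 155 (Pg62.trO T6_2306) (Pg62.trO T1_2) (Pg62.trO T5_576) = true := by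
  decide +kernel

def v6_2306 : cov dm 3 1 2 156 (Pg62.trO T6_2306) = true := by
  decide +kernel

def c6_2114 : chk24 dm 1 155 (Pg62.trO T6_2114) (Pg62.trO T1_2) (Pg62.trO T5_528) = true := by
  decide +kernel

def v6_2114 : cov dm 3 1 2 156 (Pg62.trO T6_2114) = true := by
  decide +kernel

def c6_2368 : chk24 dm 49 113 (Pg62.trO T6_2368) (Pg62.trO T1_0) (Pg62.trO T5_592) = true := by
  decide +kernel

def v6_2368 : cov dm 3 2 1 162 (Pg62.trO T6_2368) = true := by
  decide +kernel

def c6_2320 : chk24 dm 49 113 (Pg62.trO T6_2320) (Pg62.trO T1_0) (Pg62.trO T5_580) = true := by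
  decide +kernel

def v6_2320 : cov dm 3 2 1 162 (Pg62.trO T6_2320) = true := by
  decide +kernel

end Pool.Agent.Work.MP_bde882_al.TC
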