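import Pool.Agent.Work.MP_bde882_al_h64.TabStep4
import Pool.Agent.Work.MP_bde882_al_tab.Tab1a
import Pool.Agent.Work.MP_bde882_al_tab.Tab1b
import Pool.Agent.Work.MP_bde882_al_tab.Tab5b
import Pool.Agent.Work.MP_bde882_al_tab.Tab5c
import Pool.Agent.Work.MP_bde882_al_tab.Tab6c

/-!
Kernel checks of the operator tables.
-/

set_option autoImplicit false
set_option maxRecDepth 100000
set_option linter.defProp false

namespace Pool.Agent.Work.MP_bde882_al.TC

open Pool.Agent.Work.MP_bde882_al TS64 H87 Tab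

def c6_2128 : chk24 dm 49 113 (Pg62.trO T6_2128) (Pg62.trO T1_0) (Pg62.trO T5_532) = true := by
  decide +kernel

def v6_2128 : cov dm 3 2 1 162 (Pg62.trO T6_2128) = true := by
  decide +kernel

def c6_2308 : chk24 dm 49 113 (Pg62.trO T6_2308) (Pg62.trO T1_0) (Pg62.trO T5_577) = true := by
  decide +kernel

def v6_2308 : cov dm 3 2 1 162 (Pg62.trO T6_2308) = true := by
  decide +kernel

def c6_2116 : chk24 dm 49 113 (Pg62.trO T6_2116) (Pg62.trO T1_0) (Pg62.trO T5_529) = true := by
  decide +kernel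

def v6_2116 : cov dm 3 2 1 162 (Pg62.trO T6_2116) = true := by
  decide +kernel

def c6_2068 : chk24 dm 49 113 (Pg62.trO T6_2068) (Pg62.trO T1_0) (Pg62.trO T5_517) = true := by
  decide +kernel

def v6_2068 : cov dm 3 2 1 162 (Pg62.trO T6_2068) = true := by
  decide +kernel

def c6_2305 : chk24 dm 7 155 (Pg62.trO T6_2305) (Pg62.trO T1_1) (Pg62.trO T5_576) = true := by
  decide +kernel

def v6_2305 : cov dm 3 2 1 162 (Pg62.trO T6_2305) = true := by
  decide +kernel

def c6_2113 : chk24 dm 7 155 (Pg62.trO T6_2113) (Pg62.trO T1_1) (Pg62.trO T5_528) = true := by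
  decide +kernel

def v6_2113 : cov dm 3 2 1 162 (Pg62.trO T6_2113) = true := by
  decide +kernel

def c6_2065 : chk24 dm 7 155 (Pg62.trO T6_2065) (Pg62.trO T1_1) (Pg62.trO T5_516) = true := by
  decide +kernel

def v6_2065 : cov dm 3 2 1 162 (Pg62.trO T6_2065) = true := by
  decide +kernel

def c6_2053 : chk24 dm 7 155 (Pg62.trO T6_2053) (Pg62.trO T1_1) (Pg62.trO T5_513) = true := by
  decide +kernel

def v6_2053 : cov dm 3 2 1 162 (Pg62.trO T6_2053) = true := by
  decide +kernel

def c6_1104 : chk24 dm 49 119 (Pg62.trO T6_1104) (Pg62.trO T1_0) (Pg62.trO T5_276) = true := by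
  decide +kernel

def v6_1104 : cov dm 3 3 0 168 (Pg62.trO T6_1104) = true := by
  decide +kernel

def c6_1092 : chk24 dm 49 119 (Pg62.trO T6_1092) (Pg62.trO T1_0) (Pg62.trO T5_273) = true := by
  decide +kernel

def v6_1092 : cov dm 3 3 0 168 (Pg62.trO T6_1092) = true := by
  decide +kernel

end Pool.Agent.Work.MP_bde882_al.TC
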