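import Pool.Agent.Work.MP_bde882_al_h64.TabStep4
import Pool.Agent.Work.MP_bde882_al_tab.Tab1a
import Pool.Agent.Work.MP_bde882_al_tab.Tab1b
import Pool.Agent.Work.MP_bde882_al_tab.Tab1c
import Pool.Agent.Work.MP_bde882_al_tab.Tab5b
import Pool.Agent.Work.MP_bde882_al_tab.Tab5c
import Pool.Agent.Work.MP_bde882_al_tab.Tab6c

/-!
Kernel checks of the operator tables.
-/

set_option autoImplicit false
set_option maxRecDepth 100000
set_option linter.defProp false

namespace Pool.Agent.Work.MP_bde882_al.TC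

open Pool.Agent.Work.MP_bde882_al TS64 H87 Tab

def c6_1089 : chk24 dm 7 161 (Pg62.trO T6_1089) (Pg62.trO T1_1) (Pg62.trO T5_272) = true := by
  decide +kernel

def v6_1089 : cov dm 3 3 0 168 (Pg62.trO T6_1089) = true := by
  decide +kernel

def c6_2176 : chk24 dm 49 149 (Pg62.trO T6_2176) (Pg62.trO T1_0) (Pg62.trO T5_544) = true := by
  decide +kernel

def v6_2176 : cov dm 4 0 2 198 (Pg62.trO T6_2176) = true := by
  decide +kernel

def c6_2056 : chk24 dm 49 149 (Pg62.trO T6_2056) (Pg62.trO T1_0) (Pg62.trO T5_514) = true := by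
  decide +kernel

def v6_2056 : cov dm 4 0 2 198 (Pg62.trO T6_2056) = true := by
  decide +kernel

def c6_2304 : chk24 dm 49 155 (Pg62.trO T6_2304) (Pg62.trO T1_0) (Pg62.trO T5_576) = true := by
  decide +kernel

def v6_2304 : cov dm 4 1 1 204 (Pg62.trO T6_2304) = true := by
  decide +kernel

def c6_2112 : chk24 dm 49 155 (Pg62.trO T6_2112) (Pg62.trO T1_0) (Pg62.trO T5_528) = true := by
  decide +kernel

def v6_2112 : cov dm 4 1 1 204 (Pg62.trO T6_2112) = true := by
  decide +kernel

def c6_2064 : chk24 dm 49 155 (Pg62.trO T6_2064) (Pg62.trO T1_0) (Pg62.trO T5_516) = true := by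
  decide +kernel

def v6_2064 : cov dm 4 1 1 204 (Pg62.trO T6_2064) = true := by
  decide +kernel

def c6_2052 : chk24 dm 49 155 (Pg62.trO T6_2052) (Pg62.trO T1_0) (Pg62.trO T5_513) = true := by
  decide +kernel

def v6_2052 : cov dm 4 1 1 204 (Pg62.trO T6_2052) = true := by
  decide +kernel

def c6_2049 : chk24 dm 7 197 (Pg62.trO T6_2049) (Pg62.trO T1_1) (Pg62.trO T5_512) = true := by
  decide +kernel

def v6_2049 : cov dm 4 1 1 204 (Pg62.trO T6_2049) = true := by
  decide +kernel

def c6_1088 : chk24 dm 49 161 (Pg62.trO T6_1088) (Pg62.trO T1_0) (Pg62.trO T5_272) = true := by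
  decide +kernel

def v6_1088 : cov dm 4 2 0 210 (Pg62.trO T6_1088) = true := by
  decide +kernel

def c6_1028 : chk24 dm 49 161 (Pg62.trO T6_1028) (Pg62.trO T1_0) (Pg62.trO T5_257) = true := by
  decide +kernel

def v6_1028 : cov dm 4 2 0 210 (Pg62.trO T6_1028) = true := by
  decide +kernel

def c6_2048 : chk24 dm 49 197 (Pg62.trO T6_2048) (Pg62.trO T1_0) (Pg62.trO T5_512) = true := by
  decide +kernel

def v6_2048 : cov dm 5 0 1 246 (Pg62.trO T6_2048) = true := by
  decide +kernel

def c6_1024 : chk24 dm 49 203 (Pg62.trO T6_1024) (Pg62.trO T1_0) (Pg62.trO T5_256) = true := by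
  decide +kernel

def v6_1024 : cov dm 5 1 0 252 (Pg62.trO T6_1024) = true := by
  decide +kernel

def c6_1706 : chk24 dm 1 11 (Pg62.trO T6_1706) (Pg62.trO T1_2) (Pg62.trO T5_426) = true := by
  decide +kernel

def v6_1706 : cov dm 0 1 5 12 (Pg62.trO T6_1706) = true := by
  decide +kernel

end Pool.Agent.Work.MP_bde882_al.TC
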