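import Pool.Agent.Work.MP_bde882_al_h64.TabStep4
import Pool.Agent.Work.MP_bde882_al_tab.Tab1a
import Pool.Agent.Work.MP_bde882_al_tab.Tab1b
import Pool.Agent.Work.MP_bde882_al_tab.Tab1c
import Pool.Agent.Work.MP_bde882_al_tab.Tab6a
import Pool.Agent.Work.MP_bde882_al_tab.Tab7a

/-!
Kernel checks of the operator tables.
-/

set_option autoImplicit false
set_option maxRecDepth 100000
set_option linter.defProp false

namespace Pool.Agent.Work.MP_bde882_al.TC

open Pool.Agent.Work.MP_bde882_al TS64 H87 Tab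

def c7_9898 : chk24 dm 1 12 (Pg62.trO T7_9898) (Pg62.trO T1_2) (Pg62.trO T6_2474) = true := by
  decide +kernel

def v7_9898 : cov dm 0 1 6 13 (Pg62.trO T7_9898) = true := by
  decide +kernel

def c7_9897 : chk24 dm 7 12 (Pg62.trO T7_9897) (Pg62.trO T1_1) (Pg62.trO T6_2474) = true := by
  decide +kernel

def v7_9897 : cov dm 0 2 5 19 (Pg62.trO T7_9897) = true := by
  decide +kernel

def c7_9894 : chk24 dm 1 18 (Pg62.trO T7_9894) (Pg62.trO T1_2) (Pg62.trO T6_2473) = true := by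
  decide +kernel

def v7_9894 : cov dm 0 2 5 19 (Pg62.trO T7_9894) = true := by
  decide +kernel

def c7_9882 : chk24 dm 1 18 (Pg62.trO T7_9882) (Pg62.trO T1_2) (Pg62.trO T6_2470) = true := by
  decide +kernel

def v7_9882 : cov dm 0 2 5 19 (Pg62.trO T7_9882) = true := by
  decide +kernel

def c7_9893 : chk24 dm 7 18 (Pg62.trO T7_9893) (Pg62.trO T1_1) (Pg62.trO T6_2473) = true := by
  decide +kernel

def v7_9893 : cov dm 0 3 4 25 (Pg62.trO T7_9893) = true := by
  decide +kernel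

def c7_9881 : chk24 dm 7 18 (Pg62.trO T7_9881) (Pg62.trO T1_1) (Pg62.trO T6_2470) = true := by
  decide +kernel

def v7_9881 : cov dm 0 3 4 25 (Pg62.trO T7_9881) = true := by
  decide +kernel

def c7_9878 : chk24 dm 1 24 (Pg62.trO T7_9878) (Pg62.trO T1_2) (Pg62.trO T6_2469) = true := by
  decide +kernel

def v7_9878 : cov dm 0 3 4 25 (Pg62.trO T7_9878) = true := by
  decide +kernel

def c7_9830 : chk24 dm 1 24 (Pg62.trO T7_9830) (Pg62.trO T1_2) (Pg62.trO T6_2457) = true := by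
  decide +kernel

def v7_9830 : cov dm 0 3 4 25 (Pg62.trO T7_9830) = true := by
  decide +kernel

def c7_9818 : chk24 dm 1 24 (Pg62.trO T7_9818) (Pg62.trO T1_2) (Pg62.trO T6_2454) = true := by
  decide +kernel

def v7_9818 : cov dm 0 3 4 25 (Pg62.trO T7_9818) = true := by
  decide +kernel

def c7_9877 : chk24 dm 7 24 (Pg62.trO T7_9877) (Pg62.trO T1_1) (Pg62.trO T6_2469) = true := by
  decide +kernel

def v7_9877 : cov dm 0 4 3 31 (Pg62.trO T7_9877) = true := by
  decide +kernel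

def c7_9829 : chk24 dm 7 24 (Pg62.trO T7_9829) (Pg62.trO T1_1) (Pg62.trO T6_2457) = true := by
  decide +kernel

def v7_9829 : cov dm 0 4 3 31 (Pg62.trO T7_9829) = true := by
  decide +kernel

def c7_9817 : chk24 dm 7 24 (Pg62.trO T7_9817) (Pg62.trO T1_1) (Pg62.trO T6_2454) = true := by
  decide +kernel

def v7_9817 : cov dm 0 4 3 31 (Pg62.trO T7_9817) = true := by
  decide +kernel

def c7_9814 : chk24 dm 1 30 (Pg62.trO T7_9814) (Pg62.trO T1_2) (Pg62.trO T6_2453) = true := by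
  decide +kernel

def v7_9814 : cov dm 0 4 3 31 (Pg62.trO T7_9814) = true := by
  decide +kernel

def c7_9574 : chk24 dm 1 30 (Pg62.trO T7_9574) (Pg62.trO T1_2) (Pg62.trO T6_2393) = true := by
  decide +kernel

def v7_9574 : cov dm 0 4 3 31 (Pg62.trO T7_9574) = true := by
  decide +kernel

def c7_9813 : chk24 dm 7 30 (Pg62.trO T7_9813) (Pg62.trO T1_1) (Pg62.trO T6_2453) = true := by
  decide +kernel

def v7_9813 : cov dm 0 5 2 37 (Pg62.trO T7_9813) = true := by
  decide +kernel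

def c7_9573 : chk24 dm 7 30 (Pg62.trO T7_9573) (Pg62.trO T1_1) (Pg62.trO T6_2393) = true := by
  decide +kernel

def v7_9573 : cov dm 0 5 2 37 (Pg62.trO T7_9573) = true := by
  decide +kernel

def c7_9558 : chk24 dm 1 36 (Pg62.trO T7_9558) (Pg62.trO T1_2) (Pg62.trO T6_2389) = true := by
  decide +kernel

def v7_9558 : cov dm 0 5 2 37 (Pg62.trO T7_9558) = true := by
  decide +kernel

def c7_9557 : chk24 dm 7 36 (Pg62.trO T7_9557) (Pg62.trO T1_1) (Pg62.trO T6_2389) = true := by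
  decide +kernel

def v7_9557 : cov dm 0 6 1 43 (Pg62.trO T7_9557) = true := by
  decide +kernel

def c7_8874 : chk24 dm 1 54 (Pg62.trO T7_8874) (Pg62.trO T1_2) (Pg62.trO T6_2218) = true := by
  decide +kernel

def v7_8874 : cov dm 1 0 6 55 (Pg62.trO T7_8874) = true := by
  decide +kernel

def c7_9896 : chk24 dm 49 12 (Pg62.trO T7_9896) (Pg62.trO T1_0) (Pg62.trO T6_2474) = true := by
  decide +kernel

def v7_9896 : cov dm 1 1 5 61 (Pg62.trO T7_9896) = true := by
  decide +kernel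

def c7_8873 : chk24 dm 7 54 (Pg62.trO T7_8873) (Pg62.trO T1_1) (Pg62.trO T6_2218) = true := by
  decide +kernel

def v7_8873 : cov dm 1 1 5 61 (Pg62.trO T7_8873) = true := by
  decide +kernel

def c7_9890 : chk24 dm 1 60 (Pg62.trO T7_9890) (Pg62.trO T1_2) (Pg62.trO T6_2472) = true := by
  decide +kernel

def v7_9890 : cov dm 1 1 5 61 (Pg62.trO T7_9890) = true := by
  decide +kernel

def c7_8870 : chk24 dm 1 60 (Pg62.trO T7_8870) (Pg62.trO T1_2) (Pg62.trO T6_2217) = true := by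
  decide +kernel

def v7_8870 : cov dm 1 1 5 61 (Pg62.trO T7_8870) = true := by
  decide +kernel

def c7_9866 : chk24 dm 1 60 (Pg62.trO T7_9866) (Pg62.trO T1_2) (Pg62.trO T6_2466) = true := by
  decide +kernel

def v7_9866 : cov dm 1 1 5 61 (Pg62.trO T7_9866) = true := by
  decide +kernel

def c7_8858 : chk24 dm 1 60 (Pg62.trO T7_8858) (Pg62.trO T1_2) (Pg62.trO T6_2214) = true := by
  decide +kernel

def v7_8858 : cov dm 1 1 5 61 (Pg62.trO T7_8858) = true := by
  decide +kernel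

def c7_9892 : chk24 dm 49 18 (Pg62.trO T7_9892) (Pg62.trO T1_0) (Pg62.trO T6_2473) = true := by
  decide +kernel

def v7_9892 : cov dm 1 2 4 67 (Pg62.trO T7_9892) = true := by
  decide +kernel

def c7_9880 : chk24 dm 49 18 (Pg62.trO T7_9880) (Pg62.trO T1_0) (Pg62.trO T6_2470) = true := by
  decide +kernel

def v7_9880 : cov dm 1 2 4 67 (Pg62.trO T7_9880) = true := by
  decide +kernel

def c7_9889 : chk24 dm 7 60 (Pg62.trO T7_9889) (Pg62.trO T1_1) (Pg62.trO T6_2472) = true := by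
  decide +kernel

def v7_9889 : cov dm 1 2 4 67 (Pg62.trO T7_9889) = true := by
  decide +kernel

def c7_8869 : chk24 dm 7 60 (Pg62.trO T7_8869) (Pg62.trO T1_1) (Pg62.trO T6_2217) = true := by
  decide +kernel

def v7_8869 : cov dm 1 2 4 67 (Pg62.trO T7_8869) = true := by
  decide +kernel

def c7_9865 : chk24 dm 7 60 (Pg62.trO T7_9865) (Pg62.trO T1_1) (Pg62.trO T6_2466) = true := by
  decide +kernel

def v7_9865 : cov dm 1 2 4 67 (Pg62.trO T7_9865) = true := by
  decide +kernel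

def c7_8857 : chk24 dm 7 60 (Pg62.trO T7_8857) (Pg62.trO T1_1) (Pg62.trO T6_2214) = true := by
  decide +kernel

def v7_8857 : cov dm 1 2 4 67 (Pg62.trO T7_8857) = true := by
  decide +kernel

def c7_9769 : chk24 dm 7 60 (Pg62.trO T7_9769) (Pg62.trO T1_1) (Pg62.trO T6_2442) = true := by
  decide +kernel

def v7_9769 : cov dm 1 2 4 67 (Pg62.trO T7_9769) = true := by
  decide +kernel

def c7_9874 : chk24 dm 1 66 (Pg62.trO T7_9874) (Pg62.trO T1_2) (Pg62.trO T6_2468) = true := by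
  decide +kernel

def v7_9874 : cov dm 1 2 4 67 (Pg62.trO T7_9874) = true := by
  decide +kernel

def c7_9826 : chk24 dm 1 66 (Pg62.trO T7_9826) (Pg62.trO T1_2) (Pg62.trO T6_2456) = true := by
  decide +kernel

def v7_9826 : cov dm 1 2 4 67 (Pg62.trO T7_9826) = true := by
  decide +kernel

def c7_9862 : chk24 dm 1 66 (Pg62.trO T7_9862) (Pg62.trO T1_2) (Pg62.trO T6_2465) = true := by
  decide +kernel

def v7_9862 : cov dm 1 2 4 67 (Pg62.trO T7_9862) = true := by
  decide +kernel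

def c7_8854 : chk24 dm 1 66 (Pg62.trO T7_8854) (Pg62.trO T1_2) (Pg62.trO T6_2213) = true := by
  decide +kernel

def v7_8854 : cov dm 1 2 4 67 (Pg62.trO T7_8854) = true := by
  decide +kernel

def c7_9766 : chk24 dm 1 66 (Pg62.trO T7_9766) (Pg62.trO T1_2) (Pg62.trO T6_2441) = true := by
  decide +kernel

def v7_9766 : cov dm 1 2 4 67 (Pg62.trO T7_9766) = true := by
  decide +kernel

def c7_8806 : chk24 dm 1 66 (Pg62.trO T7_8806) (Pg62.trO T1_2) (Pg62.trO T6_2201) = true := by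
  decide +kernel

def v7_8806 : cov dm 1 2 4 67 (Pg62.trO T7_8806) = true := by
  decide +kernel

def c7_9802 : chk24 dm 1 66 (Pg62.trO T7_9802) (Pg62.trO T1_2) (Pg62.trO T6_2450) = true := by
  decide +kernel

def v7_9802 : cov dm 1 2 4 67 (Pg62.trO T7_9802) = true := by
  decide +kernel

def c7_9754 : chk24 dm 1 66 (Pg62.trO T7_9754) (Pg62.trO T1_2) (Pg62.trO T6_2438) = true := by
  decide +kernel

def v7_9754 : cov dm 1 2 4 67 (Pg62.trO T7_9754) = true := by
  decide +kernel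

def c7_9876 : chk24 dm 49 24 (Pg62.trO T7_9876) (Pg62.trO T1_0) (Pg62.trO T6_2469) = true := by
  decide +kernel

def v7_9876 : cov dm 1 3 3 73 (Pg62.trO T7_9876) = true := by
  decide +kernel

def c7_9828 : chk24 dm 49 24 (Pg62.trO T7_9828) (Pg62.trO T1_0) (Pg62.trO T6_2457) = true := by
  decide +kernel

def v7_9828 : cov dm 1 3 3 73 (Pg62.trO T7_9828) = true := by
  decide +kernel

def c7_9816 : chk24 dm 49 24 (Pg62.trO T7_9816) (Pg62.trO T1_0) (Pg62.trO T6_2454) = true := by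
  decide +kernel

def v7_9816 : cov dm 1 3 3 73 (Pg62.trO T7_9816) = true := by
  decide +kernel

end Pool.Agent.Work.MP_bde882_al.TC
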