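import Pool.Agent.Work.MP_bde882_al_h64.TabStep4
import Pool.Agent.Work.MP_bde882_al_tab.Tab1a
import Pool.Agent.Work.MP_bde882_al_tab.Tab1b
import Pool.Agent.Work.MP_bde882_al_tab.Tab1c
import Pool.Agent.Work.MP_bde882_al_tab.Tab6a
import Pool.Agent.Work.MP_bde882_al_tab.Tab7a

/-!
Kernel checks of the operator tables.
-/

set_option autoImplicit false
set_option maxRecDepth 100000
set_option linter.defProp false

namespace Pool.Agent.Work.MP_bde882_al.TC

open Pool.Agent.Work.MP_bde882_al TS64 H87 Tab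

def c7_9873 : chk24 dm 7 66 (Pg62.trO T7_9873) (Pg62.trO T1_1) (Pg62.trO T6_2468) = true := by
  decide +kernel

def v7_9873 : cov dm 1 3 3 73 (Pg62.trO T7_9873) = true := by
  decide +kernel

def c7_9825 : chk24 dm 7 66 (Pg62.trO T7_9825) (Pg62.trO T1_1) (Pg62.trO T6_2456) = true := by
  decide +kernel

def v7_9825 : cov dm 1 3 3 73 (Pg62.trO T7_9825) = true := by
  decide +kernel

def c7_9861 : chk24 dm 7 66 (Pg62.trO T7_9861) (Pg62.trO T1_1) (Pg62.trO T6_2465) = true := by
  decide +kernel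

def v7_9861 : cov dm 1 3 3 73 (Pg62.trO T7_9861) = true := by
  decide +kernel

def c7_8853 : chk24 dm 7 66 (Pg62.trO T7_8853) (Pg62.trO T1_1) (Pg62.trO T6_2213) = true := by
  decide +kernel

def v7_8853 : cov dm 1 3 3 73 (Pg62.trO T7_8853) = true := by
  decide +kernel

def c7_9765 : chk24 dm 7 66 (Pg62.trO T7_9765) (Pg62.trO T1_1) (Pg62.trO T6_2441) = true := by
  decide +kernel

def v7_9765 : cov dm 1 3 3 73 (Pg62.trO T7_9765) = true := by
  decide +kernel

def c7_8805 : chk24 dm 7 66 (Pg62.trO T7_8805) (Pg62.trO T1_1) (Pg62.trO T6_2201) = true := by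
  decide +kernel

def v7_8805 : cov dm 1 3 3 73 (Pg62.trO T7_8805) = true := by
  decide +kernel

def c7_9801 : chk24 dm 7 66 (Pg62.trO T7_9801) (Pg62.trO T1_1) (Pg62.trO T6_2450) = true := by
  decide +kernel

def v7_9801 : cov dm 1 3 3 73 (Pg62.trO T7_9801) = true := by
  decide +kernel

def c7_9753 : chk24 dm 7 66 (Pg62.trO T7_9753) (Pg62.trO T1_1) (Pg62.trO T6_2438) = true := by
  decide +kernel

def v7_9753 : cov dm 1 3 3 73 (Pg62.trO T7_9753) = true := by
  decide +kernel

def c7_8793 : chk24 dm 7 66 (Pg62.trO T7_8793) (Pg62.trO T1_1) (Pg62.trO T6_2198) = true := by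
  decide +kernel

def v7_8793 : cov dm 1 3 3 73 (Pg62.trO T7_8793) = true := by
  decide +kernel

def c7_9369 : chk24 dm 7 66 (Pg62.trO T7_9369) (Pg62.trO T1_1) (Pg62.trO T6_2342) = true := by
  decide +kernel

def v7_9369 : cov dm 1 3 3 73 (Pg62.trO T7_9369) = true := by
  decide +kernel

def c7_9810 : chk24 dm 1 72 (Pg62.trO T7_9810) (Pg62.trO T1_2) (Pg62.trO T6_2452) = true := by
  decide +kernel

def v7_9810 : cov dm 1 3 3 73 (Pg62.trO T7_9810) = true := by
  decide +kernel

def c7_9570 : chk24 dm 1 72 (Pg62.trO T7_9570) (Pg62.trO T1_2) (Pg62.trO T6_2392) = true := by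
  decide +kernel

def v7_9570 : cov dm 1 3 3 73 (Pg62.trO T7_9570) = true := by
  decide +kernel

def c7_9798 : chk24 dm 1 72 (Pg62.trO T7_9798) (Pg62.trO T1_2) (Pg62.trO T6_2449) = true := by
  decide +kernel

def v7_9798 : cov dm 1 3 3 73 (Pg62.trO T7_9798) = true := by
  decide +kernel

def c7_9750 : chk24 dm 1 72 (Pg62.trO T7_9750) (Pg62.trO T1_2) (Pg62.trO T6_2437) = true := by
  decide +kernel

def v7_9750 : cov dm 1 3 3 73 (Pg62.trO T7_9750) = true := by
  decide +kernel

def c7_8790 : chk24 dm 1 72 (Pg62.trO T7_8790) (Pg62.trO T1_2) (Pg62.trO T6_2197) = true := by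
  decide +kernel

def v7_8790 : cov dm 1 3 3 73 (Pg62.trO T7_8790) = true := by
  decide +kernel

def c7_9366 : chk24 dm 1 72 (Pg62.trO T7_9366) (Pg62.trO T1_2) (Pg62.trO T6_2341) = true := by
  decide +kernel

def v7_9366 : cov dm 1 3 3 73 (Pg62.trO T7_9366) = true := by
  decide +kernel

def c7_9318 : chk24 dm 1 72 (Pg62.trO T7_9318) (Pg62.trO T1_2) (Pg62.trO T6_2329) = true := by
  decide +kernel

def v7_9318 : cov dm 1 3 3 73 (Pg62.trO T7_9318) = true := by
  decide +kernel

def c7_9812 : chk24 dm 49 30 (Pg62.trO T7_9812) (Pg62.trO T1_0) (Pg62.trO T6_2453) = true := by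
  decide +kernel

def v7_9812 : cov dm 1 4 2 79 (Pg62.trO T7_9812) = true := by
  decide +kernel

end Pool.Agent.Work.MP_bde882_al.TC
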