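import Pool.Agent.Work.MP_bde882_al_h64.TabStep4
import Pool.Agent.Work.MP_bde882_al_tab.Tab1a
import Pool.Agent.Work.MP_bde882_al_tab.Tab1b
import Pool.Agent.Work.MP_bde882_al_tab.Tab1c
import Pool.Agent.Work.MP_bde882_al_tab.Tab6a
import Pool.Agent.Work.MP_bde882_al_tab.Tab6b
import Pool.Agent.Work.MP_bde882_al_tab.Tab7a
import Pool.Agent.Work.MP_bde882_al_tab.Tab7b

/-!
Kernel checks of the operator tables.
-/

set_option autoImplicit false
set_option maxRecDepth 100000
set_option linter.defProp false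

namespace Pool.Agent.Work.MP_bde882_al.TC

open Pool.Agent.Work.MP_bde882_al TS64 H87 Tab

def c7_9572 : chk24 dm 49 30 (Pg62.trO T7_9572) (Pg62.trO T1_0) (Pg62.trO T6_2393) = true := by
  decide +kernel

def v7_9572 : cov dm 1 4 2 79 (Pg62.trO T7_9572) = true := by
  decide +kernel

def c7_9809 : chk24 dm 7 72 (Pg62.trO T7_9809) (Pg62.trO T1_1) (Pg62.trO T6_2452) = true := by
  decide +kernel

def v7_9809 : cov dm 1 4 2 79 (Pg62.trO T7_9809) = true := by
  decide +kernel

def c7_9569 : chk24 dm 7 72 (Pg62.trO T7_9569) (Pg62.trO T1_1) (Pg62.trO T6_2392) = true := by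
  decide +kernel

def v7_9569 : cov dm 1 4 2 79 (Pg62.trO T7_9569) = true := by
  decide +kernel

def c7_9797 : chk24 dm 7 72 (Pg62.trO T7_9797) (Pg62.trO T1_1) (Pg62.trO T6_2449) = true := by
  decide +kernel

def v7_9797 : cov dm 1 4 2 79 (Pg62.trO T7_9797) = true := by
  decide +kernel

def c7_9749 : chk24 dm 7 72 (Pg62.trO T7_9749) (Pg62.trO T1_1) (Pg62.trO T6_2437) = true := by
  decide +kernel

def v7_9749 : cov dm 1 4 2 79 (Pg62.trO T7_9749) = true := by
  decide +kernel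

def c7_8789 : chk24 dm 7 72 (Pg62.trO T7_8789) (Pg62.trO T1_1) (Pg62.trO T6_2197) = true := by
  decide +kernel

def v7_8789 : cov dm 1 4 2 79 (Pg62.trO T7_8789) = true := by
  decide +kernel

def c7_9365 : chk24 dm 7 72 (Pg62.trO T7_9365) (Pg62.trO T1_1) (Pg62.trO T6_2341) = true := by
  decide +kernel

def v7_9365 : cov dm 1 4 2 79 (Pg62.trO T7_9365) = true := by
  decide +kernel

def c7_9509 : chk24 dm 7 72 (Pg62.trO T7_9509) (Pg62.trO T1_1) (Pg62.trO T6_2377) = true := by
  decide +kernel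

def v7_9509 : cov dm 1 4 2 79 (Pg62.trO T7_9509) = true := by
  decide +kernel

def c7_9317 : chk24 dm 7 72 (Pg62.trO T7_9317) (Pg62.trO T1_1) (Pg62.trO T6_2329) = true := by
  decide +kernel

def v7_9317 : cov dm 1 4 2 79 (Pg62.trO T7_9317) = true := by
  decide +kernel

def c7_9545 : chk24 dm 7 72 (Pg62.trO T7_9545) (Pg62.trO T1_1) (Pg62.trO T6_2386) = true := by
  decide +kernel

def v7_9545 : cov dm 1 4 2 79 (Pg62.trO T7_9545) = true := by
  decide +kernel

def c7_9497 : chk24 dm 7 72 (Pg62.trO T7_9497) (Pg62.trO T1_1) (Pg62.trO T6_2374) = true := by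
  decide +kernel

def v7_9497 : cov dm 1 4 2 79 (Pg62.trO T7_9497) = true := by
  decide +kernel

def c7_9554 : chk24 dm 1 78 (Pg62.trO T7_9554) (Pg62.trO T1_2) (Pg62.trO T6_2388) = true := by
  decide +kernel

def v7_9554 : cov dm 1 4 2 79 (Pg62.trO T7_9554) = true := by
  decide +kernel

def c7_9542 : chk24 dm 1 78 (Pg62.trO T7_9542) (Pg62.trO T1_2) (Pg62.trO T6_2385) = true := by
  decide +kernel

def v7_9542 : cov dm 1 4 2 79 (Pg62.trO T7_9542) = true := by
  decide +kernel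

def c7_9494 : chk24 dm 1 78 (Pg62.trO T7_9494) (Pg62.trO T1_2) (Pg62.trO T6_2373) = true := by
  decide +kernel

def v7_9494 : cov dm 1 4 2 79 (Pg62.trO T7_9494) = true := by
  decide +kernel

def c7_9556 : chk24 dm 49 36 (Pg62.trO T7_9556) (Pg62.trO T1_0) (Pg62.trO T6_2389) = true := by
  decide +kernel

def v7_9556 : cov dm 1 5 1 85 (Pg62.trO T7_9556) = true := by
  decide +kernel

def c7_9553 : chk24 dm 7 78 (Pg62.trO T7_9553) (Pg62.trO T1_1) (Pg62.trO T6_2388) = true := by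
  decide +kernel

def v7_9553 : cov dm 1 5 1 85 (Pg62.trO T7_9553) = true := by
  decide +kernel

def c7_9541 : chk24 dm 7 78 (Pg62.trO T7_9541) (Pg62.trO T1_1) (Pg62.trO T6_2385) = true := by
  decide +kernel

def v7_9541 : cov dm 1 5 1 85 (Pg62.trO T7_9541) = true := by
  decide +kernel

def c7_9493 : chk24 dm 7 78 (Pg62.trO T7_9493) (Pg62.trO T1_1) (Pg62.trO T6_2373) = true := by
  decide +kernel

def v7_9493 : cov dm 1 5 1 85 (Pg62.trO T7_9493) = true := by
  decide +kernel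

def c7_9301 : chk24 dm 7 78 (Pg62.trO T7_9301) (Pg62.trO T1_1) (Pg62.trO T6_2325) = true := by
  decide +kernel

def v7_9301 : cov dm 1 5 1 85 (Pg62.trO T7_9301) = true := by
  decide +kernel

def c7_8533 : chk24 dm 7 78 (Pg62.trO T7_8533) (Pg62.trO T1_1) (Pg62.trO T6_2133) = true := by
  decide +kernel

def v7_8533 : cov dm 1 5 1 85 (Pg62.trO T7_8533) = true := by
  decide +kernel

def c7_4437 : chk24 dm 7 84 (Pg62.trO T7_4437) (Pg62.trO T1_1) (Pg62.trO T6_1109) = true := by
  decide +kernel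

def v7_4437 : cov dm 1 6 0 91 (Pg62.trO T7_4437) = true := by
  decide +kernel

def c7_8872 : chk24 dm 49 54 (Pg62.trO T7_8872) (Pg62.trO T1_0) (Pg62.trO T6_2218) = true := by
  decide +kernel

def v7_8872 : cov dm 2 0 5 103 (Pg62.trO T7_8872) = true := by
  decide +kernel

def c7_8866 : chk24 dm 1 102 (Pg62.trO T7_8866) (Pg62.trO T1_2) (Pg62.trO T6_2216) = true := by
  decide +kernel

def v7_8866 : cov dm 2 0 5 103 (Pg62.trO T7_8866) = true := by
  decide +kernel

def c7_8842 : chk24 dm 1 102 (Pg62.trO T7_8842) (Pg62.trO T1_2) (Pg62.trO T6_2210) = true := by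
  decide +kernel

def v7_8842 : cov dm 2 0 5 103 (Pg62.trO T7_8842) = true := by
  decide +kernel

def c7_9888 : chk24 dm 49 60 (Pg62.trO T7_9888) (Pg62.trO T1_0) (Pg62.trO T6_2472) = true := by
  decide +kernel

def v7_9888 : cov dm 2 1 4 109 (Pg62.trO T7_9888) = true := by
  decide +kernel

def c7_8868 : chk24 dm 49 60 (Pg62.trO T7_8868) (Pg62.trO T1_0) (Pg62.trO T6_2217) = true := by
  decide +kernel

def v7_8868 : cov dm 2 1 4 109 (Pg62.trO T7_8868) = true := by
  decide +kernel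

def c7_9864 : chk24 dm 49 60 (Pg62.trO T7_9864) (Pg62.trO T1_0) (Pg62.trO T6_2466) = true := by
  decide +kernel

def v7_9864 : cov dm 2 1 4 109 (Pg62.trO T7_9864) = true := by
  decide +kernel

def c7_8856 : chk24 dm 49 60 (Pg62.trO T7_8856) (Pg62.trO T1_0) (Pg62.trO T6_2214) = true := by
  decide +kernel

def v7_8856 : cov dm 2 1 4 109 (Pg62.trO T7_8856) = true := by
  decide +kernel

def c7_9768 : chk24 dm 49 60 (Pg62.trO T7_9768) (Pg62.trO T1_0) (Pg62.trO T6_2442) = true := by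
  decide +kernel

def v7_9768 : cov dm 2 1 4 109 (Pg62.trO T7_9768) = true := by
  decide +kernel

def c7_8865 : chk24 dm 7 102 (Pg62.trO T7_8865) (Pg62.trO T1_1) (Pg62.trO T6_2216) = true := by
  decide +kernel

def v7_8865 : cov dm 2 1 4 109 (Pg62.trO T7_8865) = true := by
  decide +kernel

def c7_8841 : chk24 dm 7 102 (Pg62.trO T7_8841) (Pg62.trO T1_1) (Pg62.trO T6_2210) = true := by
  decide +kernel

def v7_8841 : cov dm 2 1 4 109 (Pg62.trO T7_8841) = true := by
  decide +kernel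

def c7_9858 : chk24 dm 1 108 (Pg62.trO T7_9858) (Pg62.trO T1_2) (Pg62.trO T6_2464) = true := by
  decide +kernel

def v7_9858 : cov dm 2 1 4 109 (Pg62.trO T7_9858) = true := by
  decide +kernel

def c7_8850 : chk24 dm 1 108 (Pg62.trO T7_8850) (Pg62.trO T1_2) (Pg62.trO T6_2212) = true := by
  decide +kernel

def v7_8850 : cov dm 2 1 4 109 (Pg62.trO T7_8850) = true := by
  decide +kernel

def c7_9762 : chk24 dm 1 108 (Pg62.trO T7_9762) (Pg62.trO T1_2) (Pg62.trO T6_2440) = true := by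
  decide +kernel

def v7_9762 : cov dm 2 1 4 109 (Pg62.trO T7_9762) = true := by
  decide +kernel

end Pool.Agent.Work.MP_bde882_al.TC
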