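import Pool.Agent.Work.MP_bde882_al_h64.TabStep4
import Pool.Agent.Work.MP_bde882_al_tab.Tab1a
import Pool.Agent.Work.MP_bde882_al_tab.Tab1c
import Pool.Agent.Work.MP_bde882_al_tab.Tab6a
import Pool.Agent.Work.MP_bde882_al_tab.Tab6b
import Pool.Agent.Work.MP_bde882_al_tab.Tab7b

/-!
Kernel checks of the operator tables.
-/

set_option autoImplicit false
set_option maxRecDepth 100000
set_option linter.defProp false

namespace Pool.Agent.Work.MP_bde882_al.TC

open Pool.Agent.Work.MP_bde882_al TS64 H87 Tab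

def c7_8802 : chk24 dm 1 108 (Pg62.trO T7_8802) (Pg62.trO T1_2) (Pg62.trO T6_2200) = true := by
  decide +kernel

def v7_8802 : cov dm 2 1 4 109 (Pg62.trO T7_8802) = true := by
  decide +kernel

def c7_8838 : chk24 dm 1 108 (Pg62.trO T7_8838) (Pg62.trO T1_2) (Pg62.trO T6_2209) = true := by
  decide +kernel

def v7_8838 : cov dm 2 1 4 109 (Pg62.trO T7_8838) = true := by
  decide +kernel

def c7_8742 : chk24 dm 1 108 (Pg62.trO T7_8742) (Pg62.trO T1_2) (Pg62.trO T6_2185) = true := by
  decide +kernel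

def v7_8742 : cov dm 2 1 4 109 (Pg62.trO T7_8742) = true := by
  decide +kernel

def c7_9738 : chk24 dm 1 108 (Pg62.trO T7_9738) (Pg62.trO T1_2) (Pg62.trO T6_2434) = true := by
  decide +kernel

def v7_9738 : cov dm 2 1 4 109 (Pg62.trO T7_9738) = true := by
  decide +kernel

def c7_8778 : chk24 dm 1 108 (Pg62.trO T7_8778) (Pg62.trO T1_2) (Pg62.trO T6_2194) = true := by
  decide +kernel

def v7_8778 : cov dm 2 1 4 109 (Pg62.trO T7_8778) = true := by
  decide +kernel

def c7_9872 : chk24 dm 49 66 (Pg62.trO T7_9872) (Pg62.trO T1_0) (Pg62.trO T6_2468) = true := by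
  decide +kernel

def v7_9872 : cov dm 2 2 3 115 (Pg62.trO T7_9872) = true := by
  decide +kernel

def c7_9824 : chk24 dm 49 66 (Pg62.trO T7_9824) (Pg62.trO T1_0) (Pg62.trO T6_2456) = true := by
  decide +kernel

def v7_9824 : cov dm 2 2 3 115 (Pg62.trO T7_9824) = true := by
  decide +kernel

def c7_9860 : chk24 dm 49 66 (Pg62.trO T7_9860) (Pg62.trO T1_0) (Pg62.trO T6_2465) = true := by
  decide +kernel

def v7_9860 : cov dm 2 2 3 115 (Pg62.trO T7_9860) = true := by
  decide +kernel

def c7_8852 : chk24 dm 49 66 (Pg62.trO T7_8852) (Pg62.trO T1_0) (Pg62.trO T6_2213) = true := by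
  decide +kernel

def v7_8852 : cov dm 2 2 3 115 (Pg62.trO T7_8852) = true := by
  decide +kernel

def c7_9764 : chk24 dm 49 66 (Pg62.trO T7_9764) (Pg62.trO T1_0) (Pg62.trO T6_2441) = true := by
  decide +kernel

def v7_9764 : cov dm 2 2 3 115 (Pg62.trO T7_9764) = true := by
  decide +kernel

def c7_8804 : chk24 dm 49 66 (Pg62.trO T7_8804) (Pg62.trO T1_0) (Pg62.trO T6_2201) = true := by
  decide +kernel

def v7_8804 : cov dm 2 2 3 115 (Pg62.trO T7_8804) = true := by
  decide +kernel

def c7_9800 : chk24 dm 49 66 (Pg62.trO T7_9800) (Pg62.trO T1_0) (Pg62.trO T6_2450) = true := by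
  decide +kernel

def v7_9800 : cov dm 2 2 3 115 (Pg62.trO T7_9800) = true := by
  decide +kernel

def c7_9752 : chk24 dm 49 66 (Pg62.trO T7_9752) (Pg62.trO T1_0) (Pg62.trO T6_2438) = true := by
  decide +kernel

def v7_9752 : cov dm 2 2 3 115 (Pg62.trO T7_9752) = true := by
  decide +kernel

def c7_8792 : chk24 dm 49 66 (Pg62.trO T7_8792) (Pg62.trO T1_0) (Pg62.trO T6_2198) = true := by
  decide +kernel

def v7_8792 : cov dm 2 2 3 115 (Pg62.trO T7_8792) = true := by
  decide +kernel

end Pool.Agent.Work.MP_bde882_al.TC
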