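import Pool.Agent.Work.MP_bde882_al_h64.TabStep4
import Pool.Agent.Work.MP_bde882_al_tab.Tab1a
import Pool.Agent.Work.MP_bde882_al_tab.Tab1b
import Pool.Agent.Work.MP_bde882_al_tab.Tab6a
import Pool.Agent.Work.MP_bde882_al_tab.Tab6b
import Pool.Agent.Work.MP_bde882_al_tab.Tab7b

/-!
Kernel checks of the operator tables.
-/

set_option autoImplicit false
set_option maxRecDepth 100000
set_option linter.defProp false

namespace Pool.Agent.Work.MP_bde882_al.TC

open Pool.Agent.Work.MP_bde882_al TS64 H87 Tab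

def c7_9368 : chk24 dm 49 66 (Pg62.trO T7_9368) (Pg62.trO T1_0) (Pg62.trO T6_2342) = true := by
  decide +kernel

def v7_9368 : cov dm 2 2 3 115 (Pg62.trO T7_9368) = true := by
  decide +kernel

def c7_9857 : chk24 dm 7 108 (Pg62.trO T7_9857) (Pg62.trO T1_1) (Pg62.trO T6_2464) = true := by
  decide +kernel

def v7_9857 : cov dm 2 2 3 115 (Pg62.trO T7_9857) = true := by
  decide +kernel

def c7_8849 : chk24 dm 7 108 (Pg62.trO T7_8849) (Pg62.trO T1_1) (Pg62.trO T6_2212) = true := by
  decide +kernel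

def v7_8849 : cov dm 2 2 3 115 (Pg62.trO T7_8849) = true := by
  decide +kernel

def c7_9761 : chk24 dm 7 108 (Pg62.trO T7_9761) (Pg62.trO T1_1) (Pg62.trO T6_2440) = true := by
  decide +kernel

def v7_9761 : cov dm 2 2 3 115 (Pg62.trO T7_9761) = true := by
  decide +kernel

def c7_8801 : chk24 dm 7 108 (Pg62.trO T7_8801) (Pg62.trO T1_1) (Pg62.trO T6_2200) = true := by
  decide +kernel

def v7_8801 : cov dm 2 2 3 115 (Pg62.trO T7_8801) = true := by
  decide +kernel

def c7_8837 : chk24 dm 7 108 (Pg62.trO T7_8837) (Pg62.trO T1_1) (Pg62.trO T6_2209) = true := by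
  decide +kernel

def v7_8837 : cov dm 2 2 3 115 (Pg62.trO T7_8837) = true := by
  decide +kernel

def c7_8741 : chk24 dm 7 108 (Pg62.trO T7_8741) (Pg62.trO T1_1) (Pg62.trO T6_2185) = true := by
  decide +kernel

def v7_8741 : cov dm 2 2 3 115 (Pg62.trO T7_8741) = true := by
  decide +kernel

def c7_9737 : chk24 dm 7 108 (Pg62.trO T7_9737) (Pg62.trO T1_1) (Pg62.trO T6_2434) = true := by
  decide +kernel

def v7_9737 : cov dm 2 2 3 115 (Pg62.trO T7_9737) = true := by
  decide +kernel

def c7_8777 : chk24 dm 7 108 (Pg62.trO T7_8777) (Pg62.trO T1_1) (Pg62.trO T6_2194) = true := by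
  decide +kernel

def v7_8777 : cov dm 2 2 3 115 (Pg62.trO T7_8777) = true := by
  decide +kernel

def c7_9353 : chk24 dm 7 108 (Pg62.trO T7_9353) (Pg62.trO T1_1) (Pg62.trO T6_2338) = true := by
  decide +kernel

def v7_9353 : cov dm 2 2 3 115 (Pg62.trO T7_9353) = true := by
  decide +kernel

def c7_8729 : chk24 dm 7 108 (Pg62.trO T7_8729) (Pg62.trO T1_1) (Pg62.trO T6_2182) = true := by
  decide +kernel

def v7_8729 : cov dm 2 2 3 115 (Pg62.trO T7_8729) = true := by
  decide +kernel

end Pool.Agent.Work.MP_bde882_al.TC
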