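import Pool.Agent.Work.MP_bde882_al_h64.TabStep4
import Pool.Agent.Work.MP_bde882_al_tab.Tab1c
import Pool.Agent.Work.MP_bde882_al_tab.Tab6b
import Pool.Agent.Work.MP_bde882_al_tab.Tab7b

/-!
Kernel checks of the operator tables.
-/

set_option autoImplicit false
set_option maxRecDepth 100000
set_option linter.defProp false

namespace Pool.Agent.Work.MP_bde882_al.TC

open Pool.Agent.Work.MP_bde882_al TS64 H87 Tab

def c7_9794 : chk24 dm 1 114 (Pg62.trO T7_9794) (Pg62.trO T1_2) (Pg62.trO T6_2448) = true := by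
  decide +kernel

def v7_9794 : cov dm 2 2 3 115 (Pg62.trO T7_9794) = true := by
  decide +kernel

def c7_9746 : chk24 dm 1 114 (Pg62.trO T7_9746) (Pg62.trO T1_2) (Pg62.trO T6_2436) = true := by
  decide +kernel

def v7_9746 : cov dm 2 2 3 115 (Pg62.trO T7_9746) = true := by
  decide +kernel

def c7_8786 : chk24 dm 1 114 (Pg62.trO T7_8786) (Pg62.trO T1_2) (Pg62.trO T6_2196) = true := by
  decide +kernel

def v7_8786 : cov dm 2 2 3 115 (Pg62.trO T7_8786) = true := by
  decide +kernel

def c7_9362 : chk24 dm 1 114 (Pg62.trO T7_9362) (Pg62.trO T1_2) (Pg62.trO T6_2340) = true := by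
  decide +kernel

def v7_9362 : cov dm 2 2 3 115 (Pg62.trO T7_9362) = true := by
  decide +kernel

def c7_9506 : chk24 dm 1 114 (Pg62.trO T7_9506) (Pg62.trO T1_2) (Pg62.trO T6_2376) = true := by
  decide +kernel

def v7_9506 : cov dm 2 2 3 115 (Pg62.trO T7_9506) = true := by
  decide +kernel

def c7_9314 : chk24 dm 1 114 (Pg62.trO T7_9314) (Pg62.trO T1_2) (Pg62.trO T6_2328) = true := by
  decide +kernel

def v7_9314 : cov dm 2 2 3 115 (Pg62.trO T7_9314) = true := by
  decide +kernel

def c7_9734 : chk24 dm 1 114 (Pg62.trO T7_9734) (Pg62.trO T1_2) (Pg62.trO T6_2433) = true := by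
  decide +kernel

def v7_9734 : cov dm 2 2 3 115 (Pg62.trO T7_9734) = true := by
  decide +kernel

def c7_8774 : chk24 dm 1 114 (Pg62.trO T7_8774) (Pg62.trO T1_2) (Pg62.trO T6_2193) = true := by
  decide +kernel

def v7_8774 : cov dm 2 2 3 115 (Pg62.trO T7_8774) = true := by
  decide +kernel

def c7_9350 : chk24 dm 1 114 (Pg62.trO T7_9350) (Pg62.trO T1_2) (Pg62.trO T6_2337) = true := by
  decide +kernel

def v7_9350 : cov dm 2 2 3 115 (Pg62.trO T7_9350) = true := by
  decide +kernel

def c7_8726 : chk24 dm 1 114 (Pg62.trO T7_8726) (Pg62.trO T1_2) (Pg62.trO T6_2181) = true := by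
  decide +kernel

def v7_8726 : cov dm 2 2 3 115 (Pg62.trO T7_8726) = true := by
  decide +kernel

end Pool.Agent.Work.MP_bde882_al.TC
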