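import Pool.Agent.Work.MP_bde882_al_h64.TabStep4
import Pool.Agent.Work.MP_bde882_al_tab.Tab1a
import Pool.Agent.Work.MP_bde882_al_tab.Tab1b
import Pool.Agent.Work.MP_bde882_al_tab.Tab6a
import Pool.Agent.Work.MP_bde882_al_tab.Tab6b
import Pool.Agent.Work.MP_bde882_al_tab.Tab7b

/-!
Kernel checks of the operator tables.
-/

set_option autoImplicit false
set_option maxRecDepth 100000
set_option linter.defProp false

namespace Pool.Agent.Work.MP_bde882_al.TC

open Pool.Agent.Work.MP_bde882_al TS64 H87 Tab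

def c7_9808 : chk24 dm 49 72 (Pg62.trO T7_9808) (Pg62.trO T1_0) (Pg62.trO T6_2452) = true := by
  decide +kernel

def v7_9808 : cov dm 2 3 2 121 (Pg62.trO T7_9808) = true := by
  decide +kernel

def c7_9568 : chk24 dm 49 72 (Pg62.trO T7_9568) (Pg62.trO T1_0) (Pg62.trO T6_2392) = true := by
  decide +kernel

def v7_9568 : cov dm 2 3 2 121 (Pg62.trO T7_9568) = true := by
  decide +kernel

def c7_9796 : chk24 dm 49 72 (Pg62.trO T7_9796) (Pg62.trO T1_0) (Pg62.trO T6_2449) = true := by
  decide +kernel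

def v7_9796 : cov dm 2 3 2 121 (Pg62.trO T7_9796) = true := by
  decide +kernel

def c7_9748 : chk24 dm 49 72 (Pg62.trO T7_9748) (Pg62.trO T1_0) (Pg62.trO T6_2437) = true := by
  decide +kernel

def v7_9748 : cov dm 2 3 2 121 (Pg62.trO T7_9748) = true := by
  decide +kernel

def c7_8788 : chk24 dm 49 72 (Pg62.trO T7_8788) (Pg62.trO T1_0) (Pg62.trO T6_2197) = true := by
  decide +kernel

def v7_8788 : cov dm 2 3 2 121 (Pg62.trO T7_8788) = true := by
  decide +kernel

def c7_9364 : chk24 dm 49 72 (Pg62.trO T7_9364) (Pg62.trO T1_0) (Pg62.trO T6_2341) = true := by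
  decide +kernel

def v7_9364 : cov dm 2 3 2 121 (Pg62.trO T7_9364) = true := by
  decide +kernel

def c7_9508 : chk24 dm 49 72 (Pg62.trO T7_9508) (Pg62.trO T1_0) (Pg62.trO T6_2377) = true := by
  decide +kernel

def v7_9508 : cov dm 2 3 2 121 (Pg62.trO T7_9508) = true := by
  decide +kernel

def c7_9316 : chk24 dm 49 72 (Pg62.trO T7_9316) (Pg62.trO T1_0) (Pg62.trO T6_2329) = true := by
  decide +kernel

def v7_9316 : cov dm 2 3 2 121 (Pg62.trO T7_9316) = true := by
  decide +kernel

def c7_9544 : chk24 dm 49 72 (Pg62.trO T7_9544) (Pg62.trO T1_0) (Pg62.trO T6_2386) = true := by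
  decide +kernel

def v7_9544 : cov dm 2 3 2 121 (Pg62.trO T7_9544) = true := by
  decide +kernel

def c7_9496 : chk24 dm 49 72 (Pg62.trO T7_9496) (Pg62.trO T1_0) (Pg62.trO T6_2374) = true := by
  decide +kernel

def v7_9496 : cov dm 2 3 2 121 (Pg62.trO T7_9496) = true := by
  decide +kernel

def c7_9793 : chk24 dm 7 114 (Pg62.trO T7_9793) (Pg62.trO T1_1) (Pg62.trO T6_2448) = true := by
  decide +kernel

def v7_9793 : cov dm 2 3 2 121 (Pg62.trO T7_9793) = true := by
  decide +kernel

end Pool.Agent.Work.MP_bde882_al.TC
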