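import Pool.Agent.Work.MP_bde882_al_h64.TabStep4
import Pool.Agent.Work.MP_bde882_al_tab.Tab1b
import Pool.Agent.Work.MP_bde882_al_tab.Tab6b
import Pool.Agent.Work.MP_bde882_al_tab.Tab7b
import Pool.Agent.Work.MP_bde882_al_tab.Tab7c

/-!
Kernel checks of the operator tables.
-/

set_option autoImplicit false
set_option maxRecDepth 100000
set_option linter.defProp false

namespace Pool.Agent.Work.MP_bde882_al.TC

open Pool.Agent.Work.MP_bde882_al TS64 H87 Tab

def c7_9745 : chk24 dm 7 114 (Pg62.trO T7_9745) (Pg62.trO T1_1) (Pg62.trO T6_2436) = true := by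
  decide +kernel

def v7_9745 : cov dm 2 3 2 121 (Pg62.trO T7_9745) = true := by
  decide +kernel

def c7_8785 : chk24 dm 7 114 (Pg62.trO T7_8785) (Pg62.trO T1_1) (Pg62.trO T6_2196) = true := by
  decide +kernel

def v7_8785 : cov dm 2 3 2 121 (Pg62.trO T7_8785) = true := by
  decide +kernel

def c7_9361 : chk24 dm 7 114 (Pg62.trO T7_9361) (Pg62.trO T1_1) (Pg62.trO T6_2340) = true := by
  decide +kernel

def v7_9361 : cov dm 2 3 2 121 (Pg62.trO T7_9361) = true := by
  decide +kernel

def c7_9505 : chk24 dm 7 114 (Pg62.trO T7_9505) (Pg62.trO T1_1) (Pg62.trO T6_2376) = true := by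
  decide +kernel

def v7_9505 : cov dm 2 3 2 121 (Pg62.trO T7_9505) = true := by
  decide +kernel

def c7_9313 : chk24 dm 7 114 (Pg62.trO T7_9313) (Pg62.trO T1_1) (Pg62.trO T6_2328) = true := by
  decide +kernel

def v7_9313 : cov dm 2 3 2 121 (Pg62.trO T7_9313) = true := by
  decide +kernel

def c7_9733 : chk24 dm 7 114 (Pg62.trO T7_9733) (Pg62.trO T1_1) (Pg62.trO T6_2433) = true := by
  decide +kernel

def v7_9733 : cov dm 2 3 2 121 (Pg62.trO T7_9733) = true := by
  decide +kernel

def c7_8773 : chk24 dm 7 114 (Pg62.trO T7_8773) (Pg62.trO T1_1) (Pg62.trO T6_2193) = true := by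
  decide +kernel

def v7_8773 : cov dm 2 3 2 121 (Pg62.trO T7_8773) = true := by
  decide +kernel

def c7_9349 : chk24 dm 7 114 (Pg62.trO T7_9349) (Pg62.trO T1_1) (Pg62.trO T6_2337) = true := by
  decide +kernel

def v7_9349 : cov dm 2 3 2 121 (Pg62.trO T7_9349) = true := by
  decide +kernel

def c7_8725 : chk24 dm 7 114 (Pg62.trO T7_8725) (Pg62.trO T1_1) (Pg62.trO T6_2181) = true := by
  decide +kernel

def v7_8725 : cov dm 2 3 2 121 (Pg62.trO T7_8725) = true := by
  decide +kernel

def c7_9253 : chk24 dm 7 114 (Pg62.trO T7_9253) (Pg62.trO T1_1) (Pg62.trO T6_2313) = true := by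
  decide +kernel

def v7_9253 : cov dm 2 3 2 121 (Pg62.trO T7_9253) = true := by
  decide +kernel

end Pool.Agent.Work.MP_bde882_al.TC
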