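import Pool.Agent.Work.MP_bde882_al_h64.TabStep4
import Pool.Agent.Work.MP_bde882_al_tab.Tab1a
import Pool.Agent.Work.MP_bde882_al_tab.Tab1b
import Pool.Agent.Work.MP_bde882_al_tab.Tab1c
import Pool.Agent.Work.MP_bde882_al_tab.Tab6a
import Pool.Agent.Work.MP_bde882_al_tab.Tab6b
import Pool.Agent.Work.MP_bde882_al_tab.Tab7c

/-!
Kernel checks of the operator tables.
-/

set_option autoImplicit false
set_option maxRecDepth 100000
set_option linter.defProp false

namespace Pool.Agent.Work.MP_bde882_al.TC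

open Pool.Agent.Work.MP_bde882_al TS64 H87 Tab

def c7_8485 : chk24 dm 7 114 (Pg62.trO T7_8485) (Pg62.trO T1_1) (Pg62.trO T6_2121) = true := by
  decide +kernel

def v7_8485 : cov dm 2 3 2 121 (Pg62.trO T7_8485) = true := by
  decide +kernel

def c7_9481 : chk24 dm 7 114 (Pg62.trO T7_9481) (Pg62.trO T1_1) (Pg62.trO T6_2370) = true := by
  decide +kernel

def v7_9481 : cov dm 2 3 2 121 (Pg62.trO T7_9481) = true := by
  decide +kernel

def c7_9289 : chk24 dm 7 114 (Pg62.trO T7_9289) (Pg62.trO T1_1) (Pg62.trO T6_2322) = true := by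
  decide +kernel

def v7_9289 : cov dm 2 3 2 121 (Pg62.trO T7_9289) = true := by
  decide +kernel

def c7_9538 : chk24 dm 1 120 (Pg62.trO T7_9538) (Pg62.trO T1_2) (Pg62.trO T6_2384) = true := by
  decide +kernel

def v7_9538 : cov dm 2 3 2 121 (Pg62.trO T7_9538) = true := by
  decide +kernel

def c7_9490 : chk24 dm 1 120 (Pg62.trO T7_9490) (Pg62.trO T1_2) (Pg62.trO T6_2372) = true := by
  decide +kernel

def v7_9490 : cov dm 2 3 2 121 (Pg62.trO T7_9490) = true := by
  decide +kernel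

def c7_9298 : chk24 dm 1 120 (Pg62.trO T7_9298) (Pg62.trO T1_2) (Pg62.trO T6_2324) = true := by
  decide +kernel

def v7_9298 : cov dm 2 3 2 121 (Pg62.trO T7_9298) = true := by
  decide +kernel

def c7_8530 : chk24 dm 1 120 (Pg62.trO T7_8530) (Pg62.trO T1_2) (Pg62.trO T6_2132) = true := by
  decide +kernel

def v7_8530 : cov dm 2 3 2 121 (Pg62.trO T7_8530) = true := by
  decide +kernel

def c7_9478 : chk24 dm 1 120 (Pg62.trO T7_9478) (Pg62.trO T1_2) (Pg62.trO T6_2369) = true := by
  decide +kernel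

def v7_9478 : cov dm 2 3 2 121 (Pg62.trO T7_9478) = true := by
  decide +kernel

def c7_9286 : chk24 dm 1 120 (Pg62.trO T7_9286) (Pg62.trO T1_2) (Pg62.trO T6_2321) = true := by
  decide +kernel

def v7_9286 : cov dm 2 3 2 121 (Pg62.trO T7_9286) = true := by
  decide +kernel

def c7_9552 : chk24 dm 49 78 (Pg62.trO T7_9552) (Pg62.trO T1_0) (Pg62.trO T6_2388) = true := by
  decide +kernel

def v7_9552 : cov dm 2 4 1 127 (Pg62.trO T7_9552) = true := by
  decide +kernel

def c7_9540 : chk24 dm 49 78 (Pg62.trO T7_9540) (Pg62.trO T1_0) (Pg62.trO T6_2385) = true := by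
  decide +kernel

def v7_9540 : cov dm 2 4 1 127 (Pg62.trO T7_9540) = true := by
  decide +kernel

def c7_9492 : chk24 dm 49 78 (Pg62.trO T7_9492) (Pg62.trO T1_0) (Pg62.trO T6_2373) = true := by
  decide +kernel

def v7_9492 : cov dm 2 4 1 127 (Pg62.trO T7_9492) = true := by
  decide +kernel

def c7_9300 : chk24 dm 49 78 (Pg62.trO T7_9300) (Pg62.trO T1_0) (Pg62.trO T6_2325) = true := by
  decide +kernel

def v7_9300 : cov dm 2 4 1 127 (Pg62.trO T7_9300) = true := by
  decide +kernel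

def c7_8532 : chk24 dm 49 78 (Pg62.trO T7_8532) (Pg62.trO T1_0) (Pg62.trO T6_2133) = true := by
  decide +kernel

def v7_8532 : cov dm 2 4 1 127 (Pg62.trO T7_8532) = true := by
  decide +kernel

def c7_9537 : chk24 dm 7 120 (Pg62.trO T7_9537) (Pg62.trO T1_1) (Pg62.trO T6_2384) = true := by
  decide +kernel

def v7_9537 : cov dm 2 4 1 127 (Pg62.trO T7_9537) = true := by
  decide +kernel

end Pool.Agent.Work.MP_bde882_al.TC
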