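import Pool.Agent.Work.MP_bde882_al_h64.TabStep4
import Pool.Agent.Work.MP_bde882_al_tab.Tab1a
import Pool.Agent.Work.MP_bde882_al_tab.Tab1b
import Pool.Agent.Work.MP_bde882_al_tab.Tab1c
import Pool.Agent.Work.MP_bde882_al_tab.Tab6a
import Pool.Agent.Work.MP_bde882_al_tab.Tab6b
import Pool.Agent.Work.MP_bde882_al_tab.Tab6c
import Pool.Agent.Work.MP_bde882_al_tab.Tab7c

/-!
Kernel checks of the operator tables.
-/

set_option autoImplicit false
set_option maxRecDepth 100000
set_option linter.defProp false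

namespace Pool.Agent.Work.MP_bde882_al.TC

open Pool.Agent.Work.MP_bde882_al TS64 H87 Tab

def c7_9489 : chk24 dm 7 120 (Pg62.trO T7_9489) (Pg62.trO T1_1) (Pg62.trO T6_2372) = true := by
  decide +kernel

def v7_9489 : cov dm 2 4 1 127 (Pg62.trO T7_9489) = true := by
  decide +kernel

def c7_9297 : chk24 dm 7 120 (Pg62.trO T7_9297) (Pg62.trO T1_1) (Pg62.trO T6_2324) = true := by
  decide +kernel

def v7_9297 : cov dm 2 4 1 127 (Pg62.trO T7_9297) = true := by
  decide +kernel

def c7_8529 : chk24 dm 7 120 (Pg62.trO T7_8529) (Pg62.trO T1_1) (Pg62.trO T6_2132) = true := by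
  decide +kernel

def v7_8529 : cov dm 2 4 1 127 (Pg62.trO T7_8529) = true := by
  decide +kernel

def c7_9477 : chk24 dm 7 120 (Pg62.trO T7_9477) (Pg62.trO T1_1) (Pg62.trO T6_2369) = true := by
  decide +kernel

def v7_9477 : cov dm 2 4 1 127 (Pg62.trO T7_9477) = true := by
  decide +kernel

def c7_9285 : chk24 dm 7 120 (Pg62.trO T7_9285) (Pg62.trO T1_1) (Pg62.trO T6_2321) = true := by
  decide +kernel

def v7_9285 : cov dm 2 4 1 127 (Pg62.trO T7_9285) = true := by
  decide +kernel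

def c7_8517 : chk24 dm 7 120 (Pg62.trO T7_8517) (Pg62.trO T1_1) (Pg62.trO T6_2129) = true := by
  decide +kernel

def v7_8517 : cov dm 2 4 1 127 (Pg62.trO T7_8517) = true := by
  decide +kernel

def c7_9237 : chk24 dm 7 120 (Pg62.trO T7_9237) (Pg62.trO T1_1) (Pg62.trO T6_2309) = true := by
  decide +kernel

def v7_9237 : cov dm 2 4 1 127 (Pg62.trO T7_9237) = true := by
  decide +kernel

def c7_8469 : chk24 dm 7 120 (Pg62.trO T7_8469) (Pg62.trO T1_1) (Pg62.trO T6_2117) = true := by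
  decide +kernel

def v7_8469 : cov dm 2 4 1 127 (Pg62.trO T7_8469) = true := by
  decide +kernel

def c7_8277 : chk24 dm 7 120 (Pg62.trO T7_8277) (Pg62.trO T1_1) (Pg62.trO T6_2069) = true := by
  decide +kernel

def v7_8277 : cov dm 2 4 1 127 (Pg62.trO T7_8277) = true := by
  decide +kernel

def c7_4436 : chk24 dm 49 84 (Pg62.trO T7_4436) (Pg62.trO T1_0) (Pg62.trO T6_1109) = true := by
  decide +kernel

def v7_4436 : cov dm 2 5 0 133 (Pg62.trO T7_4436) = true := by
  decide +kernel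

def c7_4433 : chk24 dm 7 126 (Pg62.trO T7_4433) (Pg62.trO T1_1) (Pg62.trO T6_1108) = true := by
  decide +kernel

def v7_4433 : cov dm 2 5 0 133 (Pg62.trO T7_4433) = true := by
  decide +kernel

def c7_4421 : chk24 dm 7 126 (Pg62.trO T7_4421) (Pg62.trO T1_1) (Pg62.trO T6_1105) = true := by
  decide +kernel

def v7_4421 : cov dm 2 5 0 133 (Pg62.trO T7_4421) = true := by
  decide +kernel

def c7_8864 : chk24 dm 49 102 (Pg62.trO T7_8864) (Pg62.trO T1_0) (Pg62.trO T6_2216) = true := by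
  decide +kernel

def v7_8864 : cov dm 3 0 4 151 (Pg62.trO T7_8864) = true := by
  decide +kernel

def c7_8840 : chk24 dm 49 102 (Pg62.trO T7_8840) (Pg62.trO T1_0) (Pg62.trO T6_2210) = true := by
  decide +kernel

def v7_8840 : cov dm 3 0 4 151 (Pg62.trO T7_8840) = true := by
  decide +kernel

def c7_8834 : chk24 dm 1 150 (Pg62.trO T7_8834) (Pg62.trO T1_2) (Pg62.trO T6_2208) = true := by
  decide +kernel

def v7_8834 : cov dm 3 0 4 151 (Pg62.trO T7_8834) = true := by
  decide +kernel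

def c7_8738 : chk24 dm 1 150 (Pg62.trO T7_8738) (Pg62.trO T1_2) (Pg62.trO T6_2184) = true := by
  decide +kernel

def v7_8738 : cov dm 3 0 4 151 (Pg62.trO T7_8738) = true := by
  decide +kernel

def c7_8714 : chk24 dm 1 150 (Pg62.trO T7_8714) (Pg62.trO T1_2) (Pg62.trO T6_2178) = true := by
  decide +kernel

def v7_8714 : cov dm 3 0 4 151 (Pg62.trO T7_8714) = true := by
  decide +kernel

def c7_9856 : chk24 dm 49 108 (Pg62.trO T7_9856) (Pg62.trO T1_0) (Pg62.trO T6_2464) = true := by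
  decide +kernel

def v7_9856 : cov dm 3 1 3 157 (Pg62.trO T7_9856) = true := by
  decide +kernel

def c7_8848 : chk24 dm 49 108 (Pg62.trO T7_8848) (Pg62.trO T1_0) (Pg62.trO T6_2212) = true := by
  decide +kernel

def v7_8848 : cov dm 3 1 3 157 (Pg62.trO T7_8848) = true := by
  decide +kernel

def c7_9760 : chk24 dm 49 108 (Pg62.trO T7_9760) (Pg62.trO T1_0) (Pg62.trO T6_2440) = true := by
  decide +kernel

def v7_9760 : cov dm 3 1 3 157 (Pg62.trO T7_9760) = true := by
  decide +kernel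

def c7_8800 : chk24 dm 49 108 (Pg62.trO T7_8800) (Pg62.trO T1_0) (Pg62.trO T6_2200) = true := by
  decide +kernel

def v7_8800 : cov dm 3 1 3 157 (Pg62.trO T7_8800) = true := by
  decide +kernel

def c7_8836 : chk24 dm 49 108 (Pg62.trO T7_8836) (Pg62.trO T1_0) (Pg62.trO T6_2209) = true := by
  decide +kernel

def v7_8836 : cov dm 3 1 3 157 (Pg62.trO T7_8836) = true := by
  decide +kernel

def c7_8740 : chk24 dm 49 108 (Pg62.trO T7_8740) (Pg62.trO T1_0) (Pg62.trO T6_2185) = true := by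
  decide +kernel

def v7_8740 : cov dm 3 1 3 157 (Pg62.trO T7_8740) = true := by
  decide +kernel

def c7_9736 : chk24 dm 49 108 (Pg62.trO T7_9736) (Pg62.trO T1_0) (Pg62.trO T6_2434) = true := by
  decide +kernel

def v7_9736 : cov dm 3 1 3 157 (Pg62.trO T7_9736) = true := by
  decide +kernel

def c7_8776 : chk24 dm 49 108 (Pg62.trO T7_8776) (Pg62.trO T1_0) (Pg62.trO T6_2194) = true := by
  decide +kernel

def v7_8776 : cov dm 3 1 3 157 (Pg62.trO T7_8776) = true := by
  decide +kernel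

def c7_9352 : chk24 dm 49 108 (Pg62.trO T7_9352) (Pg62.trO T1_0) (Pg62.trO T6_2338) = true := by
  decide +kernel

def v7_9352 : cov dm 3 1 3 157 (Pg62.trO T7_9352) = true := by
  decide +kernel

end Pool.Agent.Work.MP_bde882_al.TC
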