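import Pool.Agent.Work.MP_bde882_al_h64.TabStep4
import Pool.Agent.Work.MP_bde882_al_tab.Tab1a
import Pool.Agent.Work.MP_bde882_al_tab.Tab1b
import Pool.Agent.Work.MP_bde882_al_tab.Tab1c
import Pool.Agent.Work.MP_bde882_al_tab.Tab6b
import Pool.Agent.Work.MP_bde882_al_tab.Tab6c
import Pool.Agent.Work.MP_bde882_al_tab.Tab7c

/-!
Kernel checks of the operator tables.
-/

set_option autoImplicit false
set_option maxRecDepth 100000
set_option linter.defProp false

namespace Pool.Agent.Work.MP_bde882_al.TC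

open Pool.Agent.Work.MP_bde882_al TS64 H87 Tab

def c7_8728 : chk24 dm 49 108 (Pg62.trO T7_8728) (Pg62.trO T1_0) (Pg62.trO T6_2182) = true := by
  decide +kernel

def v7_8728 : cov dm 3 1 3 157 (Pg62.trO T7_8728) = true := by
  decide +kernel

def c7_8833 : chk24 dm 7 150 (Pg62.trO T7_8833) (Pg62.trO T1_1) (Pg62.trO T6_2208) = true := by
  decide +kernel

def v7_8833 : cov dm 3 1 3 157 (Pg62.trO T7_8833) = true := by
  decide +kernel

def c7_8737 : chk24 dm 7 150 (Pg62.trO T7_8737) (Pg62.trO T1_1) (Pg62.trO T6_2184) = true := by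
  decide +kernel

def v7_8737 : cov dm 3 1 3 157 (Pg62.trO T7_8737) = true := by
  decide +kernel

def c7_8713 : chk24 dm 7 150 (Pg62.trO T7_8713) (Pg62.trO T1_1) (Pg62.trO T6_2178) = true := by
  decide +kernel

def v7_8713 : cov dm 3 1 3 157 (Pg62.trO T7_8713) = true := by
  decide +kernel

def c7_9730 : chk24 dm 1 156 (Pg62.trO T7_9730) (Pg62.trO T1_2) (Pg62.trO T6_2432) = true := by
  decide +kernel

def v7_9730 : cov dm 3 1 3 157 (Pg62.trO T7_9730) = true := by
  decide +kernel

def c7_8770 : chk24 dm 1 156 (Pg62.trO T7_8770) (Pg62.trO T1_2) (Pg62.trO T6_2192) = true := by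
  decide +kernel

def v7_8770 : cov dm 3 1 3 157 (Pg62.trO T7_8770) = true := by
  decide +kernel

def c7_9346 : chk24 dm 1 156 (Pg62.trO T7_9346) (Pg62.trO T1_2) (Pg62.trO T6_2336) = true := by
  decide +kernel

def v7_9346 : cov dm 3 1 3 157 (Pg62.trO T7_9346) = true := by
  decide +kernel

def c7_8722 : chk24 dm 1 156 (Pg62.trO T7_8722) (Pg62.trO T1_2) (Pg62.trO T6_2180) = true := by
  decide +kernel

def v7_8722 : cov dm 3 1 3 157 (Pg62.trO T7_8722) = true := by
  decide +kernel

def c7_9250 : chk24 dm 1 156 (Pg62.trO T7_9250) (Pg62.trO T1_2) (Pg62.trO T6_2312) = true := by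
  decide +kernel

def v7_9250 : cov dm 3 1 3 157 (Pg62.trO T7_9250) = true := by
  decide +kernel

def c7_8482 : chk24 dm 1 156 (Pg62.trO T7_8482) (Pg62.trO T1_2) (Pg62.trO T6_2120) = true := by
  decide +kernel

def v7_8482 : cov dm 3 1 3 157 (Pg62.trO T7_8482) = true := by
  decide +kernel

def c7_8710 : chk24 dm 1 156 (Pg62.trO T7_8710) (Pg62.trO T1_2) (Pg62.trO T6_2177) = true := by
  decide +kernel

def v7_8710 : cov dm 3 1 3 157 (Pg62.trO T7_8710) = true := by
  decide +kernel

def c7_9792 : chk24 dm 49 114 (Pg62.trO T7_9792) (Pg62.trO T1_0) (Pg62.trO T6_2448) = true := by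
  decide +kernel

def v7_9792 : cov dm 3 2 2 163 (Pg62.trO T7_9792) = true := by
  decide +kernel

def c7_9744 : chk24 dm 49 114 (Pg62.trO T7_9744) (Pg62.trO T1_0) (Pg62.trO T6_2436) = true := by
  decide +kernel

def v7_9744 : cov dm 3 2 2 163 (Pg62.trO T7_9744) = true := by
  decide +kernel

def c7_8784 : chk24 dm 49 114 (Pg62.trO T7_8784) (Pg62.trO T1_0) (Pg62.trO T6_2196) = true := by
  decide +kernel

def v7_8784 : cov dm 3 2 2 163 (Pg62.trO T7_8784) = true := by
  decide +kernel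

def c7_9360 : chk24 dm 49 114 (Pg62.trO T7_9360) (Pg62.trO T1_0) (Pg62.trO T6_2340) = true := by
  decide +kernel

def v7_9360 : cov dm 3 2 2 163 (Pg62.trO T7_9360) = true := by
  decide +kernel

end Pool.Agent.Work.MP_bde882_al.TC
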