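import Pool.Agent.Work.MP_bde882_al_h64.TabStep4
import Pool.Agent.Work.MP_bde882_al_tab.Tab1a
import Pool.Agent.Work.MP_bde882_al_tab.Tab6b
import Pool.Agent.Work.MP_bde882_al_tab.Tab7c
import Pool.Agent.Work.MP_bde882_al_tab.Tab7d

/-!
Kernel checks of the operator tables.
-/

set_option autoImplicit false
set_option maxRecDepth 100000
set_option linter.defProp false

namespace Pool.Agent.Work.MP_bde882_al.TC

open Pool.Agent.Work.MP_bde882_al TS64 H87 Tab

def c7_9504 : chk24 dm 49 114 (Pg62.trO T7_9504) (Pg62.trO T1_0) (Pg62.trO T6_2376) = true := by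
  decide +kernel

def v7_9504 : cov dm 3 2 2 163 (Pg62.trO T7_9504) = true := by
  decide +kernel

def c7_9312 : chk24 dm 49 114 (Pg62.trO T7_9312) (Pg62.trO T1_0) (Pg62.trO T6_2328) = true := by
  decide +kernel

def v7_9312 : cov dm 3 2 2 163 (Pg62.trO T7_9312) = true := by
  decide +kernel

def c7_9732 : chk24 dm 49 114 (Pg62.trO T7_9732) (Pg62.trO T1_0) (Pg62.trO T6_2433) = true := by
  decide +kernel

def v7_9732 : cov dm 3 2 2 163 (Pg62.trO T7_9732) = true := by
  decide +kernel

def c7_8772 : chk24 dm 49 114 (Pg62.trO T7_8772) (Pg62.trO T1_0) (Pg62.trO T6_2193) = true := by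
  decide +kernel

def v7_8772 : cov dm 3 2 2 163 (Pg62.trO T7_8772) = true := by
  decide +kernel

def c7_9348 : chk24 dm 49 114 (Pg62.trO T7_9348) (Pg62.trO T1_0) (Pg62.trO T6_2337) = true := by
  decide +kernel

def v7_9348 : cov dm 3 2 2 163 (Pg62.trO T7_9348) = true := by
  decide +kernel

def c7_8724 : chk24 dm 49 114 (Pg62.trO T7_8724) (Pg62.trO T1_0) (Pg62.trO T6_2181) = true := by
  decide +kernel

def v7_8724 : cov dm 3 2 2 163 (Pg62.trO T7_8724) = true := by
  decide +kernel

def c7_9252 : chk24 dm 49 114 (Pg62.trO T7_9252) (Pg62.trO T1_0) (Pg62.trO T6_2313) = true := by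
  decide +kernel

def v7_9252 : cov dm 3 2 2 163 (Pg62.trO T7_9252) = true := by
  decide +kernel

def c7_8484 : chk24 dm 49 114 (Pg62.trO T7_8484) (Pg62.trO T1_0) (Pg62.trO T6_2121) = true := by
  decide +kernel

def v7_8484 : cov dm 3 2 2 163 (Pg62.trO T7_8484) = true := by
  decide +kernel

def c7_9480 : chk24 dm 49 114 (Pg62.trO T7_9480) (Pg62.trO T1_0) (Pg62.trO T6_2370) = true := by
  decide +kernel

def v7_9480 : cov dm 3 2 2 163 (Pg62.trO T7_9480) = true := by
  decide +kernel

def c7_9288 : chk24 dm 49 114 (Pg62.trO T7_9288) (Pg62.trO T1_0) (Pg62.trO T6_2322) = true := by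
  decide +kernel

def v7_9288 : cov dm 3 2 2 163 (Pg62.trO T7_9288) = true := by
  decide +kernel

end Pool.Agent.Work.MP_bde882_al.TC
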