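import Pool.Agent.Work.MP_bde882_al_h64.TabStep4
import Pool.Agent.Work.MP_bde882_al_tab.Tab1b
import Pool.Agent.Work.MP_bde882_al_tab.Tab1c
import Pool.Agent.Work.MP_bde882_al_tab.Tab6c
import Pool.Agent.Work.MP_bde882_al_tab.Tab7d

/-!
Kernel checks of the operator tables.
-/

set_option autoImplicit false
set_option maxRecDepth 100000
set_option linter.defProp false

namespace Pool.Agent.Work.MP_bde882_al.TC

open Pool.Agent.Work.MP_bde882_al TS64 H87 Tab

def c7_9729 : chk24 dm 7 156 (Pg62.trO T7_9729) (Pg62.trO T1_1) (Pg62.trO T6_2432) = true := by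
  decide +kernel

def v7_9729 : cov dm 3 2 2 163 (Pg62.trO T7_9729) = true := by
  decide +kernel

def c7_8769 : chk24 dm 7 156 (Pg62.trO T7_8769) (Pg62.trO T1_1) (Pg62.trO T6_2192) = true := by
  decide +kernel

def v7_8769 : cov dm 3 2 2 163 (Pg62.trO T7_8769) = true := by
  decide +kernel

def c7_9345 : chk24 dm 7 156 (Pg62.trO T7_9345) (Pg62.trO T1_1) (Pg62.trO T6_2336) = true := by
  decide +kernel

def v7_9345 : cov dm 3 2 2 163 (Pg62.trO T7_9345) = true := by
  decide +kernel

def c7_8721 : chk24 dm 7 156 (Pg62.trO T7_8721) (Pg62.trO T1_1) (Pg62.trO T6_2180) = true := by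
  decide +kernel

def v7_8721 : cov dm 3 2 2 163 (Pg62.trO T7_8721) = true := by
  decide +kernel

def c7_9249 : chk24 dm 7 156 (Pg62.trO T7_9249) (Pg62.trO T1_1) (Pg62.trO T6_2312) = true := by
  decide +kernel

def v7_9249 : cov dm 3 2 2 163 (Pg62.trO T7_9249) = true := by
  decide +kernel

def c7_8481 : chk24 dm 7 156 (Pg62.trO T7_8481) (Pg62.trO T1_1) (Pg62.trO T6_2120) = true := by
  decide +kernel

def v7_8481 : cov dm 3 2 2 163 (Pg62.trO T7_8481) = true := by
  decide +kernel

def c7_8709 : chk24 dm 7 156 (Pg62.trO T7_8709) (Pg62.trO T1_1) (Pg62.trO T6_2177) = true := by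
  decide +kernel

def v7_8709 : cov dm 3 2 2 163 (Pg62.trO T7_8709) = true := by
  decide +kernel

def c7_8229 : chk24 dm 7 156 (Pg62.trO T7_8229) (Pg62.trO T1_1) (Pg62.trO T6_2057) = true := by
  decide +kernel

def v7_8229 : cov dm 3 2 2 163 (Pg62.trO T7_8229) = true := by
  decide +kernel

def c7_9225 : chk24 dm 7 156 (Pg62.trO T7_9225) (Pg62.trO T1_1) (Pg62.trO T6_2306) = true := by
  decide +kernel

def v7_9225 : cov dm 3 2 2 163 (Pg62.trO T7_9225) = true := by
  decide +kernel

def c7_8457 : chk24 dm 7 156 (Pg62.trO T7_8457) (Pg62.trO T1_1) (Pg62.trO T6_2114) = true := by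
  decide +kernel

def v7_8457 : cov dm 3 2 2 163 (Pg62.trO T7_8457) = true := by
  decide +kernel

def c7_9474 : chk24 dm 1 162 (Pg62.trO T7_9474) (Pg62.trO T1_2) (Pg62.trO T6_2368) = true := by
  decide +kernel

def v7_9474 : cov dm 3 2 2 163 (Pg62.trO T7_9474) = true := by
  decide +kernel

def c7_9282 : chk24 dm 1 162 (Pg62.trO T7_9282) (Pg62.trO T1_2) (Pg62.trO T6_2320) = true := by
  decide +kernel

def v7_9282 : cov dm 3 2 2 163 (Pg62.trO T7_9282) = true := by
  decide +kernel

end Pool.Agent.Work.MP_bde882_al.TC
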