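import Pool.Agent.Work.MP_bde882_al_h64.TabStep4
import Pool.Agent.Work.MP_bde882_al_tab.Tab1a
import Pool.Agent.Work.MP_bde882_al_tab.Tab1b
import Pool.Agent.Work.MP_bde882_al_tab.Tab1c
import Pool.Agent.Work.MP_bde882_al_tab.Tab6b
import Pool.Agent.Work.MP_bde882_al_tab.Tab6c
import Pool.Agent.Work.MP_bde882_al_tab.Tab7d

/-!
Kernel checks of the operator tables.
-/

set_option autoImplicit false
set_option maxRecDepth 100000
set_option linter.defProp false

namespace Pool.Agent.Work.MP_bde882_al.TC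

open Pool.Agent.Work.MP_bde882_al TS64 H87 Tab

def c7_8514 : chk24 dm 1 162 (Pg62.trO T7_8514) (Pg62.trO T1_2) (Pg62.trO T6_2128) = true := by
  decide +kernel

def v7_8514 : cov dm 3 2 2 163 (Pg62.trO T7_8514) = true := by
  decide +kernel

def c7_9234 : chk24 dm 1 162 (Pg62.trO T7_9234) (Pg62.trO T1_2) (Pg62.trO T6_2308) = true := by
  decide +kernel

def v7_9234 : cov dm 3 2 2 163 (Pg62.trO T7_9234) = true := by
  decide +kernel

def c7_8466 : chk24 dm 1 162 (Pg62.trO T7_8466) (Pg62.trO T1_2) (Pg62.trO T6_2116) = true := by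
  decide +kernel

def v7_8466 : cov dm 3 2 2 163 (Pg62.trO T7_8466) = true := by
  decide +kernel

def c7_9222 : chk24 dm 1 162 (Pg62.trO T7_9222) (Pg62.trO T1_2) (Pg62.trO T6_2305) = true := by
  decide +kernel

def v7_9222 : cov dm 3 2 2 163 (Pg62.trO T7_9222) = true := by
  decide +kernel

def c7_9536 : chk24 dm 49 120 (Pg62.trO T7_9536) (Pg62.trO T1_0) (Pg62.trO T6_2384) = true := by
  decide +kernel

def v7_9536 : cov dm 3 3 1 169 (Pg62.trO T7_9536) = true := by
  decide +kernel

def c7_9488 : chk24 dm 49 120 (Pg62.trO T7_9488) (Pg62.trO T1_0) (Pg62.trO T6_2372) = true := by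
  decide +kernel

def v7_9488 : cov dm 3 3 1 169 (Pg62.trO T7_9488) = true := by
  decide +kernel

def c7_9296 : chk24 dm 49 120 (Pg62.trO T7_9296) (Pg62.trO T1_0) (Pg62.trO T6_2324) = true := by
  decide +kernel

def v7_9296 : cov dm 3 3 1 169 (Pg62.trO T7_9296) = true := by
  decide +kernel

def c7_8528 : chk24 dm 49 120 (Pg62.trO T7_8528) (Pg62.trO T1_0) (Pg62.trO T6_2132) = true := by
  decide +kernel

def v7_8528 : cov dm 3 3 1 169 (Pg62.trO T7_8528) = true := by
  decide +kernel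

def c7_9476 : chk24 dm 49 120 (Pg62.trO T7_9476) (Pg62.trO T1_0) (Pg62.trO T6_2369) = true := by
  decide +kernel

def v7_9476 : cov dm 3 3 1 169 (Pg62.trO T7_9476) = true := by
  decide +kernel

def c7_9284 : chk24 dm 49 120 (Pg62.trO T7_9284) (Pg62.trO T1_0) (Pg62.trO T6_2321) = true := by
  decide +kernel

def v7_9284 : cov dm 3 3 1 169 (Pg62.trO T7_9284) = true := by
  decide +kernel

def c7_8516 : chk24 dm 49 120 (Pg62.trO T7_8516) (Pg62.trO T1_0) (Pg62.trO T6_2129) = true := by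
  decide +kernel

def v7_8516 : cov dm 3 3 1 169 (Pg62.trO T7_8516) = true := by
  decide +kernel

def c7_9236 : chk24 dm 49 120 (Pg62.trO T7_9236) (Pg62.trO T1_0) (Pg62.trO T6_2309) = true := by
  decide +kernel

def v7_9236 : cov dm 3 3 1 169 (Pg62.trO T7_9236) = true := by
  decide +kernel

def c7_8468 : chk24 dm 49 120 (Pg62.trO T7_8468) (Pg62.trO T1_0) (Pg62.trO T6_2117) = true := by
  decide +kernel

def v7_8468 : cov dm 3 3 1 169 (Pg62.trO T7_8468) = true := by
  decide +kernel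

def c7_8276 : chk24 dm 49 120 (Pg62.trO T7_8276) (Pg62.trO T1_0) (Pg62.trO T6_2069) = true := by
  decide +kernel

def v7_8276 : cov dm 3 3 1 169 (Pg62.trO T7_8276) = true := by
  decide +kernel

def c7_9473 : chk24 dm 7 162 (Pg62.trO T7_9473) (Pg62.trO T1_1) (Pg62.trO T6_2368) = true := by
  decide +kernel

def v7_9473 : cov dm 3 3 1 169 (Pg62.trO T7_9473) = true := by
  decide +kernel

end Pool.Agent.Work.MP_bde882_al.TC
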