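import Pool.Agent.Work.MP_bde882_al_h64.TabStep4
import Pool.Agent.Work.MP_bde882_al_tab.Tab1a
import Pool.Agent.Work.MP_bde882_al_tab.Tab1b
import Pool.Agent.Work.MP_bde882_al_tab.Tab1c
import Pool.Agent.Work.MP_bde882_al_tab.Tab6c
import Pool.Agent.Work.MP_bde882_al_tab.Tab7d

/-!
Kernel checks of the operator tables.
-/

set_option autoImplicit false
set_option maxRecDepth 100000
set_option linter.defProp false

namespace Pool.Agent.Work.MP_bde882_al.TC

open Pool.Agent.Work.MP_bde882_al TS64 H87 Tab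

def c7_9281 : chk24 dm 7 162 (Pg62.trO T7_9281) (Pg62.trO T1_1) (Pg62.trO T6_2320) = true := by
  decide +kernel

def v7_9281 : cov dm 3 3 1 169 (Pg62.trO T7_9281) = true := by
  decide +kernel

def c7_8513 : chk24 dm 7 162 (Pg62.trO T7_8513) (Pg62.trO T1_1) (Pg62.trO T6_2128) = true := by
  decide +kernel

def v7_8513 : cov dm 3 3 1 169 (Pg62.trO T7_8513) = true := by
  decide +kernel

def c7_9233 : chk24 dm 7 162 (Pg62.trO T7_9233) (Pg62.trO T1_1) (Pg62.trO T6_2308) = true := by
  decide +kernel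

def v7_9233 : cov dm 3 3 1 169 (Pg62.trO T7_9233) = true := by
  decide +kernel

def c7_8465 : chk24 dm 7 162 (Pg62.trO T7_8465) (Pg62.trO T1_1) (Pg62.trO T6_2116) = true := by
  decide +kernel

def v7_8465 : cov dm 3 3 1 169 (Pg62.trO T7_8465) = true := by
  decide +kernel

def c7_8273 : chk24 dm 7 162 (Pg62.trO T7_8273) (Pg62.trO T1_1) (Pg62.trO T6_2068) = true := by
  decide +kernel

def v7_8273 : cov dm 3 3 1 169 (Pg62.trO T7_8273) = true := by
  decide +kernel

def c7_9221 : chk24 dm 7 162 (Pg62.trO T7_9221) (Pg62.trO T1_1) (Pg62.trO T6_2305) = true := by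
  decide +kernel

def v7_9221 : cov dm 3 3 1 169 (Pg62.trO T7_9221) = true := by
  decide +kernel

def c7_8453 : chk24 dm 7 162 (Pg62.trO T7_8453) (Pg62.trO T1_1) (Pg62.trO T6_2113) = true := by
  decide +kernel

def v7_8453 : cov dm 3 3 1 169 (Pg62.trO T7_8453) = true := by
  decide +kernel

def c7_8261 : chk24 dm 7 162 (Pg62.trO T7_8261) (Pg62.trO T1_1) (Pg62.trO T6_2065) = true := by
  decide +kernel

def v7_8261 : cov dm 3 3 1 169 (Pg62.trO T7_8261) = true := by
  decide +kernel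

def c7_8213 : chk24 dm 7 162 (Pg62.trO T7_8213) (Pg62.trO T1_1) (Pg62.trO T6_2053) = true := by
  decide +kernel

def v7_8213 : cov dm 3 3 1 169 (Pg62.trO T7_8213) = true := by
  decide +kernel

def c7_4432 : chk24 dm 49 126 (Pg62.trO T7_4432) (Pg62.trO T1_0) (Pg62.trO T6_1108) = true := by
  decide +kernel

def v7_4432 : cov dm 3 4 0 175 (Pg62.trO T7_4432) = true := by
  decide +kernel

def c7_4420 : chk24 dm 49 126 (Pg62.trO T7_4420) (Pg62.trO T1_0) (Pg62.trO T6_1105) = true := by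
  decide +kernel

def v7_4420 : cov dm 3 4 0 175 (Pg62.trO T7_4420) = true := by
  decide +kernel

def c7_4417 : chk24 dm 7 168 (Pg62.trO T7_4417) (Pg62.trO T1_1) (Pg62.trO T6_1104) = true := by
  decide +kernel

def v7_4417 : cov dm 3 4 0 175 (Pg62.trO T7_4417) = true := by
  decide +kernel

def c7_4369 : chk24 dm 7 168 (Pg62.trO T7_4369) (Pg62.trO T1_1) (Pg62.trO T6_1092) = true := by
  decide +kernel

def v7_4369 : cov dm 3 4 0 175 (Pg62.trO T7_4369) = true := by
  decide +kernel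

def c7_4357 : chk24 dm 7 168 (Pg62.trO T7_4357) (Pg62.trO T1_1) (Pg62.trO T6_1089) = true := by
  decide +kernel

def v7_4357 : cov dm 3 4 0 175 (Pg62.trO T7_4357) = true := by
  decide +kernel

def c7_8832 : chk24 dm 49 150 (Pg62.trO T7_8832) (Pg62.trO T1_0) (Pg62.trO T6_2208) = true := by
  decide +kernel

def v7_8832 : cov dm 4 0 3 199 (Pg62.trO T7_8832) = true := by
  decide +kernel

def c7_8736 : chk24 dm 49 150 (Pg62.trO T7_8736) (Pg62.trO T1_0) (Pg62.trO T6_2184) = true := by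
  decide +kernel

def v7_8736 : cov dm 4 0 3 199 (Pg62.trO T7_8736) = true := by
  decide +kernel

def c7_8712 : chk24 dm 49 150 (Pg62.trO T7_8712) (Pg62.trO T1_0) (Pg62.trO T6_2178) = true := by
  decide +kernel

def v7_8712 : cov dm 4 0 3 199 (Pg62.trO T7_8712) = true := by
  decide +kernel

def c7_8706 : chk24 dm 1 198 (Pg62.trO T7_8706) (Pg62.trO T1_2) (Pg62.trO T6_2176) = true := by
  decide +kernel

def v7_8706 : cov dm 4 0 3 199 (Pg62.trO T7_8706) = true := by
  decide +kernel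

def c7_8226 : chk24 dm 1 198 (Pg62.trO T7_8226) (Pg62.trO T1_2) (Pg62.trO T6_2056) = true := by
  decide +kernel

def v7_8226 : cov dm 4 0 3 199 (Pg62.trO T7_8226) = true := by
  decide +kernel

def c7_9728 : chk24 dm 49 156 (Pg62.trO T7_9728) (Pg62.trO T1_0) (Pg62.trO T6_2432) = true := by
  decide +kernel

def v7_9728 : cov dm 4 1 2 205 (Pg62.trO T7_9728) = true := by
  decide +kernel

def c7_8768 : chk24 dm 49 156 (Pg62.trO T7_8768) (Pg62.trO T1_0) (Pg62.trO T6_2192) = true := by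
  decide +kernel

def v7_8768 : cov dm 4 1 2 205 (Pg62.trO T7_8768) = true := by
  decide +kernel

def c7_9344 : chk24 dm 49 156 (Pg62.trO T7_9344) (Pg62.trO T1_0) (Pg62.trO T6_2336) = true := by
  decide +kernel

def v7_9344 : cov dm 4 1 2 205 (Pg62.trO T7_9344) = true := by
  decide +kernel

def c7_8720 : chk24 dm 49 156 (Pg62.trO T7_8720) (Pg62.trO T1_0) (Pg62.trO T6_2180) = true := by
  decide +kernel

def v7_8720 : cov dm 4 1 2 205 (Pg62.trO T7_8720) = true := by
  decide +kernel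

def c7_9248 : chk24 dm 49 156 (Pg62.trO T7_9248) (Pg62.trO T1_0) (Pg62.trO T6_2312) = true := by
  decide +kernel

def v7_9248 : cov dm 4 1 2 205 (Pg62.trO T7_9248) = true := by
  decide +kernel

def c7_8480 : chk24 dm 49 156 (Pg62.trO T7_8480) (Pg62.trO T1_0) (Pg62.trO T6_2120) = true := by
  decide +kernel

def v7_8480 : cov dm 4 1 2 205 (Pg62.trO T7_8480) = true := by
  decide +kernel

def c7_8708 : chk24 dm 49 156 (Pg62.trO T7_8708) (Pg62.trO T1_0) (Pg62.trO T6_2177) = true := by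
  decide +kernel

def v7_8708 : cov dm 4 1 2 205 (Pg62.trO T7_8708) = true := by
  decide +kernel

def c7_8228 : chk24 dm 49 156 (Pg62.trO T7_8228) (Pg62.trO T1_0) (Pg62.trO T6_2057) = true := by
  decide +kernel

def v7_8228 : cov dm 4 1 2 205 (Pg62.trO T7_8228) = true := by
  decide +kernel

end Pool.Agent.Work.MP_bde882_al.TC
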