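import Pool.Agent.Work.MP_bde882_al_h64.TabStep4
import Pool.Agent.Work.MP_bde882_al_tab.Tab1a
import Pool.Agent.Work.MP_bde882_al_tab.Tab1b
import Pool.Agent.Work.MP_bde882_al_tab.Tab1c
import Pool.Agent.Work.MP_bde882_al_tab.Tab6c
import Pool.Agent.Work.MP_bde882_al_tab.Tab7d
import Pool.Agent.Work.MP_bde882_al_tab.Tab7e

/-!
Kernel checks of the operator tables.
-/

set_option autoImplicit false
set_option maxRecDepth 100000
set_option linter.defProp false

namespace Pool.Agent.Work.MP_bde882_al.TC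

open Pool.Agent.Work.MP_bde882_al TS64 H87 Tab

def c7_9224 : chk24 dm 49 156 (Pg62.trO T7_9224) (Pg62.trO T1_0) (Pg62.trO T6_2306) = true := by
  decide +kernel

def v7_9224 : cov dm 4 1 2 205 (Pg62.trO T7_9224) = true := by
  decide +kernel

def c7_8456 : chk24 dm 49 156 (Pg62.trO T7_8456) (Pg62.trO T1_0) (Pg62.trO T6_2114) = true := by
  decide +kernel

def v7_8456 : cov dm 4 1 2 205 (Pg62.trO T7_8456) = true := by
  decide +kernel

def c7_8705 : chk24 dm 7 198 (Pg62.trO T7_8705) (Pg62.trO T1_1) (Pg62.trO T6_2176) = true := by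
  decide +kernel

def v7_8705 : cov dm 4 1 2 205 (Pg62.trO T7_8705) = true := by
  decide +kernel

def c7_8225 : chk24 dm 7 198 (Pg62.trO T7_8225) (Pg62.trO T1_1) (Pg62.trO T6_2056) = true := by
  decide +kernel

def v7_8225 : cov dm 4 1 2 205 (Pg62.trO T7_8225) = true := by
  decide +kernel

def c7_9218 : chk24 dm 1 204 (Pg62.trO T7_9218) (Pg62.trO T1_2) (Pg62.trO T6_2304) = true := by
  decide +kernel

def v7_9218 : cov dm 4 1 2 205 (Pg62.trO T7_9218) = true := by
  decide +kernel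

def c7_8450 : chk24 dm 1 204 (Pg62.trO T7_8450) (Pg62.trO T1_2) (Pg62.trO T6_2112) = true := by
  decide +kernel

def v7_8450 : cov dm 4 1 2 205 (Pg62.trO T7_8450) = true := by
  decide +kernel

def c7_8258 : chk24 dm 1 204 (Pg62.trO T7_8258) (Pg62.trO T1_2) (Pg62.trO T6_2064) = true := by
  decide +kernel

def v7_8258 : cov dm 4 1 2 205 (Pg62.trO T7_8258) = true := by
  decide +kernel

def c7_9472 : chk24 dm 49 162 (Pg62.trO T7_9472) (Pg62.trO T1_0) (Pg62.trO T6_2368) = true := by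
  decide +kernel

def v7_9472 : cov dm 4 2 1 211 (Pg62.trO T7_9472) = true := by
  decide +kernel

def c7_9280 : chk24 dm 49 162 (Pg62.trO T7_9280) (Pg62.trO T1_0) (Pg62.trO T6_2320) = true := by
  decide +kernel

def v7_9280 : cov dm 4 2 1 211 (Pg62.trO T7_9280) = true := by
  decide +kernel

def c7_8512 : chk24 dm 49 162 (Pg62.trO T7_8512) (Pg62.trO T1_0) (Pg62.trO T6_2128) = true := by
  decide +kernel

def v7_8512 : cov dm 4 2 1 211 (Pg62.trO T7_8512) = true := by
  decide +kernel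

def c7_9232 : chk24 dm 49 162 (Pg62.trO T7_9232) (Pg62.trO T1_0) (Pg62.trO T6_2308) = true := by
  decide +kernel

def v7_9232 : cov dm 4 2 1 211 (Pg62.trO T7_9232) = true := by
  decide +kernel

def c7_8464 : chk24 dm 49 162 (Pg62.trO T7_8464) (Pg62.trO T1_0) (Pg62.trO T6_2116) = true := by
  decide +kernel

def v7_8464 : cov dm 4 2 1 211 (Pg62.trO T7_8464) = true := by
  decide +kernel

def c7_8272 : chk24 dm 49 162 (Pg62.trO T7_8272) (Pg62.trO T1_0) (Pg62.trO T6_2068) = true := by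
  decide +kernel

def v7_8272 : cov dm 4 2 1 211 (Pg62.trO T7_8272) = true := by
  decide +kernel

def c7_9220 : chk24 dm 49 162 (Pg62.trO T7_9220) (Pg62.trO T1_0) (Pg62.trO T6_2305) = true := by
  decide +kernel

def v7_9220 : cov dm 4 2 1 211 (Pg62.trO T7_9220) = true := by
  decide +kernel

def c7_8452 : chk24 dm 49 162 (Pg62.trO T7_8452) (Pg62.trO T1_0) (Pg62.trO T6_2113) = true := by
  decide +kernel

def v7_8452 : cov dm 4 2 1 211 (Pg62.trO T7_8452) = true := by
  decide +kernel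

def c7_8260 : chk24 dm 49 162 (Pg62.trO T7_8260) (Pg62.trO T1_0) (Pg62.trO T6_2065) = true := by
  decide +kernel

def v7_8260 : cov dm 4 2 1 211 (Pg62.trO T7_8260) = true := by
  decide +kernel

def c7_8212 : chk24 dm 49 162 (Pg62.trO T7_8212) (Pg62.trO T1_0) (Pg62.trO T6_2053) = true := by
  decide +kernel

def v7_8212 : cov dm 4 2 1 211 (Pg62.trO T7_8212) = true := by
  decide +kernel

def c7_9217 : chk24 dm 7 204 (Pg62.trO T7_9217) (Pg62.trO T1_1) (Pg62.trO T6_2304) = true := by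
  decide +kernel

def v7_9217 : cov dm 4 2 1 211 (Pg62.trO T7_9217) = true := by
  decide +kernel

def c7_8449 : chk24 dm 7 204 (Pg62.trO T7_8449) (Pg62.trO T1_1) (Pg62.trO T6_2112) = true := by
  decide +kernel

def v7_8449 : cov dm 4 2 1 211 (Pg62.trO T7_8449) = true := by
  decide +kernel

def c7_8257 : chk24 dm 7 204 (Pg62.trO T7_8257) (Pg62.trO T1_1) (Pg62.trO T6_2064) = true := by
  decide +kernel

def v7_8257 : cov dm 4 2 1 211 (Pg62.trO T7_8257) = true := by
  decide +kernel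

def c7_8209 : chk24 dm 7 204 (Pg62.trO T7_8209) (Pg62.trO T1_1) (Pg62.trO T6_2052) = true := by
  decide +kernel

def v7_8209 : cov dm 4 2 1 211 (Pg62.trO T7_8209) = true := by
  decide +kernel

def c7_8197 : chk24 dm 7 204 (Pg62.trO T7_8197) (Pg62.trO T1_1) (Pg62.trO T6_2049) = true := by
  decide +kernel

def v7_8197 : cov dm 4 2 1 211 (Pg62.trO T7_8197) = true := by
  decide +kernel

def c7_4416 : chk24 dm 49 168 (Pg62.trO T7_4416) (Pg62.trO T1_0) (Pg62.trO T6_1104) = true := by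
  decide +kernel

def v7_4416 : cov dm 4 3 0 217 (Pg62.trO T7_4416) = true := by
  decide +kernel

def c7_4368 : chk24 dm 49 168 (Pg62.trO T7_4368) (Pg62.trO T1_0) (Pg62.trO T6_1092) = true := by
  decide +kernel

def v7_4368 : cov dm 4 3 0 217 (Pg62.trO T7_4368) = true := by
  decide +kernel

def c7_4356 : chk24 dm 49 168 (Pg62.trO T7_4356) (Pg62.trO T1_0) (Pg62.trO T6_1089) = true := by
  decide +kernel

def v7_4356 : cov dm 4 3 0 217 (Pg62.trO T7_4356) = true := by
  decide +kernel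

def c7_4353 : chk24 dm 7 210 (Pg62.trO T7_4353) (Pg62.trO T1_1) (Pg62.trO T6_1088) = true := by
  decide +kernel

def v7_4353 : cov dm 4 3 0 217 (Pg62.trO T7_4353) = true := by
  decide +kernel

def c7_4113 : chk24 dm 7 210 (Pg62.trO T7_4113) (Pg62.trO T1_1) (Pg62.trO T6_1028) = true := by
  decide +kernel

def v7_4113 : cov dm 4 3 0 217 (Pg62.trO T7_4113) = true := by
  decide +kernel

def c7_8704 : chk24 dm 49 198 (Pg62.trO T7_8704) (Pg62.trO T1_0) (Pg62.trO T6_2176) = true := by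
  decide +kernel

def v7_8704 : cov dm 5 0 2 247 (Pg62.trO T7_8704) = true := by
  decide +kernel

def c7_8224 : chk24 dm 49 198 (Pg62.trO T7_8224) (Pg62.trO T1_0) (Pg62.trO T6_2056) = true := by
  decide +kernel

def v7_8224 : cov dm 5 0 2 247 (Pg62.trO T7_8224) = true := by
  decide +kernel

def c7_8194 : chk24 dm 1 246 (Pg62.trO T7_8194) (Pg62.trO T1_2) (Pg62.trO T6_2048) = true := by
  decide +kernel

def v7_8194 : cov dm 5 0 2 247 (Pg62.trO T7_8194) = true := by
  decide +kernel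

def c7_9216 : chk24 dm 49 204 (Pg62.trO T7_9216) (Pg62.trO T1_0) (Pg62.trO T6_2304) = true := by
  decide +kernel

def v7_9216 : cov dm 5 1 1 253 (Pg62.trO T7_9216) = true := by
  decide +kernel

def c7_8448 : chk24 dm 49 204 (Pg62.trO T7_8448) (Pg62.trO T1_0) (Pg62.trO T6_2112) = true := by
  decide +kernel

def v7_8448 : cov dm 5 1 1 253 (Pg62.trO T7_8448) = true := by
  decide +kernel

def c7_8256 : chk24 dm 49 204 (Pg62.trO T7_8256) (Pg62.trO T1_0) (Pg62.trO T6_2064) = true := by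
  decide +kernel

def v7_8256 : cov dm 5 1 1 253 (Pg62.trO T7_8256) = true := by
  decide +kernel

def c7_8208 : chk24 dm 49 204 (Pg62.trO T7_8208) (Pg62.trO T1_0) (Pg62.trO T6_2052) = true := by
  decide +kernel

def v7_8208 : cov dm 5 1 1 253 (Pg62.trO T7_8208) = true := by
  decide +kernel

def c7_8196 : chk24 dm 49 204 (Pg62.trO T7_8196) (Pg62.trO T1_0) (Pg62.trO T6_2049) = true := by
  decide +kernel

def v7_8196 : cov dm 5 1 1 253 (Pg62.trO T7_8196) = true := by
  decide +kernel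

def c7_8193 : chk24 dm 7 246 (Pg62.trO T7_8193) (Pg62.trO T1_1) (Pg62.trO T6_2048) = true := by
  decide +kernel

def v7_8193 : cov dm 5 1 1 253 (Pg62.trO T7_8193) = true := by
  decide +kernel

def c7_4352 : chk24 dm 49 210 (Pg62.trO T7_4352) (Pg62.trO T1_0) (Pg62.trO T6_1088) = true := by
  decide +kernel

def v7_4352 : cov dm 5 2 0 259 (Pg62.trO T7_4352) = true := by
  decide +kernel

def c7_4112 : chk24 dm 49 210 (Pg62.trO T7_4112) (Pg62.trO T1_0) (Pg62.trO T6_1028) = true := by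
  decide +kernel

def v7_4112 : cov dm 5 2 0 259 (Pg62.trO T7_4112) = true := by
  decide +kernel

end Pool.Agent.Work.MP_bde882_al.TC
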