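import Pool.Agent.Work.MP_bde882_al_h64.TabStep4
import Pool.Agent.Work.MP_bde882_al_tab.Tab1a
import Pool.Agent.Work.MP_bde882_al_tab.Tab1b
import Pool.Agent.Work.MP_bde882_al_tab.Tab1c
import Pool.Agent.Work.MP_bde882_al_tab.Tab6c
import Pool.Agent.Work.MP_bde882_al_tab.Tab7e

/-!
Kernel checks of the operator tables.
-/

set_option autoImplicit false
set_option maxRecDepth 100000
set_option linter.defProp false

namespace Pool.Agent.Work.MP_bde882_al.TC

open Pool.Agent.Work.MP_bde882_al TS64 H87 Tab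

def c7_4097 : chk24 dm 7 252 (Pg62.trO T7_4097) (Pg62.trO T1_1) (Pg62.trO T6_1024) = true := by
  decide +kernel

def v7_4097 : cov dm 5 2 0 259 (Pg62.trO T7_4097) = true := by
  decide +kernel

def c7_8192 : chk24 dm 49 246 (Pg62.trO T7_8192) (Pg62.trO T1_0) (Pg62.trO T6_2048) = true := by
  decide +kernel

def v7_8192 : cov dm 6 0 1 295 (Pg62.trO T7_8192) = true := by
  decide +kernel

def c7_4096 : chk24 dm 49 252 (Pg62.trO T7_4096) (Pg62.trO T1_0) (Pg62.trO T6_1024) = true := by
  decide +kernel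

def v7_4096 : cov dm 6 1 0 301 (Pg62.trO T7_4096) = true := by
  decide +kernel

def c7_6826 : chk24 dm 1 12 (Pg62.trO T7_6826) (Pg62.trO T1_2) (Pg62.trO T6_1706) = true := by
  decide +kernel

def v7_6826 : cov dm 0 1 6 13 (Pg62.trO T7_6826) = true := by
  decide +kernel

end Pool.Agent.Work.MP_bde882_al.TC
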