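import Pool.Agent.Work.MP_bde882_al_tc.TLet
import Pool.Agent.Work.MP_bde882_al_tc.TC00
import Pool.Agent.Work.MP_bde882_al_tc.TC01

/-!
Correct tables, word by word.
-/

set_option autoImplicit false
set_option maxRecDepth 100000
set_option linter.defProp false

namespace Pool.Agent.Work.MP_bde882_al.TC

open Pool.Agent.Work.MP_bde882_al TS64 H87 Tab Pg62

theorem g2_9 (L : Letters) : Good (H69.dec 2 9) (trO T2_9) :=
  good_dec 1 9 2 1 (by decide +kernel) L.g1 (L.d2) c2_9 v2_9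

theorem g2_4 (L : Letters) : Good (H69.dec 2 4) (trO T2_4) :=
  good_dec 1 4 1 0 (by decide +kernel) L.g0 (L.d1) c2_4 v2_4

theorem g2_8 (L : Letters) : Good (H69.dec 2 8) (trO T2_8) :=
  good_dec 1 8 2 0 (by decide +kernel) L.g0 (L.d2) c2_8 v2_8

theorem g2_6 (L : Letters) : Good (H69.dec 2 6) (trO T2_6) :=
  good_dec 1 6 1 2 (by decide +kernel) L.g2 (L.d1) c2_6 v2_6

end Pool.Agent.Work.MP_bde882_al.TC
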