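import Pool.Agent.Work.MP_bde882_al_tc.TG2
import Pool.Agent.Work.MP_bde882_al_tc.TC02
import Pool.Agent.Work.MP_bde882_al_tc.TC03
import Pool.Agent.Work.MP_bde882_al_tc.TC04

/-!
Correct tables, word by word.
-/

set_option autoImplicit false
set_option maxRecDepth 100000
set_option linter.defProp false

namespace Pool.Agent.Work.MP_bde882_al.TC

open Pool.Agent.Work.MP_bde882_al TS64 H87 Tab Pg62

theorem g3_38 (L : Letters) : Good (H69.dec 3 38) (trO T3_38) :=
  good_dec 2 38 9 2 (by decide +kernel) L.g2 (g2_9 L) c3_38 v3_38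

theorem g3_37 (L : Letters) : Good (H69.dec 3 37) (trO T3_37) :=
  good_dec 2 37 9 1 (by decide +kernel) L.g1 (g2_9 L) c3_37 v3_37

theorem g3_34 (L : Letters) : Good (H69.dec 3 34) (trO T3_34) :=
  good_dec 2 34 8 2 (by decide +kernel) L.g2 (g2_8 L) c3_34 v3_34

theorem g3_36 (L : Letters) : Good (H69.dec 3 36) (trO T3_36) :=
  good_dec 2 36 9 0 (by decide +kernel) L.g0 (g2_9 L) c3_36 v3_36

theorem g3_33 (L : Letters) : Good (H69.dec 3 33) (trO T3_33) :=
  good_dec 2 33 8 1 (by decide +kernel) L.g1 (g2_8 L) c3_33 v3_33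

theorem g3_17 (L : Letters) : Good (H69.dec 3 17) (trO T3_17) :=
  good_dec 2 17 4 1 (by decide +kernel) L.g1 (g2_4 L) c3_17 v3_17

theorem g3_32 (L : Letters) : Good (H69.dec 3 32) (trO T3_32) :=
  good_dec 2 32 8 0 (by decide +kernel) L.g0 (g2_8 L) c3_32 v3_32

theorem g3_16 (L : Letters) : Good (H69.dec 3 16) (trO T3_16) :=
  good_dec 2 16 4 0 (by decide +kernel) L.g0 (g2_4 L) c3_16 v3_16

theorem g3_26 (L : Letters) : Good (H69.dec 3 26) (trO T3_26) :=
  good_dec 2 26 6 2 (by decide +kernel) L.g2 (g2_6 L) c3_26 v3_26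

end Pool.Agent.Work.MP_bde882_al.TC
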