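import Pool.Agent.Work.MP_bde882_al_tc.TG3
import Pool.Agent.Work.MP_bde882_al_tc.TC05
import Pool.Agent.Work.MP_bde882_al_tc.TC06
import Pool.Agent.Work.MP_bde882_al_tc.TC07
import Pool.Agent.Work.MP_bde882_al_tc.TC08

/-!
Correct tables, word by word.
-/

set_option autoImplicit false
set_option maxRecDepth 100000
set_option linter.defProp false

namespace Pool.Agent.Work.MP_bde882_al.TC

open Pool.Agent.Work.MP_bde882_al TS64 H87 Tab Pg62

theorem g4_154 (L : Letters) : Good (H69.dec 4 154) (trO T4_154) :=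
  good_dec 3 154 38 2 (by decide +kernel) L.g2 (g3_38 L) c4_154 v4_154

theorem g4_153 (L : Letters) : Good (H69.dec 4 153) (trO T4_153) :=
  good_dec 3 153 38 1 (by decide +kernel) L.g1 (g3_38 L) c4_153 v4_153

theorem g4_149 (L : Letters) : Good (H69.dec 4 149) (trO T4_149) :=
  good_dec 3 149 37 1 (by decide +kernel) L.g1 (g3_37 L) c4_149 v4_149

theorem g4_138 (L : Letters) : Good (H69.dec 4 138) (trO T4_138) :=
  good_dec 3 138 34 2 (by decide +kernel) L.g2 (g3_34 L) c4_138 v4_138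

theorem g4_152 (L : Letters) : Good (H69.dec 4 152) (trO T4_152) :=
  good_dec 3 152 38 0 (by decide +kernel) L.g0 (g3_38 L) c4_152 v4_152

theorem g4_137 (L : Letters) : Good (H69.dec 4 137) (trO T4_137) :=
  good_dec 3 137 34 1 (by decide +kernel) L.g1 (g3_34 L) c4_137 v4_137

theorem g4_146 (L : Letters) : Good (H69.dec 4 146) (trO T4_146) :=
  good_dec 3 146 36 2 (by decide +kernel) L.g2 (g3_36 L) c4_146 v4_146

theorem g4_148 (L : Letters) : Good (H69.dec 4 148) (trO T4_148) :=
  good_dec 3 148 37 0 (by decide +kernel) L.g0 (g3_37 L) c4_148 v4_148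

theorem g4_145 (L : Letters) : Good (H69.dec 4 145) (trO T4_145) :=
  good_dec 3 145 36 1 (by decide +kernel) L.g1 (g3_36 L) c4_145 v4_145

theorem g4_133 (L : Letters) : Good (H69.dec 4 133) (trO T4_133) :=
  good_dec 3 133 33 1 (by decide +kernel) L.g1 (g3_33 L) c4_133 v4_133

theorem g4_69 (L : Letters) : Good (H69.dec 4 69) (trO T4_69) :=
  good_dec 3 69 17 1 (by decide +kernel) L.g1 (g3_17 L) c4_69 v4_69

theorem g4_136 (L : Letters) : Good (H69.dec 4 136) (trO T4_136) :=
  good_dec 3 136 34 0 (by decide +kernel) L.g0 (g3_34 L) c4_136 v4_136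

theorem g4_144 (L : Letters) : Good (H69.dec 4 144) (trO T4_144) :=
  good_dec 3 144 36 0 (by decide +kernel) L.g0 (g3_36 L) c4_144 v4_144

theorem g4_132 (L : Letters) : Good (H69.dec 4 132) (trO T4_132) :=
  good_dec 3 132 33 0 (by decide +kernel) L.g0 (g3_33 L) c4_132 v4_132

theorem g4_129 (L : Letters) : Good (H69.dec 4 129) (trO T4_129) :=
  good_dec 3 129 32 1 (by decide +kernel) L.g1 (g3_32 L) c4_129 v4_129

theorem g4_68 (L : Letters) : Good (H69.dec 4 68) (trO T4_68) :=
  good_dec 3 68 17 0 (by decide +kernel) L.g0 (g3_17 L) c4_68 v4_68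

theorem g4_128 (L : Letters) : Good (H69.dec 4 128) (trO T4_128) :=
  good_dec 3 128 32 0 (by decide +kernel) L.g0 (g3_32 L) c4_128 v4_128

theorem g4_64 (L : Letters) : Good (H69.dec 4 64) (trO T4_64) :=
  good_dec 3 64 16 0 (by decide +kernel) L.g0 (g3_16 L) c4_64 v4_64

theorem g4_106 (L : Letters) : Good (H69.dec 4 106) (trO T4_106) :=
  good_dec 3 106 26 2 (by decide +kernel) L.g2 (g3_26 L) c4_106 v4_106

end Pool.Agent.Work.MP_bde882_al.TC
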