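import Pool.Agent.Work.MP_bde882_al_tc.TG4
import Pool.Agent.Work.MP_bde882_al_tc.TC09
import Pool.Agent.Work.MP_bde882_al_tc.TC10
import Pool.Agent.Work.MP_bde882_al_tc.TC11
import Pool.Agent.Work.MP_bde882_al_tc.TC12
import Pool.Agent.Work.MP_bde882_al_tc.TC13
import Pool.Agent.Work.MP_bde882_al_tc.TC14
import Pool.Agent.Work.MP_bde882_al_tc.TC15

/-!
Correct tables, word by word.
-/

set_option autoImplicit false
set_option maxRecDepth 100000
set_option linter.defProp false

namespace Pool.Agent.Work.MP_bde882_al.TC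

open Pool.Agent.Work.MP_bde882_al TS64 H87 Tab Pg62

theorem g5_618 (L : Letters) : Good (H69.dec 5 618) (trO T5_618) :=
  good_dec 4 618 154 2 (by decide +kernel) L.g2 (g4_154 L) c5_618 v5_618

theorem g5_617 (L : Letters) : Good (H69.dec 5 617) (trO T5_617) :=
  good_dec 4 617 154 1 (by decide +kernel) L.g1 (g4_154 L) c5_617 v5_617

theorem g5_614 (L : Letters) : Good (H69.dec 5 614) (trO T5_614) :=
  good_dec 4 614 153 2 (by decide +kernel) L.g2 (g4_153 L) c5_614 v5_614

theorem g5_613 (L : Letters) : Good (H69.dec 5 613) (trO T5_613) :=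
  good_dec 4 613 153 1 (by decide +kernel) L.g1 (g4_153 L) c5_613 v5_613

theorem g5_598 (L : Letters) : Good (H69.dec 5 598) (trO T5_598) :=
  good_dec 4 598 149 2 (by decide +kernel) L.g2 (g4_149 L) c5_598 v5_598

theorem g5_597 (L : Letters) : Good (H69.dec 5 597) (trO T5_597) :=
  good_dec 4 597 149 1 (by decide +kernel) L.g1 (g4_149 L) c5_597 v5_597

theorem g5_554 (L : Letters) : Good (H69.dec 5 554) (trO T5_554) :=
  good_dec 4 554 138 2 (by decide +kernel) L.g2 (g4_138 L) c5_554 v5_554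

theorem g5_616 (L : Letters) : Good (H69.dec 5 616) (trO T5_616) :=
  good_dec 4 616 154 0 (by decide +kernel) L.g0 (g4_154 L) c5_616 v5_616

theorem g5_553 (L : Letters) : Good (H69.dec 5 553) (trO T5_553) :=
  good_dec 4 553 138 1 (by decide +kernel) L.g1 (g4_138 L) c5_553 v5_553

theorem g5_610 (L : Letters) : Good (H69.dec 5 610) (trO T5_610) :=
  good_dec 4 610 152 2 (by decide +kernel) L.g2 (g4_152 L) c5_610 v5_610

theorem g5_550 (L : Letters) : Good (H69.dec 5 550) (trO T5_550) :=
  good_dec 4 550 137 2 (by decide +kernel) L.g2 (g4_137 L) c5_550 v5_550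

theorem g5_612 (L : Letters) : Good (H69.dec 5 612) (trO T5_612) :=
  good_dec 4 612 153 0 (by decide +kernel) L.g0 (g4_153 L) c5_612 v5_612

theorem g5_609 (L : Letters) : Good (H69.dec 5 609) (trO T5_609) :=
  good_dec 4 609 152 1 (by decide +kernel) L.g1 (g4_152 L) c5_609 v5_609

theorem g5_549 (L : Letters) : Good (H69.dec 5 549) (trO T5_549) :=
  good_dec 4 549 137 1 (by decide +kernel) L.g1 (g4_137 L) c5_549 v5_549

theorem g5_585 (L : Letters) : Good (H69.dec 5 585) (trO T5_585) :=
  good_dec 4 585 146 1 (by decide +kernel) L.g1 (g4_146 L) c5_585 v5_585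

theorem g5_594 (L : Letters) : Good (H69.dec 5 594) (trO T5_594) :=
  good_dec 4 594 148 2 (by decide +kernel) L.g2 (g4_148 L) c5_594 v5_594

theorem g5_582 (L : Letters) : Good (H69.dec 5 582) (trO T5_582) :=
  good_dec 4 582 145 2 (by decide +kernel) L.g2 (g4_145 L) c5_582 v5_582

theorem g5_596 (L : Letters) : Good (H69.dec 5 596) (trO T5_596) :=
  good_dec 4 596 149 0 (by decide +kernel) L.g0 (g4_149 L) c5_596 v5_596

theorem g5_593 (L : Letters) : Good (H69.dec 5 593) (trO T5_593) :=
  good_dec 4 593 148 1 (by decide +kernel) L.g1 (g4_148 L) c5_593 v5_593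

theorem g5_581 (L : Letters) : Good (H69.dec 5 581) (trO T5_581) :=
  good_dec 4 581 145 1 (by decide +kernel) L.g1 (g4_145 L) c5_581 v5_581

theorem g5_533 (L : Letters) : Good (H69.dec 5 533) (trO T5_533) :=
  good_dec 4 533 133 1 (by decide +kernel) L.g1 (g4_133 L) c5_533 v5_533

theorem g5_277 (L : Letters) : Good (H69.dec 5 277) (trO T5_277) :=
  good_dec 4 277 69 1 (by decide +kernel) L.g1 (g4_69 L) c5_277 v5_277

theorem g5_552 (L : Letters) : Good (H69.dec 5 552) (trO T5_552) :=
  good_dec 4 552 138 0 (by decide +kernel) L.g0 (g4_138 L) c5_552 v5_552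

theorem g5_546 (L : Letters) : Good (H69.dec 5 546) (trO T5_546) :=
  good_dec 4 546 136 2 (by decide +kernel) L.g2 (g4_136 L) c5_546 v5_546

theorem g5_608 (L : Letters) : Good (H69.dec 5 608) (trO T5_608) :=
  good_dec 4 608 152 0 (by decide +kernel) L.g0 (g4_152 L) c5_608 v5_608

theorem g5_548 (L : Letters) : Good (H69.dec 5 548) (trO T5_548) :=
  good_dec 4 548 137 0 (by decide +kernel) L.g0 (g4_137 L) c5_548 v5_548

theorem g5_584 (L : Letters) : Good (H69.dec 5 584) (trO T5_584) :=
  good_dec 4 584 146 0 (by decide +kernel) L.g0 (g4_146 L) c5_584 v5_584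

theorem g5_545 (L : Letters) : Good (H69.dec 5 545) (trO T5_545) :=
  good_dec 4 545 136 1 (by decide +kernel) L.g1 (g4_136 L) c5_545 v5_545

theorem g5_578 (L : Letters) : Good (H69.dec 5 578) (trO T5_578) :=
  good_dec 4 578 144 2 (by decide +kernel) L.g2 (g4_144 L) c5_578 v5_578

theorem g5_530 (L : Letters) : Good (H69.dec 5 530) (trO T5_530) :=
  good_dec 4 530 132 2 (by decide +kernel) L.g2 (g4_132 L) c5_530 v5_530

theorem g5_592 (L : Letters) : Good (H69.dec 5 592) (trO T5_592) :=
  good_dec 4 592 148 0 (by decide +kernel) L.g0 (g4_148 L) c5_592 v5_592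

theorem g5_580 (L : Letters) : Good (H69.dec 5 580) (trO T5_580) :=
  good_dec 4 580 145 0 (by decide +kernel) L.g0 (g4_145 L) c5_580 v5_580

theorem g5_532 (L : Letters) : Good (H69.dec 5 532) (trO T5_532) :=
  good_dec 4 532 133 0 (by decide +kernel) L.g0 (g4_133 L) c5_532 v5_532

theorem g5_577 (L : Letters) : Good (H69.dec 5 577) (trO T5_577) :=
  good_dec 4 577 144 1 (by decide +kernel) L.g1 (g4_144 L) c5_577 v5_577

theorem g5_529 (L : Letters) : Good (H69.dec 5 529) (trO T5_529) :=
  good_dec 4 529 132 1 (by decide +kernel) L.g1 (g4_132 L) c5_529 v5_529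

theorem g5_517 (L : Letters) : Good (H69.dec 5 517) (trO T5_517) :=
  good_dec 4 517 129 1 (by decide +kernel) L.g1 (g4_129 L) c5_517 v5_517

theorem g5_276 (L : Letters) : Good (H69.dec 5 276) (trO T5_276) :=
  good_dec 4 276 69 0 (by decide +kernel) L.g0 (g4_69 L) c5_276 v5_276

theorem g5_273 (L : Letters) : Good (H69.dec 5 273) (trO T5_273) :=
  good_dec 4 273 68 1 (by decide +kernel) L.g1 (g4_68 L) c5_273 v5_273

theorem g5_544 (L : Letters) : Good (H69.dec 5 544) (trO T5_544) :=
  good_dec 4 544 136 0 (by decide +kernel) L.g0 (g4_136 L) c5_544 v5_544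

theorem g5_514 (L : Letters) : Good (H69.dec 5 514) (trO T5_514) :=
  good_dec 4 514 128 2 (by decide +kernel) L.g2 (g4_128 L) c5_514 v5_514

theorem g5_576 (L : Letters) : Good (H69.dec 5 576) (trO T5_576) :=
  good_dec 4 576 144 0 (by decide +kernel) L.g0 (g4_144 L) c5_576 v5_576

theorem g5_528 (L : Letters) : Good (H69.dec 5 528) (trO T5_528) :=
  good_dec 4 528 132 0 (by decide +kernel) L.g0 (g4_132 L) c5_528 v5_528

theorem g5_516 (L : Letters) : Good (H69.dec 5 516) (trO T5_516) :=
  good_dec 4 516 129 0 (by decide +kernel) L.g0 (g4_129 L) c5_516 v5_516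

theorem g5_513 (L : Letters) : Good (H69.dec 5 513) (trO T5_513) :=
  good_dec 4 513 128 1 (by decide +kernel) L.g1 (g4_128 L) c5_513 v5_513

theorem g5_272 (L : Letters) : Good (H69.dec 5 272) (trO T5_272) :=
  good_dec 4 272 68 0 (by decide +kernel) L.g0 (g4_68 L) c5_272 v5_272

theorem g5_257 (L : Letters) : Good (H69.dec 5 257) (trO T5_257) :=
  good_dec 4 257 64 1 (by decide +kernel) L.g1 (g4_64 L) c5_257 v5_257

theorem g5_512 (L : Letters) : Good (H69.dec 5 512) (trO T5_512) :=
  good_dec 4 512 128 0 (by decide +kernel) L.g0 (g4_128 L) c5_512 v5_512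

theorem g5_256 (L : Letters) : Good (H69.dec 5 256) (trO T5_256) :=
  good_dec 4 256 64 0 (by decide +kernel) L.g0 (g4_64 L) c5_256 v5_256

theorem g5_426 (L : Letters) : Good (H69.dec 5 426) (trO T5_426) :=
  good_dec 4 426 106 2 (by decide +kernel) L.g2 (g4_106 L) c5_426 v5_426

end Pool.Agent.Work.MP_bde882_al.TC
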