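import Pool.Agent.Work.MP_bde882_al_tc.TG5
import Pool.Agent.Work.MP_bde882_al_tc.TC16
import Pool.Agent.Work.MP_bde882_al_tc.TC17
import Pool.Agent.Work.MP_bde882_al_tc.TC18
import Pool.Agent.Work.MP_bde882_al_tc.TC19
import Pool.Agent.Work.MP_bde882_al_tc.TC20
import Pool.Agent.Work.MP_bde882_al_tc.TC21
import Pool.Agent.Work.MP_bde882_al_tc.TC22
import Pool.Agent.Work.MP_bde882_al_tc.TC23
import Pool.Agent.Work.MP_bde882_al_tc.TC24
import Pool.Agent.Work.MP_bde882_al_tc.TC25
import Pool.Agent.Work.MP_bde882_al_tc.TC26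

/-!
Correct tables, word by word.
-/

set_option autoImplicit false
set_option maxRecDepth 100000
set_option linter.defProp false

namespace Pool.Agent.Work.MP_bde882_al.TC

open Pool.Agent.Work.MP_bde882_al TS64 H87 Tab Pg62

theorem g6_2474 (L : Letters) : Good (H69.dec 6 2474) (trO T6_2474) :=
  good_dec 5 2474 618 2 (by decide +kernel) L.g2 (g5_618 L) c6_2474 v6_2474

theorem g6_2473 (L : Letters) : Good (H69.dec 6 2473) (trO T6_2473) :=
  good_dec 5 2473 618 1 (by decide +kernel) L.g1 (g5_618 L) c6_2473 v6_2473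

theorem g6_2470 (L : Letters) : Good (H69.dec 6 2470) (trO T6_2470) :=
  good_dec 5 2470 617 2 (by decide +kernel) L.g2 (g5_617 L) c6_2470 v6_2470

theorem g6_2469 (L : Letters) : Good (H69.dec 6 2469) (trO T6_2469) :=
  good_dec 5 2469 617 1 (by decide +kernel) L.g1 (g5_617 L) c6_2469 v6_2469

theorem g6_2457 (L : Letters) : Good (H69.dec 6 2457) (trO T6_2457) :=
  good_dec 5 2457 614 1 (by decide +kernel) L.g1 (g5_614 L) c6_2457 v6_2457

theorem g6_2454 (L : Letters) : Good (H69.dec 6 2454) (trO T6_2454) :=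
  good_dec 5 2454 613 2 (by decide +kernel) L.g2 (g5_613 L) c6_2454 v6_2454

theorem g6_2453 (L : Letters) : Good (H69.dec 6 2453) (trO T6_2453) :=
  good_dec 5 2453 613 1 (by decide +kernel) L.g1 (g5_613 L) c6_2453 v6_2453

theorem g6_2393 (L : Letters) : Good (H69.dec 6 2393) (trO T6_2393) :=
  good_dec 5 2393 598 1 (by decide +kernel) L.g1 (g5_598 L) c6_2393 v6_2393

theorem g6_2389 (L : Letters) : Good (H69.dec 6 2389) (trO T6_2389) :=
  good_dec 5 2389 597 1 (by decide +kernel) L.g1 (g5_597 L) c6_2389 v6_2389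

theorem g6_2218 (L : Letters) : Good (H69.dec 6 2218) (trO T6_2218) :=
  good_dec 5 2218 554 2 (by decide +kernel) L.g2 (g5_554 L) c6_2218 v6_2218

theorem g6_2472 (L : Letters) : Good (H69.dec 6 2472) (trO T6_2472) :=
  good_dec 5 2472 618 0 (by decide +kernel) L.g0 (g5_618 L) c6_2472 v6_2472

theorem g6_2217 (L : Letters) : Good (H69.dec 6 2217) (trO T6_2217) :=
  good_dec 5 2217 554 1 (by decide +kernel) L.g1 (g5_554 L) c6_2217 v6_2217

theorem g6_2466 (L : Letters) : Good (H69.dec 6 2466) (trO T6_2466) :=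
  good_dec 5 2466 616 2 (by decide +kernel) L.g2 (g5_616 L) c6_2466 v6_2466

theorem g6_2214 (L : Letters) : Good (H69.dec 6 2214) (trO T6_2214) :=
  good_dec 5 2214 553 2 (by decide +kernel) L.g2 (g5_553 L) c6_2214 v6_2214

theorem g6_2442 (L : Letters) : Good (H69.dec 6 2442) (trO T6_2442) :=
  good_dec 5 2442 610 2 (by decide +kernel) L.g2 (g5_610 L) c6_2442 v6_2442

theorem g6_2468 (L : Letters) : Good (H69.dec 6 2468) (trO T6_2468) :=
  good_dec 5 2468 617 0 (by decide +kernel) L.g0 (g5_617 L) c6_2468 v6_2468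

theorem g6_2456 (L : Letters) : Good (H69.dec 6 2456) (trO T6_2456) :=
  good_dec 5 2456 614 0 (by decide +kernel) L.g0 (g5_614 L) c6_2456 v6_2456

theorem g6_2465 (L : Letters) : Good (H69.dec 6 2465) (trO T6_2465) :=
  good_dec 5 2465 616 1 (by decide +kernel) L.g1 (g5_616 L) c6_2465 v6_2465

theorem g6_2213 (L : Letters) : Good (H69.dec 6 2213) (trO T6_2213) :=
  good_dec 5 2213 553 1 (by decide +kernel) L.g1 (g5_553 L) c6_2213 v6_2213

theorem g6_2441 (L : Letters) : Good (H69.dec 6 2441) (trO T6_2441) :=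
  good_dec 5 2441 610 1 (by decide +kernel) L.g1 (g5_610 L) c6_2441 v6_2441

theorem g6_2201 (L : Letters) : Good (H69.dec 6 2201) (trO T6_2201) :=
  good_dec 5 2201 550 1 (by decide +kernel) L.g1 (g5_550 L) c6_2201 v6_2201

theorem g6_2450 (L : Letters) : Good (H69.dec 6 2450) (trO T6_2450) :=
  good_dec 5 2450 612 2 (by decide +kernel) L.g2 (g5_612 L) c6_2450 v6_2450

theorem g6_2438 (L : Letters) : Good (H69.dec 6 2438) (trO T6_2438) :=
  good_dec 5 2438 609 2 (by decide +kernel) L.g2 (g5_609 L) c6_2438 v6_2438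

theorem g6_2198 (L : Letters) : Good (H69.dec 6 2198) (trO T6_2198) :=
  good_dec 5 2198 549 2 (by decide +kernel) L.g2 (g5_549 L) c6_2198 v6_2198

theorem g6_2342 (L : Letters) : Good (H69.dec 6 2342) (trO T6_2342) :=
  good_dec 5 2342 585 2 (by decide +kernel) L.g2 (g5_585 L) c6_2342 v6_2342

theorem g6_2452 (L : Letters) : Good (H69.dec 6 2452) (trO T6_2452) :=
  good_dec 5 2452 613 0 (by decide +kernel) L.g0 (g5_613 L) c6_2452 v6_2452

theorem g6_2392 (L : Letters) : Good (H69.dec 6 2392) (trO T6_2392) :=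
  good_dec 5 2392 598 0 (by decide +kernel) L.g0 (g5_598 L) c6_2392 v6_2392

theorem g6_2449 (L : Letters) : Good (H69.dec 6 2449) (trO T6_2449) :=
  good_dec 5 2449 612 1 (by decide +kernel) L.g1 (g5_612 L) c6_2449 v6_2449

theorem g6_2437 (L : Letters) : Good (H69.dec 6 2437) (trO T6_2437) :=
  good_dec 5 2437 609 1 (by decide +kernel) L.g1 (g5_609 L) c6_2437 v6_2437

theorem g6_2197 (L : Letters) : Good (H69.dec 6 2197) (trO T6_2197) :=
  good_dec 5 2197 549 1 (by decide +kernel) L.g1 (g5_549 L) c6_2197 v6_2197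

theorem g6_2341 (L : Letters) : Good (H69.dec 6 2341) (trO T6_2341) :=
  good_dec 5 2341 585 1 (by decide +kernel) L.g1 (g5_585 L) c6_2341 v6_2341

theorem g6_2377 (L : Letters) : Good (H69.dec 6 2377) (trO T6_2377) :=
  good_dec 5 2377 594 1 (by decide +kernel) L.g1 (g5_594 L) c6_2377 v6_2377

theorem g6_2329 (L : Letters) : Good (H69.dec 6 2329) (trO T6_2329) :=
  good_dec 5 2329 582 1 (by decide +kernel) L.g1 (g5_582 L) c6_2329 v6_2329

theorem g6_2386 (L : Letters) : Good (H69.dec 6 2386) (trO T6_2386) :=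
  good_dec 5 2386 596 2 (by decide +kernel) L.g2 (g5_596 L) c6_2386 v6_2386

theorem g6_2374 (L : Letters) : Good (H69.dec 6 2374) (trO T6_2374) :=
  good_dec 5 2374 593 2 (by decide +kernel) L.g2 (g5_593 L) c6_2374 v6_2374

theorem g6_2388 (L : Letters) : Good (H69.dec 6 2388) (trO T6_2388) :=
  good_dec 5 2388 597 0 (by decide +kernel) L.g0 (g5_597 L) c6_2388 v6_2388

theorem g6_2385 (L : Letters) : Good (H69.dec 6 2385) (trO T6_2385) :=
  good_dec 5 2385 596 1 (by decide +kernel) L.g1 (g5_596 L) c6_2385 v6_2385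

theorem g6_2373 (L : Letters) : Good (H69.dec 6 2373) (trO T6_2373) :=
  good_dec 5 2373 593 1 (by decide +kernel) L.g1 (g5_593 L) c6_2373 v6_2373

theorem g6_2325 (L : Letters) : Good (H69.dec 6 2325) (trO T6_2325) :=
  good_dec 5 2325 581 1 (by decide +kernel) L.g1 (g5_581 L) c6_2325 v6_2325

theorem g6_2133 (L : Letters) : Good (H69.dec 6 2133) (trO T6_2133) :=
  good_dec 5 2133 533 1 (by decide +kernel) L.g1 (g5_533 L) c6_2133 v6_2133

theorem g6_1109 (L : Letters) : Good (H69.dec 6 1109) (trO T6_1109) :=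
  good_dec 5 1109 277 1 (by decide +kernel) L.g1 (g5_277 L) c6_1109 v6_1109

theorem g6_2216 (L : Letters) : Good (H69.dec 6 2216) (trO T6_2216) :=
  good_dec 5 2216 554 0 (by decide +kernel) L.g0 (g5_554 L) c6_2216 v6_2216

theorem g6_2210 (L : Letters) : Good (H69.dec 6 2210) (trO T6_2210) :=
  good_dec 5 2210 552 2 (by decide +kernel) L.g2 (g5_552 L) c6_2210 v6_2210

theorem g6_2464 (L : Letters) : Good (H69.dec 6 2464) (trO T6_2464) :=
  good_dec 5 2464 616 0 (by decide +kernel) L.g0 (g5_616 L) c6_2464 v6_2464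

theorem g6_2212 (L : Letters) : Good (H69.dec 6 2212) (trO T6_2212) :=
  good_dec 5 2212 553 0 (by decide +kernel) L.g0 (g5_553 L) c6_2212 v6_2212

theorem g6_2440 (L : Letters) : Good (H69.dec 6 2440) (trO T6_2440) :=
  good_dec 5 2440 610 0 (by decide +kernel) L.g0 (g5_610 L) c6_2440 v6_2440

theorem g6_2200 (L : Letters) : Good (H69.dec 6 2200) (trO T6_2200) :=
  good_dec 5 2200 550 0 (by decide +kernel) L.g0 (g5_550 L) c6_2200 v6_2200

theorem g6_2209 (L : Letters) : Good (H69.dec 6 2209) (trO T6_2209) :=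
  good_dec 5 2209 552 1 (by decide +kernel) L.g1 (g5_552 L) c6_2209 v6_2209

theorem g6_2185 (L : Letters) : Good (H69.dec 6 2185) (trO T6_2185) :=
  good_dec 5 2185 546 1 (by decide +kernel) L.g1 (g5_546 L) c6_2185 v6_2185

theorem g6_2434 (L : Letters) : Good (H69.dec 6 2434) (trO T6_2434) :=
  good_dec 5 2434 608 2 (by decide +kernel) L.g2 (g5_608 L) c6_2434 v6_2434

theorem g6_2194 (L : Letters) : Good (H69.dec 6 2194) (trO T6_2194) :=
  good_dec 5 2194 548 2 (by decide +kernel) L.g2 (g5_548 L) c6_2194 v6_2194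

theorem g6_2338 (L : Letters) : Good (H69.dec 6 2338) (trO T6_2338) :=
  good_dec 5 2338 584 2 (by decide +kernel) L.g2 (g5_584 L) c6_2338 v6_2338

theorem g6_2182 (L : Letters) : Good (H69.dec 6 2182) (trO T6_2182) :=
  good_dec 5 2182 545 2 (by decide +kernel) L.g2 (g5_545 L) c6_2182 v6_2182

theorem g6_2448 (L : Letters) : Good (H69.dec 6 2448) (trO T6_2448) :=
  good_dec 5 2448 612 0 (by decide +kernel) L.g0 (g5_612 L) c6_2448 v6_2448

theorem g6_2436 (L : Letters) : Good (H69.dec 6 2436) (trO T6_2436) :=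
  good_dec 5 2436 609 0 (by decide +kernel) L.g0 (g5_609 L) c6_2436 v6_2436

theorem g6_2196 (L : Letters) : Good (H69.dec 6 2196) (trO T6_2196) :=
  good_dec 5 2196 549 0 (by decide +kernel) L.g0 (g5_549 L) c6_2196 v6_2196

theorem g6_2340 (L : Letters) : Good (H69.dec 6 2340) (trO T6_2340) :=
  good_dec 5 2340 585 0 (by decide +kernel) L.g0 (g5_585 L) c6_2340 v6_2340

theorem g6_2376 (L : Letters) : Good (H69.dec 6 2376) (trO T6_2376) :=
  good_dec 5 2376 594 0 (by decide +kernel) L.g0 (g5_594 L) c6_2376 v6_2376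

theorem g6_2328 (L : Letters) : Good (H69.dec 6 2328) (trO T6_2328) :=
  good_dec 5 2328 582 0 (by decide +kernel) L.g0 (g5_582 L) c6_2328 v6_2328

theorem g6_2433 (L : Letters) : Good (H69.dec 6 2433) (trO T6_2433) :=
  good_dec 5 2433 608 1 (by decide +kernel) L.g1 (g5_608 L) c6_2433 v6_2433

theorem g6_2193 (L : Letters) : Good (H69.dec 6 2193) (trO T6_2193) :=
  good_dec 5 2193 548 1 (by decide +kernel) L.g1 (g5_548 L) c6_2193 v6_2193

theorem g6_2337 (L : Letters) : Good (H69.dec 6 2337) (trO T6_2337) :=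
  good_dec 5 2337 584 1 (by decide +kernel) L.g1 (g5_584 L) c6_2337 v6_2337

theorem g6_2181 (L : Letters) : Good (H69.dec 6 2181) (trO T6_2181) :=
  good_dec 5 2181 545 1 (by decide +kernel) L.g1 (g5_545 L) c6_2181 v6_2181

theorem g6_2313 (L : Letters) : Good (H69.dec 6 2313) (trO T6_2313) :=
  good_dec 5 2313 578 1 (by decide +kernel) L.g1 (g5_578 L) c6_2313 v6_2313

theorem g6_2121 (L : Letters) : Good (H69.dec 6 2121) (trO T6_2121) :=
  good_dec 5 2121 530 1 (by decide +kernel) L.g1 (g5_530 L) c6_2121 v6_2121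

theorem g6_2370 (L : Letters) : Good (H69.dec 6 2370) (trO T6_2370) :=
  good_dec 5 2370 592 2 (by decide +kernel) L.g2 (g5_592 L) c6_2370 v6_2370

theorem g6_2322 (L : Letters) : Good (H69.dec 6 2322) (trO T6_2322) :=
  good_dec 5 2322 580 2 (by decide +kernel) L.g2 (g5_580 L) c6_2322 v6_2322

theorem g6_2384 (L : Letters) : Good (H69.dec 6 2384) (trO T6_2384) :=
  good_dec 5 2384 596 0 (by decide +kernel) L.g0 (g5_596 L) c6_2384 v6_2384

theorem g6_2372 (L : Letters) : Good (H69.dec 6 2372) (trO T6_2372) :=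
  good_dec 5 2372 593 0 (by decide +kernel) L.g0 (g5_593 L) c6_2372 v6_2372

theorem g6_2324 (L : Letters) : Good (H69.dec 6 2324) (trO T6_2324) :=
  good_dec 5 2324 581 0 (by decide +kernel) L.g0 (g5_581 L) c6_2324 v6_2324

theorem g6_2132 (L : Letters) : Good (H69.dec 6 2132) (trO T6_2132) :=
  good_dec 5 2132 533 0 (by decide +kernel) L.g0 (g5_533 L) c6_2132 v6_2132

theorem g6_2369 (L : Letters) : Good (H69.dec 6 2369) (trO T6_2369) :=
  good_dec 5 2369 592 1 (by decide +kernel) L.g1 (g5_592 L) c6_2369 v6_2369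

theorem g6_2321 (L : Letters) : Good (H69.dec 6 2321) (trO T6_2321) :=
  good_dec 5 2321 580 1 (by decide +kernel) L.g1 (g5_580 L) c6_2321 v6_2321

theorem g6_2129 (L : Letters) : Good (H69.dec 6 2129) (trO T6_2129) :=
  good_dec 5 2129 532 1 (by decide +kernel) L.g1 (g5_532 L) c6_2129 v6_2129

theorem g6_2309 (L : Letters) : Good (H69.dec 6 2309) (trO T6_2309) :=
  good_dec 5 2309 577 1 (by decide +kernel) L.g1 (g5_577 L) c6_2309 v6_2309

theorem g6_2117 (L : Letters) : Good (H69.dec 6 2117) (trO T6_2117) :=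
  good_dec 5 2117 529 1 (by decide +kernel) L.g1 (g5_529 L) c6_2117 v6_2117

theorem g6_2069 (L : Letters) : Good (H69.dec 6 2069) (trO T6_2069) :=
  good_dec 5 2069 517 1 (by decide +kernel) L.g1 (g5_517 L) c6_2069 v6_2069

theorem g6_1108 (L : Letters) : Good (H69.dec 6 1108) (trO T6_1108) :=
  good_dec 5 1108 277 0 (by decide +kernel) L.g0 (g5_277 L) c6_1108 v6_1108

theorem g6_1105 (L : Letters) : Good (H69.dec 6 1105) (trO T6_1105) :=
  good_dec 5 1105 276 1 (by decide +kernel) L.g1 (g5_276 L) c6_1105 v6_1105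

theorem g6_2208 (L : Letters) : Good (H69.dec 6 2208) (trO T6_2208) :=
  good_dec 5 2208 552 0 (by decide +kernel) L.g0 (g5_552 L) c6_2208 v6_2208

theorem g6_2184 (L : Letters) : Good (H69.dec 6 2184) (trO T6_2184) :=
  good_dec 5 2184 546 0 (by decide +kernel) L.g0 (g5_546 L) c6_2184 v6_2184

theorem g6_2178 (L : Letters) : Good (H69.dec 6 2178) (trO T6_2178) :=
  good_dec 5 2178 544 2 (by decide +kernel) L.g2 (g5_544 L) c6_2178 v6_2178

theorem g6_2432 (L : Letters) : Good (H69.dec 6 2432) (trO T6_2432) :=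
  good_dec 5 2432 608 0 (by decide +kernel) L.g0 (g5_608 L) c6_2432 v6_2432

theorem g6_2192 (L : Letters) : Good (H69.dec 6 2192) (trO T6_2192) :=
  good_dec 5 2192 548 0 (by decide +kernel) L.g0 (g5_548 L) c6_2192 v6_2192

theorem g6_2336 (L : Letters) : Good (H69.dec 6 2336) (trO T6_2336) :=
  good_dec 5 2336 584 0 (by decide +kernel) L.g0 (g5_584 L) c6_2336 v6_2336

theorem g6_2180 (L : Letters) : Good (H69.dec 6 2180) (trO T6_2180) :=
  good_dec 5 2180 545 0 (by decide +kernel) L.g0 (g5_545 L) c6_2180 v6_2180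

theorem g6_2312 (L : Letters) : Good (H69.dec 6 2312) (trO T6_2312) :=
  good_dec 5 2312 578 0 (by decide +kernel) L.g0 (g5_578 L) c6_2312 v6_2312

theorem g6_2120 (L : Letters) : Good (H69.dec 6 2120) (trO T6_2120) :=
  good_dec 5 2120 530 0 (by decide +kernel) L.g0 (g5_530 L) c6_2120 v6_2120

theorem g6_2177 (L : Letters) : Good (H69.dec 6 2177) (trO T6_2177) :=
  good_dec 5 2177 544 1 (by decide +kernel) L.g1 (g5_544 L) c6_2177 v6_2177

theorem g6_2057 (L : Letters) : Good (H69.dec 6 2057) (trO T6_2057) :=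
  good_dec 5 2057 514 1 (by decide +kernel) L.g1 (g5_514 L) c6_2057 v6_2057

theorem g6_2306 (L : Letters) : Good (H69.dec 6 2306) (trO T6_2306) :=
  good_dec 5 2306 576 2 (by decide +kernel) L.g2 (g5_576 L) c6_2306 v6_2306

theorem g6_2114 (L : Letters) : Good (H69.dec 6 2114) (trO T6_2114) :=
  good_dec 5 2114 528 2 (by decide +kernel) L.g2 (g5_528 L) c6_2114 v6_2114

theorem g6_2368 (L : Letters) : Good (H69.dec 6 2368) (trO T6_2368) :=
  good_dec 5 2368 592 0 (by decide +kernel) L.g0 (g5_592 L) c6_2368 v6_2368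

theorem g6_2320 (L : Letters) : Good (H69.dec 6 2320) (trO T6_2320) :=
  good_dec 5 2320 580 0 (by decide +kernel) L.g0 (g5_580 L) c6_2320 v6_2320

theorem g6_2128 (L : Letters) : Good (H69.dec 6 2128) (trO T6_2128) :=
  good_dec 5 2128 532 0 (by decide +kernel) L.g0 (g5_532 L) c6_2128 v6_2128

theorem g6_2308 (L : Letters) : Good (H69.dec 6 2308) (trO T6_2308) :=
  good_dec 5 2308 577 0 (by decide +kernel) L.g0 (g5_577 L) c6_2308 v6_2308

theorem g6_2116 (L : Letters) : Good (H69.dec 6 2116) (trO T6_2116) :=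
  good_dec 5 2116 529 0 (by decide +kernel) L.g0 (g5_529 L) c6_2116 v6_2116

theorem g6_2068 (L : Letters) : Good (H69.dec 6 2068) (trO T6_2068) :=
  good_dec 5 2068 517 0 (by decide +kernel) L.g0 (g5_517 L) c6_2068 v6_2068

theorem g6_2305 (L : Letters) : Good (H69.dec 6 2305) (trO T6_2305) :=
  good_dec 5 2305 576 1 (by decide +kernel) L.g1 (g5_576 L) c6_2305 v6_2305

theorem g6_2113 (L : Letters) : Good (H69.dec 6 2113) (trO T6_2113) :=
  good_dec 5 2113 528 1 (by decide +kernel) L.g1 (g5_528 L) c6_2113 v6_2113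

theorem g6_2065 (L : Letters) : Good (H69.dec 6 2065) (trO T6_2065) :=
  good_dec 5 2065 516 1 (by decide +kernel) L.g1 (g5_516 L) c6_2065 v6_2065

theorem g6_2053 (L : Letters) : Good (H69.dec 6 2053) (trO T6_2053) :=
  good_dec 5 2053 513 1 (by decide +kernel) L.g1 (g5_513 L) c6_2053 v6_2053

theorem g6_1104 (L : Letters) : Good (H69.dec 6 1104) (trO T6_1104) :=
  good_dec 5 1104 276 0 (by decide +kernel) L.g0 (g5_276 L) c6_1104 v6_1104

theorem g6_1092 (L : Letters) : Good (H69.dec 6 1092) (trO T6_1092) :=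
  good_dec 5 1092 273 0 (by decide +kernel) L.g0 (g5_273 L) c6_1092 v6_1092

theorem g6_1089 (L : Letters) : Good (H69.dec 6 1089) (trO T6_1089) :=
  good_dec 5 1089 272 1 (by decide +kernel) L.g1 (g5_272 L) c6_1089 v6_1089

theorem g6_2176 (L : Letters) : Good (H69.dec 6 2176) (trO T6_2176) :=
  good_dec 5 2176 544 0 (by decide +kernel) L.g0 (g5_544 L) c6_2176 v6_2176

theorem g6_2056 (L : Letters) : Good (H69.dec 6 2056) (trO T6_2056) :=
  good_dec 5 2056 514 0 (by decide +kernel) L.g0 (g5_514 L) c6_2056 v6_2056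

theorem g6_2304 (L : Letters) : Good (H69.dec 6 2304) (trO T6_2304) :=
  good_dec 5 2304 576 0 (by decide +kernel) L.g0 (g5_576 L) c6_2304 v6_2304

theorem g6_2112 (L : Letters) : Good (H69.dec 6 2112) (trO T6_2112) :=
  good_dec 5 2112 528 0 (by decide +kernel) L.g0 (g5_528 L) c6_2112 v6_2112

theorem g6_2064 (L : Letters) : Good (H69.dec 6 2064) (trO T6_2064) :=
  good_dec 5 2064 516 0 (by decide +kernel) L.g0 (g5_516 L) c6_2064 v6_2064

theorem g6_2052 (L : Letters) : Good (H69.dec 6 2052) (trO T6_2052) :=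
  good_dec 5 2052 513 0 (by decide +kernel) L.g0 (g5_513 L) c6_2052 v6_2052

theorem g6_2049 (L : Letters) : Good (H69.dec 6 2049) (trO T6_2049) :=
  good_dec 5 2049 512 1 (by decide +kernel) L.g1 (g5_512 L) c6_2049 v6_2049

theorem g6_1088 (L : Letters) : Good (H69.dec 6 1088) (trO T6_1088) :=
  good_dec 5 1088 272 0 (by decide +kernel) L.g0 (g5_272 L) c6_1088 v6_1088

theorem g6_1028 (L : Letters) : Good (H69.dec 6 1028) (trO T6_1028) :=
  good_dec 5 1028 257 0 (by decide +kernel) L.g0 (g5_257 L) c6_1028 v6_1028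

theorem g6_2048 (L : Letters) : Good (H69.dec 6 2048) (trO T6_2048) :=
  good_dec 5 2048 512 0 (by decide +kernel) L.g0 (g5_512 L) c6_2048 v6_2048

theorem g6_1024 (L : Letters) : Good (H69.dec 6 1024) (trO T6_1024) :=
  good_dec 5 1024 256 0 (by decide +kernel) L.g0 (g5_256 L) c6_1024 v6_1024

theorem g6_1706 (L : Letters) : Good (H69.dec 6 1706) (trO T6_1706) :=
  good_dec 5 1706 426 2 (by decide +kernel) L.g2 (g5_426 L) c6_1706 v6_1706

end Pool.Agent.Work.MP_bde882_al.TC
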