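import Pool.Agent.Work.MP_bde882_al_tc.TG6
import Pool.Agent.Work.MP_bde882_al_tc.TC27
import Pool.Agent.Work.MP_bde882_al_tc.TC28
import Pool.Agent.Work.MP_bde882_al_tc.TC29
import Pool.Agent.Work.MP_bde882_al_tc.TC30
import Pool.Agent.Work.MP_bde882_al_tc.TC31
import Pool.Agent.Work.MP_bde882_al_tc.TC32
import Pool.Agent.Work.MP_bde882_al_tc.TC33
import Pool.Agent.Work.MP_bde882_al_tc.TC34
import Pool.Agent.Work.MP_bde882_al_tc.TC35
import Pool.Agent.Work.MP_bde882_al_tc.TC36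
import Pool.Agent.Work.MP_bde882_al_tc.TC37
import Pool.Agent.Work.MP_bde882_al_tc.TC38
import Pool.Agent.Work.MP_bde882_al_tc.TC39
import Pool.Agent.Work.MP_bde882_al_tc.TC40
import Pool.Agent.Work.MP_bde882_al_tc.TC41
import Pool.Agent.Work.MP_bde882_al_tc.TC42
import Pool.Agent.Work.MP_bde882_al_tc.TC43

/-!
Correct tables, word by word.
-/

set_option autoImplicit false
set_option maxRecDepth 100000
set_option linter.defProp false

namespace Pool.Agent.Work.MP_bde882_al.TC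

open Pool.Agent.Work.MP_bde882_al TS64 H87 Tab Pg62

theorem g7_9898 (L : Letters) : Good (H69.dec 7 9898) (trO T7_9898) :=
  good_dec 6 9898 2474 2 (by decide +kernel) L.g2 (g6_2474 L) c7_9898 v7_9898

theorem g7_9897 (L : Letters) : Good (H69.dec 7 9897) (trO T7_9897) :=
  good_dec 6 9897 2474 1 (by decide +kernel) L.g1 (g6_2474 L) c7_9897 v7_9897

theorem g7_9894 (L : Letters) : Good (H69.dec 7 9894) (trO T7_9894) :=
  good_dec 6 9894 2473 2 (by decide +kernel) L.g2 (g6_2473 L) c7_9894 v7_9894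

theorem g7_9882 (L : Letters) : Good (H69.dec 7 9882) (trO T7_9882) :=
  good_dec 6 9882 2470 2 (by decide +kernel) L.g2 (g6_2470 L) c7_9882 v7_9882

theorem g7_9893 (L : Letters) : Good (H69.dec 7 9893) (trO T7_9893) :=
  good_dec 6 9893 2473 1 (by decide +kernel) L.g1 (g6_2473 L) c7_9893 v7_9893

theorem g7_9881 (L : Letters) : Good (H69.dec 7 9881) (trO T7_9881) :=
  good_dec 6 9881 2470 1 (by decide +kernel) L.g1 (g6_2470 L) c7_9881 v7_9881

theorem g7_9878 (L : Letters) : Good (H69.dec 7 9878) (trO T7_9878) :=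
  good_dec 6 9878 2469 2 (by decide +kernel) L.g2 (g6_2469 L) c7_9878 v7_9878

theorem g7_9830 (L : Letters) : Good (H69.dec 7 9830) (trO T7_9830) :=
  good_dec 6 9830 2457 2 (by decide +kernel) L.g2 (g6_2457 L) c7_9830 v7_9830

theorem g7_9818 (L : Letters) : Good (H69.dec 7 9818) (trO T7_9818) :=
  good_dec 6 9818 2454 2 (by decide +kernel) L.g2 (g6_2454 L) c7_9818 v7_9818

theorem g7_9877 (L : Letters) : Good (H69.dec 7 9877) (trO T7_9877) :=
  good_dec 6 9877 2469 1 (by decide +kernel) L.g1 (g6_2469 L) c7_9877 v7_9877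

theorem g7_9829 (L : Letters) : Good (H69.dec 7 9829) (trO T7_9829) :=
  good_dec 6 9829 2457 1 (by decide +kernel) L.g1 (g6_2457 L) c7_9829 v7_9829

theorem g7_9817 (L : Letters) : Good (H69.dec 7 9817) (trO T7_9817) :=
  good_dec 6 9817 2454 1 (by decide +kernel) L.g1 (g6_2454 L) c7_9817 v7_9817

theorem g7_9814 (L : Letters) : Good (H69.dec 7 9814) (trO T7_9814) :=
  good_dec 6 9814 2453 2 (by decide +kernel) L.g2 (g6_2453 L) c7_9814 v7_9814

theorem g7_9574 (L : Letters) : Good (H69.dec 7 9574) (trO T7_9574) :=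
  good_dec 6 9574 2393 2 (by decide +kernel) L.g2 (g6_2393 L) c7_9574 v7_9574

theorem g7_9813 (L : Letters) : Good (H69.dec 7 9813) (trO T7_9813) :=
  good_dec 6 9813 2453 1 (by decide +kernel) L.g1 (g6_2453 L) c7_9813 v7_9813

theorem g7_9573 (L : Letters) : Good (H69.dec 7 9573) (trO T7_9573) :=
  good_dec 6 9573 2393 1 (by decide +kernel) L.g1 (g6_2393 L) c7_9573 v7_9573

theorem g7_9558 (L : Letters) : Good (H69.dec 7 9558) (trO T7_9558) :=
  good_dec 6 9558 2389 2 (by decide +kernel) L.g2 (g6_2389 L) c7_9558 v7_9558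

theorem g7_9557 (L : Letters) : Good (H69.dec 7 9557) (trO T7_9557) :=
  good_dec 6 9557 2389 1 (by decide +kernel) L.g1 (g6_2389 L) c7_9557 v7_9557

theorem g7_8874 (L : Letters) : Good (H69.dec 7 8874) (trO T7_8874) :=
  good_dec 6 8874 2218 2 (by decide +kernel) L.g2 (g6_2218 L) c7_8874 v7_8874

theorem g7_9896 (L : Letters) : Good (H69.dec 7 9896) (trO T7_9896) :=
  good_dec 6 9896 2474 0 (by decide +kernel) L.g0 (g6_2474 L) c7_9896 v7_9896

theorem g7_8873 (L : Letters) : Good (H69.dec 7 8873) (trO T7_8873) :=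
  good_dec 6 8873 2218 1 (by decide +kernel) L.g1 (g6_2218 L) c7_8873 v7_8873

theorem g7_9890 (L : Letters) : Good (H69.dec 7 9890) (trO T7_9890) :=
  good_dec 6 9890 2472 2 (by decide +kernel) L.g2 (g6_2472 L) c7_9890 v7_9890

theorem g7_8870 (L : Letters) : Good (H69.dec 7 8870) (trO T7_8870) :=
  good_dec 6 8870 2217 2 (by decide +kernel) L.g2 (g6_2217 L) c7_8870 v7_8870

theorem g7_9866 (L : Letters) : Good (H69.dec 7 9866) (trO T7_9866) :=
  good_dec 6 9866 2466 2 (by decide +kernel) L.g2 (g6_2466 L) c7_9866 v7_9866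

theorem g7_8858 (L : Letters) : Good (H69.dec 7 8858) (trO T7_8858) :=
  good_dec 6 8858 2214 2 (by decide +kernel) L.g2 (g6_2214 L) c7_8858 v7_8858

theorem g7_9892 (L : Letters) : Good (H69.dec 7 9892) (trO T7_9892) :=
  good_dec 6 9892 2473 0 (by decide +kernel) L.g0 (g6_2473 L) c7_9892 v7_9892

theorem g7_9880 (L : Letters) : Good (H69.dec 7 9880) (trO T7_9880) :=
  good_dec 6 9880 2470 0 (by decide +kernel) L.g0 (g6_2470 L) c7_9880 v7_9880

theorem g7_9889 (L : Letters) : Good (H69.dec 7 9889) (trO T7_9889) :=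
  good_dec 6 9889 2472 1 (by decide +kernel) L.g1 (g6_2472 L) c7_9889 v7_9889

theorem g7_8869 (L : Letters) : Good (H69.dec 7 8869) (trO T7_8869) :=
  good_dec 6 8869 2217 1 (by decide +kernel) L.g1 (g6_2217 L) c7_8869 v7_8869

theorem g7_9865 (L : Letters) : Good (H69.dec 7 9865) (trO T7_9865) :=
  good_dec 6 9865 2466 1 (by decide +kernel) L.g1 (g6_2466 L) c7_9865 v7_9865

theorem g7_8857 (L : Letters) : Good (H69.dec 7 8857) (trO T7_8857) :=
  good_dec 6 8857 2214 1 (by decide +kernel) L.g1 (g6_2214 L) c7_8857 v7_8857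

theorem g7_9769 (L : Letters) : Good (H69.dec 7 9769) (trO T7_9769) :=
  good_dec 6 9769 2442 1 (by decide +kernel) L.g1 (g6_2442 L) c7_9769 v7_9769

theorem g7_9874 (L : Letters) : Good (H69.dec 7 9874) (trO T7_9874) :=
  good_dec 6 9874 2468 2 (by decide +kernel) L.g2 (g6_2468 L) c7_9874 v7_9874

theorem g7_9826 (L : Letters) : Good (H69.dec 7 9826) (trO T7_9826) :=
  good_dec 6 9826 2456 2 (by decide +kernel) L.g2 (g6_2456 L) c7_9826 v7_9826

theorem g7_9862 (L : Letters) : Good (H69.dec 7 9862) (trO T7_9862) :=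
  good_dec 6 9862 2465 2 (by decide +kernel) L.g2 (g6_2465 L) c7_9862 v7_9862

theorem g7_8854 (L : Letters) : Good (H69.dec 7 8854) (trO T7_8854) :=
  good_dec 6 8854 2213 2 (by decide +kernel) L.g2 (g6_2213 L) c7_8854 v7_8854

theorem g7_9766 (L : Letters) : Good (H69.dec 7 9766) (trO T7_9766) :=
  good_dec 6 9766 2441 2 (by decide +kernel) L.g2 (g6_2441 L) c7_9766 v7_9766

theorem g7_8806 (L : Letters) : Good (H69.dec 7 8806) (trO T7_8806) :=
  good_dec 6 8806 2201 2 (by decide +kernel) L.g2 (g6_2201 L) c7_8806 v7_8806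

theorem g7_9802 (L : Letters) : Good (H69.dec 7 9802) (trO T7_9802) :=
  good_dec 6 9802 2450 2 (by decide +kernel) L.g2 (g6_2450 L) c7_9802 v7_9802

theorem g7_9754 (L : Letters) : Good (H69.dec 7 9754) (trO T7_9754) :=
  good_dec 6 9754 2438 2 (by decide +kernel) L.g2 (g6_2438 L) c7_9754 v7_9754

theorem g7_9876 (L : Letters) : Good (H69.dec 7 9876) (trO T7_9876) :=
  good_dec 6 9876 2469 0 (by decide +kernel) L.g0 (g6_2469 L) c7_9876 v7_9876

theorem g7_9828 (L : Letters) : Good (H69.dec 7 9828) (trO T7_9828) :=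
  good_dec 6 9828 2457 0 (by decide +kernel) L.g0 (g6_2457 L) c7_9828 v7_9828

theorem g7_9816 (L : Letters) : Good (H69.dec 7 9816) (trO T7_9816) :=
  good_dec 6 9816 2454 0 (by decide +kernel) L.g0 (g6_2454 L) c7_9816 v7_9816

theorem g7_9873 (L : Letters) : Good (H69.dec 7 9873) (trO T7_9873) :=
  good_dec 6 9873 2468 1 (by decide +kernel) L.g1 (g6_2468 L) c7_9873 v7_9873

theorem g7_9825 (L : Letters) : Good (H69.dec 7 9825) (trO T7_9825) :=
  good_dec 6 9825 2456 1 (by decide +kernel) L.g1 (g6_2456 L) c7_9825 v7_9825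

theorem g7_9861 (L : Letters) : Good (H69.dec 7 9861) (trO T7_9861) :=
  good_dec 6 9861 2465 1 (by decide +kernel) L.g1 (g6_2465 L) c7_9861 v7_9861

theorem g7_8853 (L : Letters) : Good (H69.dec 7 8853) (trO T7_8853) :=
  good_dec 6 8853 2213 1 (by decide +kernel) L.g1 (g6_2213 L) c7_8853 v7_8853

theorem g7_9765 (L : Letters) : Good (H69.dec 7 9765) (trO T7_9765) :=
  good_dec 6 9765 2441 1 (by decide +kernel) L.g1 (g6_2441 L) c7_9765 v7_9765

theorem g7_8805 (L : Letters) : Good (H69.dec 7 8805) (trO T7_8805) :=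
  good_dec 6 8805 2201 1 (by decide +kernel) L.g1 (g6_2201 L) c7_8805 v7_8805

theorem g7_9801 (L : Letters) : Good (H69.dec 7 9801) (trO T7_9801) :=
  good_dec 6 9801 2450 1 (by decide +kernel) L.g1 (g6_2450 L) c7_9801 v7_9801

theorem g7_9753 (L : Letters) : Good (H69.dec 7 9753) (trO T7_9753) :=
  good_dec 6 9753 2438 1 (by decide +kernel) L.g1 (g6_2438 L) c7_9753 v7_9753

theorem g7_8793 (L : Letters) : Good (H69.dec 7 8793) (trO T7_8793) :=
  good_dec 6 8793 2198 1 (by decide +kernel) L.g1 (g6_2198 L) c7_8793 v7_8793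

theorem g7_9369 (L : Letters) : Good (H69.dec 7 9369) (trO T7_9369) :=
  good_dec 6 9369 2342 1 (by decide +kernel) L.g1 (g6_2342 L) c7_9369 v7_9369

theorem g7_9810 (L : Letters) : Good (H69.dec 7 9810) (trO T7_9810) :=
  good_dec 6 9810 2452 2 (by decide +kernel) L.g2 (g6_2452 L) c7_9810 v7_9810

theorem g7_9570 (L : Letters) : Good (H69.dec 7 9570) (trO T7_9570) :=
  good_dec 6 9570 2392 2 (by decide +kernel) L.g2 (g6_2392 L) c7_9570 v7_9570

theorem g7_9798 (L : Letters) : Good (H69.dec 7 9798) (trO T7_9798) :=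
  good_dec 6 9798 2449 2 (by decide +kernel) L.g2 (g6_2449 L) c7_9798 v7_9798

theorem g7_9750 (L : Letters) : Good (H69.dec 7 9750) (trO T7_9750) :=
  good_dec 6 9750 2437 2 (by decide +kernel) L.g2 (g6_2437 L) c7_9750 v7_9750

theorem g7_8790 (L : Letters) : Good (H69.dec 7 8790) (trO T7_8790) :=
  good_dec 6 8790 2197 2 (by decide +kernel) L.g2 (g6_2197 L) c7_8790 v7_8790

theorem g7_9366 (L : Letters) : Good (H69.dec 7 9366) (trO T7_9366) :=
  good_dec 6 9366 2341 2 (by decide +kernel) L.g2 (g6_2341 L) c7_9366 v7_9366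

theorem g7_9318 (L : Letters) : Good (H69.dec 7 9318) (trO T7_9318) :=
  good_dec 6 9318 2329 2 (by decide +kernel) L.g2 (g6_2329 L) c7_9318 v7_9318

theorem g7_9812 (L : Letters) : Good (H69.dec 7 9812) (trO T7_9812) :=
  good_dec 6 9812 2453 0 (by decide +kernel) L.g0 (g6_2453 L) c7_9812 v7_9812

theorem g7_9572 (L : Letters) : Good (H69.dec 7 9572) (trO T7_9572) :=
  good_dec 6 9572 2393 0 (by decide +kernel) L.g0 (g6_2393 L) c7_9572 v7_9572

theorem g7_9809 (L : Letters) : Good (H69.dec 7 9809) (trO T7_9809) :=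
  good_dec 6 9809 2452 1 (by decide +kernel) L.g1 (g6_2452 L) c7_9809 v7_9809

theorem g7_9569 (L : Letters) : Good (H69.dec 7 9569) (trO T7_9569) :=
  good_dec 6 9569 2392 1 (by decide +kernel) L.g1 (g6_2392 L) c7_9569 v7_9569

theorem g7_9797 (L : Letters) : Good (H69.dec 7 9797) (trO T7_9797) :=
  good_dec 6 9797 2449 1 (by decide +kernel) L.g1 (g6_2449 L) c7_9797 v7_9797

theorem g7_9749 (L : Letters) : Good (H69.dec 7 9749) (trO T7_9749) :=
  good_dec 6 9749 2437 1 (by decide +kernel) L.g1 (g6_2437 L) c7_9749 v7_9749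

theorem g7_8789 (L : Letters) : Good (H69.dec 7 8789) (trO T7_8789) :=
  good_dec 6 8789 2197 1 (by decide +kernel) L.g1 (g6_2197 L) c7_8789 v7_8789

theorem g7_9365 (L : Letters) : Good (H69.dec 7 9365) (trO T7_9365) :=
  good_dec 6 9365 2341 1 (by decide +kernel) L.g1 (g6_2341 L) c7_9365 v7_9365

theorem g7_9509 (L : Letters) : Good (H69.dec 7 9509) (trO T7_9509) :=
  good_dec 6 9509 2377 1 (by decide +kernel) L.g1 (g6_2377 L) c7_9509 v7_9509

theorem g7_9317 (L : Letters) : Good (H69.dec 7 9317) (trO T7_9317) :=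
  good_dec 6 9317 2329 1 (by decide +kernel) L.g1 (g6_2329 L) c7_9317 v7_9317

theorem g7_9545 (L : Letters) : Good (H69.dec 7 9545) (trO T7_9545) :=
  good_dec 6 9545 2386 1 (by decide +kernel) L.g1 (g6_2386 L) c7_9545 v7_9545

theorem g7_9497 (L : Letters) : Good (H69.dec 7 9497) (trO T7_9497) :=
  good_dec 6 9497 2374 1 (by decide +kernel) L.g1 (g6_2374 L) c7_9497 v7_9497

theorem g7_9554 (L : Letters) : Good (H69.dec 7 9554) (trO T7_9554) :=
  good_dec 6 9554 2388 2 (by decide +kernel) L.g2 (g6_2388 L) c7_9554 v7_9554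

theorem g7_9542 (L : Letters) : Good (H69.dec 7 9542) (trO T7_9542) :=
  good_dec 6 9542 2385 2 (by decide +kernel) L.g2 (g6_2385 L) c7_9542 v7_9542

theorem g7_9494 (L : Letters) : Good (H69.dec 7 9494) (trO T7_9494) :=
  good_dec 6 9494 2373 2 (by decide +kernel) L.g2 (g6_2373 L) c7_9494 v7_9494

theorem g7_9556 (L : Letters) : Good (H69.dec 7 9556) (trO T7_9556) :=
  good_dec 6 9556 2389 0 (by decide +kernel) L.g0 (g6_2389 L) c7_9556 v7_9556

theorem g7_9553 (L : Letters) : Good (H69.dec 7 9553) (trO T7_9553) :=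
  good_dec 6 9553 2388 1 (by decide +kernel) L.g1 (g6_2388 L) c7_9553 v7_9553

theorem g7_9541 (L : Letters) : Good (H69.dec 7 9541) (trO T7_9541) :=
  good_dec 6 9541 2385 1 (by decide +kernel) L.g1 (g6_2385 L) c7_9541 v7_9541

theorem g7_9493 (L : Letters) : Good (H69.dec 7 9493) (trO T7_9493) :=
  good_dec 6 9493 2373 1 (by decide +kernel) L.g1 (g6_2373 L) c7_9493 v7_9493

theorem g7_9301 (L : Letters) : Good (H69.dec 7 9301) (trO T7_9301) :=
  good_dec 6 9301 2325 1 (by decide +kernel) L.g1 (g6_2325 L) c7_9301 v7_9301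

theorem g7_8533 (L : Letters) : Good (H69.dec 7 8533) (trO T7_8533) :=
  good_dec 6 8533 2133 1 (by decide +kernel) L.g1 (g6_2133 L) c7_8533 v7_8533

theorem g7_4437 (L : Letters) : Good (H69.dec 7 4437) (trO T7_4437) :=
  good_dec 6 4437 1109 1 (by decide +kernel) L.g1 (g6_1109 L) c7_4437 v7_4437

theorem g7_8872 (L : Letters) : Good (H69.dec 7 8872) (trO T7_8872) :=
  good_dec 6 8872 2218 0 (by decide +kernel) L.g0 (g6_2218 L) c7_8872 v7_8872

theorem g7_8866 (L : Letters) : Good (H69.dec 7 8866) (trO T7_8866) :=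
  good_dec 6 8866 2216 2 (by decide +kernel) L.g2 (g6_2216 L) c7_8866 v7_8866

theorem g7_8842 (L : Letters) : Good (H69.dec 7 8842) (trO T7_8842) :=
  good_dec 6 8842 2210 2 (by decide +kernel) L.g2 (g6_2210 L) c7_8842 v7_8842

theorem g7_9888 (L : Letters) : Good (H69.dec 7 9888) (trO T7_9888) :=
  good_dec 6 9888 2472 0 (by decide +kernel) L.g0 (g6_2472 L) c7_9888 v7_9888

theorem g7_8868 (L : Letters) : Good (H69.dec 7 8868) (trO T7_8868) :=
  good_dec 6 8868 2217 0 (by decide +kernel) L.g0 (g6_2217 L) c7_8868 v7_8868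

theorem g7_9864 (L : Letters) : Good (H69.dec 7 9864) (trO T7_9864) :=
  good_dec 6 9864 2466 0 (by decide +kernel) L.g0 (g6_2466 L) c7_9864 v7_9864

theorem g7_8856 (L : Letters) : Good (H69.dec 7 8856) (trO T7_8856) :=
  good_dec 6 8856 2214 0 (by decide +kernel) L.g0 (g6_2214 L) c7_8856 v7_8856

theorem g7_9768 (L : Letters) : Good (H69.dec 7 9768) (trO T7_9768) :=
  good_dec 6 9768 2442 0 (by decide +kernel) L.g0 (g6_2442 L) c7_9768 v7_9768

theorem g7_8865 (L : Letters) : Good (H69.dec 7 8865) (trO T7_8865) :=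
  good_dec 6 8865 2216 1 (by decide +kernel) L.g1 (g6_2216 L) c7_8865 v7_8865

theorem g7_8841 (L : Letters) : Good (H69.dec 7 8841) (trO T7_8841) :=
  good_dec 6 8841 2210 1 (by decide +kernel) L.g1 (g6_2210 L) c7_8841 v7_8841

theorem g7_9858 (L : Letters) : Good (H69.dec 7 9858) (trO T7_9858) :=
  good_dec 6 9858 2464 2 (by decide +kernel) L.g2 (g6_2464 L) c7_9858 v7_9858

theorem g7_8850 (L : Letters) : Good (H69.dec 7 8850) (trO T7_8850) :=
  good_dec 6 8850 2212 2 (by decide +kernel) L.g2 (g6_2212 L) c7_8850 v7_8850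

theorem g7_9762 (L : Letters) : Good (H69.dec 7 9762) (trO T7_9762) :=
  good_dec 6 9762 2440 2 (by decide +kernel) L.g2 (g6_2440 L) c7_9762 v7_9762

theorem g7_8802 (L : Letters) : Good (H69.dec 7 8802) (trO T7_8802) :=
  good_dec 6 8802 2200 2 (by decide +kernel) L.g2 (g6_2200 L) c7_8802 v7_8802

theorem g7_8838 (L : Letters) : Good (H69.dec 7 8838) (trO T7_8838) :=
  good_dec 6 8838 2209 2 (by decide +kernel) L.g2 (g6_2209 L) c7_8838 v7_8838

theorem g7_8742 (L : Letters) : Good (H69.dec 7 8742) (trO T7_8742) :=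
  good_dec 6 8742 2185 2 (by decide +kernel) L.g2 (g6_2185 L) c7_8742 v7_8742

theorem g7_9738 (L : Letters) : Good (H69.dec 7 9738) (trO T7_9738) :=
  good_dec 6 9738 2434 2 (by decide +kernel) L.g2 (g6_2434 L) c7_9738 v7_9738

theorem g7_8778 (L : Letters) : Good (H69.dec 7 8778) (trO T7_8778) :=
  good_dec 6 8778 2194 2 (by decide +kernel) L.g2 (g6_2194 L) c7_8778 v7_8778

theorem g7_9872 (L : Letters) : Good (H69.dec 7 9872) (trO T7_9872) :=
  good_dec 6 9872 2468 0 (by decide +kernel) L.g0 (g6_2468 L) c7_9872 v7_9872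

theorem g7_9824 (L : Letters) : Good (H69.dec 7 9824) (trO T7_9824) :=
  good_dec 6 9824 2456 0 (by decide +kernel) L.g0 (g6_2456 L) c7_9824 v7_9824

theorem g7_9860 (L : Letters) : Good (H69.dec 7 9860) (trO T7_9860) :=
  good_dec 6 9860 2465 0 (by decide +kernel) L.g0 (g6_2465 L) c7_9860 v7_9860

theorem g7_8852 (L : Letters) : Good (H69.dec 7 8852) (trO T7_8852) :=
  good_dec 6 8852 2213 0 (by decide +kernel) L.g0 (g6_2213 L) c7_8852 v7_8852

theorem g7_9764 (L : Letters) : Good (H69.dec 7 9764) (trO T7_9764) :=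
  good_dec 6 9764 2441 0 (by decide +kernel) L.g0 (g6_2441 L) c7_9764 v7_9764

theorem g7_8804 (L : Letters) : Good (H69.dec 7 8804) (trO T7_8804) :=
  good_dec 6 8804 2201 0 (by decide +kernel) L.g0 (g6_2201 L) c7_8804 v7_8804

theorem g7_9800 (L : Letters) : Good (H69.dec 7 9800) (trO T7_9800) :=
  good_dec 6 9800 2450 0 (by decide +kernel) L.g0 (g6_2450 L) c7_9800 v7_9800

theorem g7_9752 (L : Letters) : Good (H69.dec 7 9752) (trO T7_9752) :=
  good_dec 6 9752 2438 0 (by decide +kernel) L.g0 (g6_2438 L) c7_9752 v7_9752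

theorem g7_8792 (L : Letters) : Good (H69.dec 7 8792) (trO T7_8792) :=
  good_dec 6 8792 2198 0 (by decide +kernel) L.g0 (g6_2198 L) c7_8792 v7_8792

theorem g7_9368 (L : Letters) : Good (H69.dec 7 9368) (trO T7_9368) :=
  good_dec 6 9368 2342 0 (by decide +kernel) L.g0 (g6_2342 L) c7_9368 v7_9368

theorem g7_9857 (L : Letters) : Good (H69.dec 7 9857) (trO T7_9857) :=
  good_dec 6 9857 2464 1 (by decide +kernel) L.g1 (g6_2464 L) c7_9857 v7_9857

theorem g7_8849 (L : Letters) : Good (H69.dec 7 8849) (trO T7_8849) :=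
  good_dec 6 8849 2212 1 (by decide +kernel) L.g1 (g6_2212 L) c7_8849 v7_8849

theorem g7_9761 (L : Letters) : Good (H69.dec 7 9761) (trO T7_9761) :=
  good_dec 6 9761 2440 1 (by decide +kernel) L.g1 (g6_2440 L) c7_9761 v7_9761

theorem g7_8801 (L : Letters) : Good (H69.dec 7 8801) (trO T7_8801) :=
  good_dec 6 8801 2200 1 (by decide +kernel) L.g1 (g6_2200 L) c7_8801 v7_8801

theorem g7_8837 (L : Letters) : Good (H69.dec 7 8837) (trO T7_8837) :=
  good_dec 6 8837 2209 1 (by decide +kernel) L.g1 (g6_2209 L) c7_8837 v7_8837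

theorem g7_8741 (L : Letters) : Good (H69.dec 7 8741) (trO T7_8741) :=
  good_dec 6 8741 2185 1 (by decide +kernel) L.g1 (g6_2185 L) c7_8741 v7_8741

theorem g7_9737 (L : Letters) : Good (H69.dec 7 9737) (trO T7_9737) :=
  good_dec 6 9737 2434 1 (by decide +kernel) L.g1 (g6_2434 L) c7_9737 v7_9737

theorem g7_8777 (L : Letters) : Good (H69.dec 7 8777) (trO T7_8777) :=
  good_dec 6 8777 2194 1 (by decide +kernel) L.g1 (g6_2194 L) c7_8777 v7_8777

theorem g7_9353 (L : Letters) : Good (H69.dec 7 9353) (trO T7_9353) :=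
  good_dec 6 9353 2338 1 (by decide +kernel) L.g1 (g6_2338 L) c7_9353 v7_9353

theorem g7_8729 (L : Letters) : Good (H69.dec 7 8729) (trO T7_8729) :=
  good_dec 6 8729 2182 1 (by decide +kernel) L.g1 (g6_2182 L) c7_8729 v7_8729

theorem g7_9794 (L : Letters) : Good (H69.dec 7 9794) (trO T7_9794) :=
  good_dec 6 9794 2448 2 (by decide +kernel) L.g2 (g6_2448 L) c7_9794 v7_9794

theorem g7_9746 (L : Letters) : Good (H69.dec 7 9746) (trO T7_9746) :=
  good_dec 6 9746 2436 2 (by decide +kernel) L.g2 (g6_2436 L) c7_9746 v7_9746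

theorem g7_8786 (L : Letters) : Good (H69.dec 7 8786) (trO T7_8786) :=
  good_dec 6 8786 2196 2 (by decide +kernel) L.g2 (g6_2196 L) c7_8786 v7_8786

theorem g7_9362 (L : Letters) : Good (H69.dec 7 9362) (trO T7_9362) :=
  good_dec 6 9362 2340 2 (by decide +kernel) L.g2 (g6_2340 L) c7_9362 v7_9362

theorem g7_9506 (L : Letters) : Good (H69.dec 7 9506) (trO T7_9506) :=
  good_dec 6 9506 2376 2 (by decide +kernel) L.g2 (g6_2376 L) c7_9506 v7_9506

theorem g7_9314 (L : Letters) : Good (H69.dec 7 9314) (trO T7_9314) :=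
  good_dec 6 9314 2328 2 (by decide +kernel) L.g2 (g6_2328 L) c7_9314 v7_9314

theorem g7_9734 (L : Letters) : Good (H69.dec 7 9734) (trO T7_9734) :=
  good_dec 6 9734 2433 2 (by decide +kernel) L.g2 (g6_2433 L) c7_9734 v7_9734

theorem g7_8774 (L : Letters) : Good (H69.dec 7 8774) (trO T7_8774) :=
  good_dec 6 8774 2193 2 (by decide +kernel) L.g2 (g6_2193 L) c7_8774 v7_8774

theorem g7_9350 (L : Letters) : Good (H69.dec 7 9350) (trO T7_9350) :=
  good_dec 6 9350 2337 2 (by decide +kernel) L.g2 (g6_2337 L) c7_9350 v7_9350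

theorem g7_8726 (L : Letters) : Good (H69.dec 7 8726) (trO T7_8726) :=
  good_dec 6 8726 2181 2 (by decide +kernel) L.g2 (g6_2181 L) c7_8726 v7_8726

theorem g7_9808 (L : Letters) : Good (H69.dec 7 9808) (trO T7_9808) :=
  good_dec 6 9808 2452 0 (by decide +kernel) L.g0 (g6_2452 L) c7_9808 v7_9808

theorem g7_9568 (L : Letters) : Good (H69.dec 7 9568) (trO T7_9568) :=
  good_dec 6 9568 2392 0 (by decide +kernel) L.g0 (g6_2392 L) c7_9568 v7_9568

theorem g7_9796 (L : Letters) : Good (H69.dec 7 9796) (trO T7_9796) :=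
  good_dec 6 9796 2449 0 (by decide +kernel) L.g0 (g6_2449 L) c7_9796 v7_9796

theorem g7_9748 (L : Letters) : Good (H69.dec 7 9748) (trO T7_9748) :=
  good_dec 6 9748 2437 0 (by decide +kernel) L.g0 (g6_2437 L) c7_9748 v7_9748

theorem g7_8788 (L : Letters) : Good (H69.dec 7 8788) (trO T7_8788) :=
  good_dec 6 8788 2197 0 (by decide +kernel) L.g0 (g6_2197 L) c7_8788 v7_8788

theorem g7_9364 (L : Letters) : Good (H69.dec 7 9364) (trO T7_9364) :=
  good_dec 6 9364 2341 0 (by decide +kernel) L.g0 (g6_2341 L) c7_9364 v7_9364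

theorem g7_9508 (L : Letters) : Good (H69.dec 7 9508) (trO T7_9508) :=
  good_dec 6 9508 2377 0 (by decide +kernel) L.g0 (g6_2377 L) c7_9508 v7_9508

theorem g7_9316 (L : Letters) : Good (H69.dec 7 9316) (trO T7_9316) :=
  good_dec 6 9316 2329 0 (by decide +kernel) L.g0 (g6_2329 L) c7_9316 v7_9316

theorem g7_9544 (L : Letters) : Good (H69.dec 7 9544) (trO T7_9544) :=
  good_dec 6 9544 2386 0 (by decide +kernel) L.g0 (g6_2386 L) c7_9544 v7_9544

theorem g7_9496 (L : Letters) : Good (H69.dec 7 9496) (trO T7_9496) :=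
  good_dec 6 9496 2374 0 (by decide +kernel) L.g0 (g6_2374 L) c7_9496 v7_9496

theorem g7_9793 (L : Letters) : Good (H69.dec 7 9793) (trO T7_9793) :=
  good_dec 6 9793 2448 1 (by decide +kernel) L.g1 (g6_2448 L) c7_9793 v7_9793

theorem g7_9745 (L : Letters) : Good (H69.dec 7 9745) (trO T7_9745) :=
  good_dec 6 9745 2436 1 (by decide +kernel) L.g1 (g6_2436 L) c7_9745 v7_9745

theorem g7_8785 (L : Letters) : Good (H69.dec 7 8785) (trO T7_8785) :=
  good_dec 6 8785 2196 1 (by decide +kernel) L.g1 (g6_2196 L) c7_8785 v7_8785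

theorem g7_9361 (L : Letters) : Good (H69.dec 7 9361) (trO T7_9361) :=
  good_dec 6 9361 2340 1 (by decide +kernel) L.g1 (g6_2340 L) c7_9361 v7_9361

theorem g7_9505 (L : Letters) : Good (H69.dec 7 9505) (trO T7_9505) :=
  good_dec 6 9505 2376 1 (by decide +kernel) L.g1 (g6_2376 L) c7_9505 v7_9505

theorem g7_9313 (L : Letters) : Good (H69.dec 7 9313) (trO T7_9313) :=
  good_dec 6 9313 2328 1 (by decide +kernel) L.g1 (g6_2328 L) c7_9313 v7_9313

theorem g7_9733 (L : Letters) : Good (H69.dec 7 9733) (trO T7_9733) :=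
  good_dec 6 9733 2433 1 (by decide +kernel) L.g1 (g6_2433 L) c7_9733 v7_9733

theorem g7_8773 (L : Letters) : Good (H69.dec 7 8773) (trO T7_8773) :=
  good_dec 6 8773 2193 1 (by decide +kernel) L.g1 (g6_2193 L) c7_8773 v7_8773

theorem g7_9349 (L : Letters) : Good (H69.dec 7 9349) (trO T7_9349) :=
  good_dec 6 9349 2337 1 (by decide +kernel) L.g1 (g6_2337 L) c7_9349 v7_9349

theorem g7_8725 (L : Letters) : Good (H69.dec 7 8725) (trO T7_8725) :=
  good_dec 6 8725 2181 1 (by decide +kernel) L.g1 (g6_2181 L) c7_8725 v7_8725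

theorem g7_9253 (L : Letters) : Good (H69.dec 7 9253) (trO T7_9253) :=
  good_dec 6 9253 2313 1 (by decide +kernel) L.g1 (g6_2313 L) c7_9253 v7_9253

theorem g7_8485 (L : Letters) : Good (H69.dec 7 8485) (trO T7_8485) :=
  good_dec 6 8485 2121 1 (by decide +kernel) L.g1 (g6_2121 L) c7_8485 v7_8485

theorem g7_9481 (L : Letters) : Good (H69.dec 7 9481) (trO T7_9481) :=
  good_dec 6 9481 2370 1 (by decide +kernel) L.g1 (g6_2370 L) c7_9481 v7_9481

theorem g7_9289 (L : Letters) : Good (H69.dec 7 9289) (trO T7_9289) :=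
  good_dec 6 9289 2322 1 (by decide +kernel) L.g1 (g6_2322 L) c7_9289 v7_9289

theorem g7_9538 (L : Letters) : Good (H69.dec 7 9538) (trO T7_9538) :=
  good_dec 6 9538 2384 2 (by decide +kernel) L.g2 (g6_2384 L) c7_9538 v7_9538

theorem g7_9490 (L : Letters) : Good (H69.dec 7 9490) (trO T7_9490) :=
  good_dec 6 9490 2372 2 (by decide +kernel) L.g2 (g6_2372 L) c7_9490 v7_9490

theorem g7_9298 (L : Letters) : Good (H69.dec 7 9298) (trO T7_9298) :=
  good_dec 6 9298 2324 2 (by decide +kernel) L.g2 (g6_2324 L) c7_9298 v7_9298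

theorem g7_8530 (L : Letters) : Good (H69.dec 7 8530) (trO T7_8530) :=
  good_dec 6 8530 2132 2 (by decide +kernel) L.g2 (g6_2132 L) c7_8530 v7_8530

theorem g7_9478 (L : Letters) : Good (H69.dec 7 9478) (trO T7_9478) :=
  good_dec 6 9478 2369 2 (by decide +kernel) L.g2 (g6_2369 L) c7_9478 v7_9478

theorem g7_9286 (L : Letters) : Good (H69.dec 7 9286) (trO T7_9286) :=
  good_dec 6 9286 2321 2 (by decide +kernel) L.g2 (g6_2321 L) c7_9286 v7_9286

theorem g7_9552 (L : Letters) : Good (H69.dec 7 9552) (trO T7_9552) :=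
  good_dec 6 9552 2388 0 (by decide +kernel) L.g0 (g6_2388 L) c7_9552 v7_9552

theorem g7_9540 (L : Letters) : Good (H69.dec 7 9540) (trO T7_9540) :=
  good_dec 6 9540 2385 0 (by decide +kernel) L.g0 (g6_2385 L) c7_9540 v7_9540

theorem g7_9492 (L : Letters) : Good (H69.dec 7 9492) (trO T7_9492) :=
  good_dec 6 9492 2373 0 (by decide +kernel) L.g0 (g6_2373 L) c7_9492 v7_9492

theorem g7_9300 (L : Letters) : Good (H69.dec 7 9300) (trO T7_9300) :=
  good_dec 6 9300 2325 0 (by decide +kernel) L.g0 (g6_2325 L) c7_9300 v7_9300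

theorem g7_8532 (L : Letters) : Good (H69.dec 7 8532) (trO T7_8532) :=
  good_dec 6 8532 2133 0 (by decide +kernel) L.g0 (g6_2133 L) c7_8532 v7_8532

theorem g7_9537 (L : Letters) : Good (H69.dec 7 9537) (trO T7_9537) :=
  good_dec 6 9537 2384 1 (by decide +kernel) L.g1 (g6_2384 L) c7_9537 v7_9537

theorem g7_9489 (L : Letters) : Good (H69.dec 7 9489) (trO T7_9489) :=
  good_dec 6 9489 2372 1 (by decide +kernel) L.g1 (g6_2372 L) c7_9489 v7_9489

theorem g7_9297 (L : Letters) : Good (H69.dec 7 9297) (trO T7_9297) :=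
  good_dec 6 9297 2324 1 (by decide +kernel) L.g1 (g6_2324 L) c7_9297 v7_9297

theorem g7_8529 (L : Letters) : Good (H69.dec 7 8529) (trO T7_8529) :=
  good_dec 6 8529 2132 1 (by decide +kernel) L.g1 (g6_2132 L) c7_8529 v7_8529

theorem g7_9477 (L : Letters) : Good (H69.dec 7 9477) (trO T7_9477) :=
  good_dec 6 9477 2369 1 (by decide +kernel) L.g1 (g6_2369 L) c7_9477 v7_9477

theorem g7_9285 (L : Letters) : Good (H69.dec 7 9285) (trO T7_9285) :=
  good_dec 6 9285 2321 1 (by decide +kernel) L.g1 (g6_2321 L) c7_9285 v7_9285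

theorem g7_8517 (L : Letters) : Good (H69.dec 7 8517) (trO T7_8517) :=
  good_dec 6 8517 2129 1 (by decide +kernel) L.g1 (g6_2129 L) c7_8517 v7_8517

theorem g7_9237 (L : Letters) : Good (H69.dec 7 9237) (trO T7_9237) :=
  good_dec 6 9237 2309 1 (by decide +kernel) L.g1 (g6_2309 L) c7_9237 v7_9237

theorem g7_8469 (L : Letters) : Good (H69.dec 7 8469) (trO T7_8469) :=
  good_dec 6 8469 2117 1 (by decide +kernel) L.g1 (g6_2117 L) c7_8469 v7_8469

theorem g7_8277 (L : Letters) : Good (H69.dec 7 8277) (trO T7_8277) :=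
  good_dec 6 8277 2069 1 (by decide +kernel) L.g1 (g6_2069 L) c7_8277 v7_8277

theorem g7_4436 (L : Letters) : Good (H69.dec 7 4436) (trO T7_4436) :=
  good_dec 6 4436 1109 0 (by decide +kernel) L.g0 (g6_1109 L) c7_4436 v7_4436

theorem g7_4433 (L : Letters) : Good (H69.dec 7 4433) (trO T7_4433) :=
  good_dec 6 4433 1108 1 (by decide +kernel) L.g1 (g6_1108 L) c7_4433 v7_4433

theorem g7_4421 (L : Letters) : Good (H69.dec 7 4421) (trO T7_4421) :=
  good_dec 6 4421 1105 1 (by decide +kernel) L.g1 (g6_1105 L) c7_4421 v7_4421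

theorem g7_8864 (L : Letters) : Good (H69.dec 7 8864) (trO T7_8864) :=
  good_dec 6 8864 2216 0 (by decide +kernel) L.g0 (g6_2216 L) c7_8864 v7_8864

theorem g7_8840 (L : Letters) : Good (H69.dec 7 8840) (trO T7_8840) :=
  good_dec 6 8840 2210 0 (by decide +kernel) L.g0 (g6_2210 L) c7_8840 v7_8840

theorem g7_8834 (L : Letters) : Good (H69.dec 7 8834) (trO T7_8834) :=
  good_dec 6 8834 2208 2 (by decide +kernel) L.g2 (g6_2208 L) c7_8834 v7_8834

theorem g7_8738 (L : Letters) : Good (H69.dec 7 8738) (trO T7_8738) :=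
  good_dec 6 8738 2184 2 (by decide +kernel) L.g2 (g6_2184 L) c7_8738 v7_8738

theorem g7_8714 (L : Letters) : Good (H69.dec 7 8714) (trO T7_8714) :=
  good_dec 6 8714 2178 2 (by decide +kernel) L.g2 (g6_2178 L) c7_8714 v7_8714

theorem g7_9856 (L : Letters) : Good (H69.dec 7 9856) (trO T7_9856) :=
  good_dec 6 9856 2464 0 (by decide +kernel) L.g0 (g6_2464 L) c7_9856 v7_9856

theorem g7_8848 (L : Letters) : Good (H69.dec 7 8848) (trO T7_8848) :=
  good_dec 6 8848 2212 0 (by decide +kernel) L.g0 (g6_2212 L) c7_8848 v7_8848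

theorem g7_9760 (L : Letters) : Good (H69.dec 7 9760) (trO T7_9760) :=
  good_dec 6 9760 2440 0 (by decide +kernel) L.g0 (g6_2440 L) c7_9760 v7_9760

theorem g7_8800 (L : Letters) : Good (H69.dec 7 8800) (trO T7_8800) :=
  good_dec 6 8800 2200 0 (by decide +kernel) L.g0 (g6_2200 L) c7_8800 v7_8800

theorem g7_8836 (L : Letters) : Good (H69.dec 7 8836) (trO T7_8836) :=
  good_dec 6 8836 2209 0 (by decide +kernel) L.g0 (g6_2209 L) c7_8836 v7_8836

theorem g7_8740 (L : Letters) : Good (H69.dec 7 8740) (trO T7_8740) :=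
  good_dec 6 8740 2185 0 (by decide +kernel) L.g0 (g6_2185 L) c7_8740 v7_8740

theorem g7_9736 (L : Letters) : Good (H69.dec 7 9736) (trO T7_9736) :=
  good_dec 6 9736 2434 0 (by decide +kernel) L.g0 (g6_2434 L) c7_9736 v7_9736

theorem g7_8776 (L : Letters) : Good (H69.dec 7 8776) (trO T7_8776) :=
  good_dec 6 8776 2194 0 (by decide +kernel) L.g0 (g6_2194 L) c7_8776 v7_8776

theorem g7_9352 (L : Letters) : Good (H69.dec 7 9352) (trO T7_9352) :=
  good_dec 6 9352 2338 0 (by decide +kernel) L.g0 (g6_2338 L) c7_9352 v7_9352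

theorem g7_8728 (L : Letters) : Good (H69.dec 7 8728) (trO T7_8728) :=
  good_dec 6 8728 2182 0 (by decide +kernel) L.g0 (g6_2182 L) c7_8728 v7_8728

theorem g7_8833 (L : Letters) : Good (H69.dec 7 8833) (trO T7_8833) :=
  good_dec 6 8833 2208 1 (by decide +kernel) L.g1 (g6_2208 L) c7_8833 v7_8833

theorem g7_8737 (L : Letters) : Good (H69.dec 7 8737) (trO T7_8737) :=
  good_dec 6 8737 2184 1 (by decide +kernel) L.g1 (g6_2184 L) c7_8737 v7_8737

theorem g7_8713 (L : Letters) : Good (H69.dec 7 8713) (trO T7_8713) :=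
  good_dec 6 8713 2178 1 (by decide +kernel) L.g1 (g6_2178 L) c7_8713 v7_8713

theorem g7_9730 (L : Letters) : Good (H69.dec 7 9730) (trO T7_9730) :=
  good_dec 6 9730 2432 2 (by decide +kernel) L.g2 (g6_2432 L) c7_9730 v7_9730

theorem g7_8770 (L : Letters) : Good (H69.dec 7 8770) (trO T7_8770) :=
  good_dec 6 8770 2192 2 (by decide +kernel) L.g2 (g6_2192 L) c7_8770 v7_8770

theorem g7_9346 (L : Letters) : Good (H69.dec 7 9346) (trO T7_9346) :=
  good_dec 6 9346 2336 2 (by decide +kernel) L.g2 (g6_2336 L) c7_9346 v7_9346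

theorem g7_8722 (L : Letters) : Good (H69.dec 7 8722) (trO T7_8722) :=
  good_dec 6 8722 2180 2 (by decide +kernel) L.g2 (g6_2180 L) c7_8722 v7_8722

theorem g7_9250 (L : Letters) : Good (H69.dec 7 9250) (trO T7_9250) :=
  good_dec 6 9250 2312 2 (by decide +kernel) L.g2 (g6_2312 L) c7_9250 v7_9250

theorem g7_8482 (L : Letters) : Good (H69.dec 7 8482) (trO T7_8482) :=
  good_dec 6 8482 2120 2 (by decide +kernel) L.g2 (g6_2120 L) c7_8482 v7_8482

theorem g7_8710 (L : Letters) : Good (H69.dec 7 8710) (trO T7_8710) :=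
  good_dec 6 8710 2177 2 (by decide +kernel) L.g2 (g6_2177 L) c7_8710 v7_8710

theorem g7_9792 (L : Letters) : Good (H69.dec 7 9792) (trO T7_9792) :=
  good_dec 6 9792 2448 0 (by decide +kernel) L.g0 (g6_2448 L) c7_9792 v7_9792

theorem g7_9744 (L : Letters) : Good (H69.dec 7 9744) (trO T7_9744) :=
  good_dec 6 9744 2436 0 (by decide +kernel) L.g0 (g6_2436 L) c7_9744 v7_9744

theorem g7_8784 (L : Letters) : Good (H69.dec 7 8784) (trO T7_8784) :=
  good_dec 6 8784 2196 0 (by decide +kernel) L.g0 (g6_2196 L) c7_8784 v7_8784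

theorem g7_9360 (L : Letters) : Good (H69.dec 7 9360) (trO T7_9360) :=
  good_dec 6 9360 2340 0 (by decide +kernel) L.g0 (g6_2340 L) c7_9360 v7_9360

theorem g7_9504 (L : Letters) : Good (H69.dec 7 9504) (trO T7_9504) :=
  good_dec 6 9504 2376 0 (by decide +kernel) L.g0 (g6_2376 L) c7_9504 v7_9504

theorem g7_9312 (L : Letters) : Good (H69.dec 7 9312) (trO T7_9312) :=
  good_dec 6 9312 2328 0 (by decide +kernel) L.g0 (g6_2328 L) c7_9312 v7_9312

theorem g7_9732 (L : Letters) : Good (H69.dec 7 9732) (trO T7_9732) :=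
  good_dec 6 9732 2433 0 (by decide +kernel) L.g0 (g6_2433 L) c7_9732 v7_9732

theorem g7_8772 (L : Letters) : Good (H69.dec 7 8772) (trO T7_8772) :=
  good_dec 6 8772 2193 0 (by decide +kernel) L.g0 (g6_2193 L) c7_8772 v7_8772

theorem g7_9348 (L : Letters) : Good (H69.dec 7 9348) (trO T7_9348) :=
  good_dec 6 9348 2337 0 (by decide +kernel) L.g0 (g6_2337 L) c7_9348 v7_9348

theorem g7_8724 (L : Letters) : Good (H69.dec 7 8724) (trO T7_8724) :=
  good_dec 6 8724 2181 0 (by decide +kernel) L.g0 (g6_2181 L) c7_8724 v7_8724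

theorem g7_9252 (L : Letters) : Good (H69.dec 7 9252) (trO T7_9252) :=
  good_dec 6 9252 2313 0 (by decide +kernel) L.g0 (g6_2313 L) c7_9252 v7_9252

theorem g7_8484 (L : Letters) : Good (H69.dec 7 8484) (trO T7_8484) :=
  good_dec 6 8484 2121 0 (by decide +kernel) L.g0 (g6_2121 L) c7_8484 v7_8484

theorem g7_9480 (L : Letters) : Good (H69.dec 7 9480) (trO T7_9480) :=
  good_dec 6 9480 2370 0 (by decide +kernel) L.g0 (g6_2370 L) c7_9480 v7_9480

theorem g7_9288 (L : Letters) : Good (H69.dec 7 9288) (trO T7_9288) :=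
  good_dec 6 9288 2322 0 (by decide +kernel) L.g0 (g6_2322 L) c7_9288 v7_9288

theorem g7_9729 (L : Letters) : Good (H69.dec 7 9729) (trO T7_9729) :=
  good_dec 6 9729 2432 1 (by decide +kernel) L.g1 (g6_2432 L) c7_9729 v7_9729

theorem g7_8769 (L : Letters) : Good (H69.dec 7 8769) (trO T7_8769) :=
  good_dec 6 8769 2192 1 (by decide +kernel) L.g1 (g6_2192 L) c7_8769 v7_8769

theorem g7_9345 (L : Letters) : Good (H69.dec 7 9345) (trO T7_9345) :=
  good_dec 6 9345 2336 1 (by decide +kernel) L.g1 (g6_2336 L) c7_9345 v7_9345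

theorem g7_8721 (L : Letters) : Good (H69.dec 7 8721) (trO T7_8721) :=
  good_dec 6 8721 2180 1 (by decide +kernel) L.g1 (g6_2180 L) c7_8721 v7_8721

theorem g7_9249 (L : Letters) : Good (H69.dec 7 9249) (trO T7_9249) :=
  good_dec 6 9249 2312 1 (by decide +kernel) L.g1 (g6_2312 L) c7_9249 v7_9249

theorem g7_8481 (L : Letters) : Good (H69.dec 7 8481) (trO T7_8481) :=
  good_dec 6 8481 2120 1 (by decide +kernel) L.g1 (g6_2120 L) c7_8481 v7_8481

theorem g7_8709 (L : Letters) : Good (H69.dec 7 8709) (trO T7_8709) :=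
  good_dec 6 8709 2177 1 (by decide +kernel) L.g1 (g6_2177 L) c7_8709 v7_8709

theorem g7_8229 (L : Letters) : Good (H69.dec 7 8229) (trO T7_8229) :=
  good_dec 6 8229 2057 1 (by decide +kernel) L.g1 (g6_2057 L) c7_8229 v7_8229

theorem g7_9225 (L : Letters) : Good (H69.dec 7 9225) (trO T7_9225) :=
  good_dec 6 9225 2306 1 (by decide +kernel) L.g1 (g6_2306 L) c7_9225 v7_9225

theorem g7_8457 (L : Letters) : Good (H69.dec 7 8457) (trO T7_8457) :=
  good_dec 6 8457 2114 1 (by decide +kernel) L.g1 (g6_2114 L) c7_8457 v7_8457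

theorem g7_9474 (L : Letters) : Good (H69.dec 7 9474) (trO T7_9474) :=
  good_dec 6 9474 2368 2 (by decide +kernel) L.g2 (g6_2368 L) c7_9474 v7_9474

theorem g7_9282 (L : Letters) : Good (H69.dec 7 9282) (trO T7_9282) :=
  good_dec 6 9282 2320 2 (by decide +kernel) L.g2 (g6_2320 L) c7_9282 v7_9282

theorem g7_8514 (L : Letters) : Good (H69.dec 7 8514) (trO T7_8514) :=
  good_dec 6 8514 2128 2 (by decide +kernel) L.g2 (g6_2128 L) c7_8514 v7_8514

theorem g7_9234 (L : Letters) : Good (H69.dec 7 9234) (trO T7_9234) :=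
  good_dec 6 9234 2308 2 (by decide +kernel) L.g2 (g6_2308 L) c7_9234 v7_9234

theorem g7_8466 (L : Letters) : Good (H69.dec 7 8466) (trO T7_8466) :=
  good_dec 6 8466 2116 2 (by decide +kernel) L.g2 (g6_2116 L) c7_8466 v7_8466

theorem g7_9222 (L : Letters) : Good (H69.dec 7 9222) (trO T7_9222) :=
  good_dec 6 9222 2305 2 (by decide +kernel) L.g2 (g6_2305 L) c7_9222 v7_9222

theorem g7_9536 (L : Letters) : Good (H69.dec 7 9536) (trO T7_9536) :=
  good_dec 6 9536 2384 0 (by decide +kernel) L.g0 (g6_2384 L) c7_9536 v7_9536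

theorem g7_9488 (L : Letters) : Good (H69.dec 7 9488) (trO T7_9488) :=
  good_dec 6 9488 2372 0 (by decide +kernel) L.g0 (g6_2372 L) c7_9488 v7_9488

theorem g7_9296 (L : Letters) : Good (H69.dec 7 9296) (trO T7_9296) :=
  good_dec 6 9296 2324 0 (by decide +kernel) L.g0 (g6_2324 L) c7_9296 v7_9296

theorem g7_8528 (L : Letters) : Good (H69.dec 7 8528) (trO T7_8528) :=
  good_dec 6 8528 2132 0 (by decide +kernel) L.g0 (g6_2132 L) c7_8528 v7_8528

theorem g7_9476 (L : Letters) : Good (H69.dec 7 9476) (trO T7_9476) :=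
  good_dec 6 9476 2369 0 (by decide +kernel) L.g0 (g6_2369 L) c7_9476 v7_9476

theorem g7_9284 (L : Letters) : Good (H69.dec 7 9284) (trO T7_9284) :=
  good_dec 6 9284 2321 0 (by decide +kernel) L.g0 (g6_2321 L) c7_9284 v7_9284

theorem g7_8516 (L : Letters) : Good (H69.dec 7 8516) (trO T7_8516) :=
  good_dec 6 8516 2129 0 (by decide +kernel) L.g0 (g6_2129 L) c7_8516 v7_8516

theorem g7_9236 (L : Letters) : Good (H69.dec 7 9236) (trO T7_9236) :=
  good_dec 6 9236 2309 0 (by decide +kernel) L.g0 (g6_2309 L) c7_9236 v7_9236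

theorem g7_8468 (L : Letters) : Good (H69.dec 7 8468) (trO T7_8468) :=
  good_dec 6 8468 2117 0 (by decide +kernel) L.g0 (g6_2117 L) c7_8468 v7_8468

theorem g7_8276 (L : Letters) : Good (H69.dec 7 8276) (trO T7_8276) :=
  good_dec 6 8276 2069 0 (by decide +kernel) L.g0 (g6_2069 L) c7_8276 v7_8276

theorem g7_9473 (L : Letters) : Good (H69.dec 7 9473) (trO T7_9473) :=
  good_dec 6 9473 2368 1 (by decide +kernel) L.g1 (g6_2368 L) c7_9473 v7_9473

theorem g7_9281 (L : Letters) : Good (H69.dec 7 9281) (trO T7_9281) :=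
  good_dec 6 9281 2320 1 (by decide +kernel) L.g1 (g6_2320 L) c7_9281 v7_9281

theorem g7_8513 (L : Letters) : Good (H69.dec 7 8513) (trO T7_8513) :=
  good_dec 6 8513 2128 1 (by decide +kernel) L.g1 (g6_2128 L) c7_8513 v7_8513

theorem g7_9233 (L : Letters) : Good (H69.dec 7 9233) (trO T7_9233) :=
  good_dec 6 9233 2308 1 (by decide +kernel) L.g1 (g6_2308 L) c7_9233 v7_9233

theorem g7_8465 (L : Letters) : Good (H69.dec 7 8465) (trO T7_8465) :=
  good_dec 6 8465 2116 1 (by decide +kernel) L.g1 (g6_2116 L) c7_8465 v7_8465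

theorem g7_8273 (L : Letters) : Good (H69.dec 7 8273) (trO T7_8273) :=
  good_dec 6 8273 2068 1 (by decide +kernel) L.g1 (g6_2068 L) c7_8273 v7_8273

theorem g7_9221 (L : Letters) : Good (H69.dec 7 9221) (trO T7_9221) :=
  good_dec 6 9221 2305 1 (by decide +kernel) L.g1 (g6_2305 L) c7_9221 v7_9221

theorem g7_8453 (L : Letters) : Good (H69.dec 7 8453) (trO T7_8453) :=
  good_dec 6 8453 2113 1 (by decide +kernel) L.g1 (g6_2113 L) c7_8453 v7_8453

theorem g7_8261 (L : Letters) : Good (H69.dec 7 8261) (trO T7_8261) :=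
  good_dec 6 8261 2065 1 (by decide +kernel) L.g1 (g6_2065 L) c7_8261 v7_8261

theorem g7_8213 (L : Letters) : Good (H69.dec 7 8213) (trO T7_8213) :=
  good_dec 6 8213 2053 1 (by decide +kernel) L.g1 (g6_2053 L) c7_8213 v7_8213

theorem g7_4432 (L : Letters) : Good (H69.dec 7 4432) (trO T7_4432) :=
  good_dec 6 4432 1108 0 (by decide +kernel) L.g0 (g6_1108 L) c7_4432 v7_4432

theorem g7_4420 (L : Letters) : Good (H69.dec 7 4420) (trO T7_4420) :=
  good_dec 6 4420 1105 0 (by decide +kernel) L.g0 (g6_1105 L) c7_4420 v7_4420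

theorem g7_4417 (L : Letters) : Good (H69.dec 7 4417) (trO T7_4417) :=
  good_dec 6 4417 1104 1 (by decide +kernel) L.g1 (g6_1104 L) c7_4417 v7_4417

theorem g7_4369 (L : Letters) : Good (H69.dec 7 4369) (trO T7_4369) :=
  good_dec 6 4369 1092 1 (by decide +kernel) L.g1 (g6_1092 L) c7_4369 v7_4369

theorem g7_4357 (L : Letters) : Good (H69.dec 7 4357) (trO T7_4357) :=
  good_dec 6 4357 1089 1 (by decide +kernel) L.g1 (g6_1089 L) c7_4357 v7_4357

theorem g7_8832 (L : Letters) : Good (H69.dec 7 8832) (trO T7_8832) :=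
  good_dec 6 8832 2208 0 (by decide +kernel) L.g0 (g6_2208 L) c7_8832 v7_8832

theorem g7_8736 (L : Letters) : Good (H69.dec 7 8736) (trO T7_8736) :=
  good_dec 6 8736 2184 0 (by decide +kernel) L.g0 (g6_2184 L) c7_8736 v7_8736

theorem g7_8712 (L : Letters) : Good (H69.dec 7 8712) (trO T7_8712) :=
  good_dec 6 8712 2178 0 (by decide +kernel) L.g0 (g6_2178 L) c7_8712 v7_8712

theorem g7_8706 (L : Letters) : Good (H69.dec 7 8706) (trO T7_8706) :=
  good_dec 6 8706 2176 2 (by decide +kernel) L.g2 (g6_2176 L) c7_8706 v7_8706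

theorem g7_8226 (L : Letters) : Good (H69.dec 7 8226) (trO T7_8226) :=
  good_dec 6 8226 2056 2 (by decide +kernel) L.g2 (g6_2056 L) c7_8226 v7_8226

theorem g7_9728 (L : Letters) : Good (H69.dec 7 9728) (trO T7_9728) :=
  good_dec 6 9728 2432 0 (by decide +kernel) L.g0 (g6_2432 L) c7_9728 v7_9728

theorem g7_8768 (L : Letters) : Good (H69.dec 7 8768) (trO T7_8768) :=
  good_dec 6 8768 2192 0 (by decide +kernel) L.g0 (g6_2192 L) c7_8768 v7_8768

theorem g7_9344 (L : Letters) : Good (H69.dec 7 9344) (trO T7_9344) :=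
  good_dec 6 9344 2336 0 (by decide +kernel) L.g0 (g6_2336 L) c7_9344 v7_9344

theorem g7_8720 (L : Letters) : Good (H69.dec 7 8720) (trO T7_8720) :=
  good_dec 6 8720 2180 0 (by decide +kernel) L.g0 (g6_2180 L) c7_8720 v7_8720

theorem g7_9248 (L : Letters) : Good (H69.dec 7 9248) (trO T7_9248) :=
  good_dec 6 9248 2312 0 (by decide +kernel) L.g0 (g6_2312 L) c7_9248 v7_9248

theorem g7_8480 (L : Letters) : Good (H69.dec 7 8480) (trO T7_8480) :=
  good_dec 6 8480 2120 0 (by decide +kernel) L.g0 (g6_2120 L) c7_8480 v7_8480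

theorem g7_8708 (L : Letters) : Good (H69.dec 7 8708) (trO T7_8708) :=
  good_dec 6 8708 2177 0 (by decide +kernel) L.g0 (g6_2177 L) c7_8708 v7_8708

theorem g7_8228 (L : Letters) : Good (H69.dec 7 8228) (trO T7_8228) :=
  good_dec 6 8228 2057 0 (by decide +kernel) L.g0 (g6_2057 L) c7_8228 v7_8228

theorem g7_9224 (L : Letters) : Good (H69.dec 7 9224) (trO T7_9224) :=
  good_dec 6 9224 2306 0 (by decide +kernel) L.g0 (g6_2306 L) c7_9224 v7_9224

theorem g7_8456 (L : Letters) : Good (H69.dec 7 8456) (trO T7_8456) :=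
  good_dec 6 8456 2114 0 (by decide +kernel) L.g0 (g6_2114 L) c7_8456 v7_8456

theorem g7_8705 (L : Letters) : Good (H69.dec 7 8705) (trO T7_8705) :=
  good_dec 6 8705 2176 1 (by decide +kernel) L.g1 (g6_2176 L) c7_8705 v7_8705

theorem g7_8225 (L : Letters) : Good (H69.dec 7 8225) (trO T7_8225) :=
  good_dec 6 8225 2056 1 (by decide +kernel) L.g1 (g6_2056 L) c7_8225 v7_8225

theorem g7_9218 (L : Letters) : Good (H69.dec 7 9218) (trO T7_9218) :=
  good_dec 6 9218 2304 2 (by decide +kernel) L.g2 (g6_2304 L) c7_9218 v7_9218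

theorem g7_8450 (L : Letters) : Good (H69.dec 7 8450) (trO T7_8450) :=
  good_dec 6 8450 2112 2 (by decide +kernel) L.g2 (g6_2112 L) c7_8450 v7_8450

theorem g7_8258 (L : Letters) : Good (H69.dec 7 8258) (trO T7_8258) :=
  good_dec 6 8258 2064 2 (by decide +kernel) L.g2 (g6_2064 L) c7_8258 v7_8258

theorem g7_9472 (L : Letters) : Good (H69.dec 7 9472) (trO T7_9472) :=
  good_dec 6 9472 2368 0 (by decide +kernel) L.g0 (g6_2368 L) c7_9472 v7_9472

theorem g7_9280 (L : Letters) : Good (H69.dec 7 9280) (trO T7_9280) :=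
  good_dec 6 9280 2320 0 (by decide +kernel) L.g0 (g6_2320 L) c7_9280 v7_9280

theorem g7_8512 (L : Letters) : Good (H69.dec 7 8512) (trO T7_8512) :=
  good_dec 6 8512 2128 0 (by decide +kernel) L.g0 (g6_2128 L) c7_8512 v7_8512

theorem g7_9232 (L : Letters) : Good (H69.dec 7 9232) (trO T7_9232) :=
  good_dec 6 9232 2308 0 (by decide +kernel) L.g0 (g6_2308 L) c7_9232 v7_9232

theorem g7_8464 (L : Letters) : Good (H69.dec 7 8464) (trO T7_8464) :=
  good_dec 6 8464 2116 0 (by decide +kernel) L.g0 (g6_2116 L) c7_8464 v7_8464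

theorem g7_8272 (L : Letters) : Good (H69.dec 7 8272) (trO T7_8272) :=
  good_dec 6 8272 2068 0 (by decide +kernel) L.g0 (g6_2068 L) c7_8272 v7_8272

theorem g7_9220 (L : Letters) : Good (H69.dec 7 9220) (trO T7_9220) :=
  good_dec 6 9220 2305 0 (by decide +kernel) L.g0 (g6_2305 L) c7_9220 v7_9220

theorem g7_8452 (L : Letters) : Good (H69.dec 7 8452) (trO T7_8452) :=
  good_dec 6 8452 2113 0 (by decide +kernel) L.g0 (g6_2113 L) c7_8452 v7_8452

theorem g7_8260 (L : Letters) : Good (H69.dec 7 8260) (trO T7_8260) :=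
  good_dec 6 8260 2065 0 (by decide +kernel) L.g0 (g6_2065 L) c7_8260 v7_8260

theorem g7_8212 (L : Letters) : Good (H69.dec 7 8212) (trO T7_8212) :=
  good_dec 6 8212 2053 0 (by decide +kernel) L.g0 (g6_2053 L) c7_8212 v7_8212

theorem g7_9217 (L : Letters) : Good (H69.dec 7 9217) (trO T7_9217) :=
  good_dec 6 9217 2304 1 (by decide +kernel) L.g1 (g6_2304 L) c7_9217 v7_9217

theorem g7_8449 (L : Letters) : Good (H69.dec 7 8449) (trO T7_8449) :=
  good_dec 6 8449 2112 1 (by decide +kernel) L.g1 (g6_2112 L) c7_8449 v7_8449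

theorem g7_8257 (L : Letters) : Good (H69.dec 7 8257) (trO T7_8257) :=
  good_dec 6 8257 2064 1 (by decide +kernel) L.g1 (g6_2064 L) c7_8257 v7_8257

theorem g7_8209 (L : Letters) : Good (H69.dec 7 8209) (trO T7_8209) :=
  good_dec 6 8209 2052 1 (by decide +kernel) L.g1 (g6_2052 L) c7_8209 v7_8209

theorem g7_8197 (L : Letters) : Good (H69.dec 7 8197) (trO T7_8197) :=
  good_dec 6 8197 2049 1 (by decide +kernel) L.g1 (g6_2049 L) c7_8197 v7_8197

theorem g7_4416 (L : Letters) : Good (H69.dec 7 4416) (trO T7_4416) :=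
  good_dec 6 4416 1104 0 (by decide +kernel) L.g0 (g6_1104 L) c7_4416 v7_4416

theorem g7_4368 (L : Letters) : Good (H69.dec 7 4368) (trO T7_4368) :=
  good_dec 6 4368 1092 0 (by decide +kernel) L.g0 (g6_1092 L) c7_4368 v7_4368

theorem g7_4356 (L : Letters) : Good (H69.dec 7 4356) (trO T7_4356) :=
  good_dec 6 4356 1089 0 (by decide +kernel) L.g0 (g6_1089 L) c7_4356 v7_4356

theorem g7_4353 (L : Letters) : Good (H69.dec 7 4353) (trO T7_4353) :=
  good_dec 6 4353 1088 1 (by decide +kernel) L.g1 (g6_1088 L) c7_4353 v7_4353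

theorem g7_4113 (L : Letters) : Good (H69.dec 7 4113) (trO T7_4113) :=
  good_dec 6 4113 1028 1 (by decide +kernel) L.g1 (g6_1028 L) c7_4113 v7_4113

theorem g7_8704 (L : Letters) : Good (H69.dec 7 8704) (trO T7_8704) :=
  good_dec 6 8704 2176 0 (by decide +kernel) L.g0 (g6_2176 L) c7_8704 v7_8704

theorem g7_8224 (L : Letters) : Good (H69.dec 7 8224) (trO T7_8224) :=
  good_dec 6 8224 2056 0 (by decide +kernel) L.g0 (g6_2056 L) c7_8224 v7_8224

theorem g7_8194 (L : Letters) : Good (H69.dec 7 8194) (trO T7_8194) :=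
  good_dec 6 8194 2048 2 (by decide +kernel) L.g2 (g6_2048 L) c7_8194 v7_8194

theorem g7_9216 (L : Letters) : Good (H69.dec 7 9216) (trO T7_9216) :=
  good_dec 6 9216 2304 0 (by decide +kernel) L.g0 (g6_2304 L) c7_9216 v7_9216

theorem g7_8448 (L : Letters) : Good (H69.dec 7 8448) (trO T7_8448) :=
  good_dec 6 8448 2112 0 (by decide +kernel) L.g0 (g6_2112 L) c7_8448 v7_8448

theorem g7_8256 (L : Letters) : Good (H69.dec 7 8256) (trO T7_8256) :=
  good_dec 6 8256 2064 0 (by decide +kernel) L.g0 (g6_2064 L) c7_8256 v7_8256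

theorem g7_8208 (L : Letters) : Good (H69.dec 7 8208) (trO T7_8208) :=
  good_dec 6 8208 2052 0 (by decide +kernel) L.g0 (g6_2052 L) c7_8208 v7_8208

theorem g7_8196 (L : Letters) : Good (H69.dec 7 8196) (trO T7_8196) :=
  good_dec 6 8196 2049 0 (by decide +kernel) L.g0 (g6_2049 L) c7_8196 v7_8196

theorem g7_8193 (L : Letters) : Good (H69.dec 7 8193) (trO T7_8193) :=
  good_dec 6 8193 2048 1 (by decide +kernel) L.g1 (g6_2048 L) c7_8193 v7_8193

theorem g7_4352 (L : Letters) : Good (H69.dec 7 4352) (trO T7_4352) :=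
  good_dec 6 4352 1088 0 (by decide +kernel) L.g0 (g6_1088 L) c7_4352 v7_4352

theorem g7_4112 (L : Letters) : Good (H69.dec 7 4112) (trO T7_4112) :=
  good_dec 6 4112 1028 0 (by decide +kernel) L.g0 (g6_1028 L) c7_4112 v7_4112

theorem g7_4097 (L : Letters) : Good (H69.dec 7 4097) (trO T7_4097) :=
  good_dec 6 4097 1024 1 (by decide +kernel) L.g1 (g6_1024 L) c7_4097 v7_4097

theorem g7_8192 (L : Letters) : Good (H69.dec 7 8192) (trO T7_8192) :=
  good_dec 6 8192 2048 0 (by decide +kernel) L.g0 (g6_2048 L) c7_8192 v7_8192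

theorem g7_4096 (L : Letters) : Good (H69.dec 7 4096) (trO T7_4096) :=
  good_dec 6 4096 1024 0 (by decide +kernel) L.g0 (g6_1024 L) c7_4096 v7_4096

theorem g7_6826 (L : Letters) : Good (H69.dec 7 6826) (trO T7_6826) :=
  good_dec 6 6826 1706 2 (by decide +kernel) L.g2 (g6_1706 L) c7_6826 v7_6826

end Pool.Agent.Work.MP_bde882_al.TC
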