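import Pool.Agent.Work.MP_bde882_al_h64.TabStep4
import Pool.Agent.Work.MP_bde882_al_tab.Tab1a
import Pool.Agent.Work.MP_bde882_al_tab.Tab1b
import Pool.Agent.Work.MP_bde882_al_tab.Tab1c

/-!
The tables of the letters: shape and cover; the values are the interface to the model.
-/

set_option autoImplicit false
set_option maxRecDepth 100000
set_option linter.defProp false

namespace Pool.Agent.Work.MP_bde882_al.TC

open Pool.Agent.Work.MP_bde882_al TS64 H87 Tab Pg62

/-- the tables of the letters are correct -/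
structure Letters : Prop where
  g0 : Good [0] (trO T1_0)
  g1 : Good [1] (trO T1_1)
  g2 : Good [2] (trO T1_2)

theorem Letters.d0 (L : Letters) : Good (H69.dec 1 0) (trO T1_0) := L.g0

theorem Letters.d1 (L : Letters) : Good (H69.dec 1 1) (trO T1_1) := L.g1

theorem Letters.d2 (L : Letters) : Good (H69.dec 1 2) (trO T1_2) := L.g2

def c1_0 : chk14 dm 49 (trO T1_0) = true := by
  decide +kernel

def v1_0 : cov dm 1 0 0 49 (trO T1_0) = true := by
  decide +kernel

def c1_1 : chk14 dm 7 (trO T1_1) = true := by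
  decide +kernel

def v1_1 : cov dm 0 1 0 7 (trO T1_1) = true := by
  decide +kernel

def c1_2 : chk14 dm 1 (trO T1_2) = true := by
  decide +kernel

def v1_2 : cov dm 0 0 1 1 (trO T1_2) = true := by
  decide +kernel

/-- **Letters from the values.** -/
theorem letters_of (hx : ∀ a : Fin 3, ∀ β < 343, dg a β < 6 → ∀ t < dm β, ∀ r < dm (β + sh a),
    xh HH a β r t = ((mB (find β (trO (tX a))) r t : ℕ) : ZMod 7)) : Letters where
  g0 := good_letter 0 (by decide) ((chk14_eq _ _ _).symm.trans c1_0) v1_0 (hx 0)
  g1 := good_letter 1 (by decide) ((chk14_eq _ _ _).symm.trans c1_1) v1_1 (hx 1)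
  g2 := good_letter 2 (by decide) ((chk14_eq _ _ _).symm.trans c1_2) v1_2 (hx 2)

end Pool.Agent.Work.MP_bde882_al.TC
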